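import Pool.Agent.Helper87.PLap.Theta

set_option autoImplicit false

namespace Pool.Agent.Helper87.PLap

open Real Set Filter Topology MeasureTheory

section Basic

variable {p : ℝ} (hp : 2 < p)

include hp

theorem GG_le_one {x : ℝ} (h1 : -qq p ≤ x) (h2 : x ≤ p) : GG p x ≤ 1 := by
  have hG := GG_pos hp h1 h2
  have hq := one_lt_q hp
  have hn := four_lt_n hp
  suffices h : GG p x ^ 2 ≤ 1 by
    nlinarith
  rcases lt_trichotomy x 0 with h | h | h
  · rw [GG_sq hp h1 h2 h.ne]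
    have hx2 : 0 < x ^ 2 := by
      have hne := h.ne
      positivity
    rw [div_le_one hx2]
    rcases h1.eq_or_lt with h3 | h3
    · rw [← h3, V_left hp]
      nlinarith
    · have h4 := V_ge_of_nonpos hp h3 h.le
      rw [S_eq] at h4
      have h5 : 1 ≤ nn p + dd p * x := by
        have hd := d_pos hp
        have h6 : nn p - dd p * qq p = qq p ^ 2 := by
          unfold nn dd
          ring
        nlinarith
      have h7 : (1 - VV p x) * (nn p + dd p * x) ≤ x ^ 2 := by linarith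
      have h8 := V_le_one hp h1 h2
      nlinarith
  · rw [h, GG_zero hp, div_le_one (by linarith)]
    linarith
  · rw [GG_sq hp h1 h2 h.ne']
    have hx2 : 0 < x ^ 2 := by positivity
    rw [div_le_one hx2]
    have h4 := V_ge_of_nonneg hp h.le h2
    have h8 := V_le_one hp h1 h2
    nlinarith

theorem NN_le_one {A : ℝ} (hA : A ∈ Icc (-1 : ℝ) 1) : NN p A ≤ 1 :=
  GG_le_one hp (rh_mem hp hA).1 (rh_mem hp hA).2

theorem MM_le_two {A : ℝ} (hA : A ∈ Icc (-1 : ℝ) 1) : MM p A ≤ 2 := by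
  have h1 := NN_le_one hp hA
  have h2 := NN_le_one hp (neg_mem_Icc hA)
  unfold MM
  linarith

theorem MM_ge {A : ℝ} (hA : A ∈ Icc (0 : ℝ) 1) : A ≤ MM p A := by
  have hA' : A ∈ Icc (-1 : ℝ) 1 := ⟨by linarith [hA.1], hA.2⟩
  rcases hA.1.eq_or_lt with h | h
  · rw [← h]
    exact (MM_pos hp (by norm_num)).le
  rcases hA.2.eq_or_lt with h' | h'
  · rw [h', MM_one hp]
  have hA2 : A ∈ Ioo (0 : ℝ) 1 := ⟨h, h'⟩
  have hR := R_pos hp hA2
  have hR' := R_lt hp hA2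
  have hr := sr_pos hp hA2
  have hr' := sr_lt hp hA2
  have hq := q_pos hp
  have hp0 : 0 < p := by linarith
  have h1 := rh_mul_NN hp hA'
  have h2 := rh_mul_NN hp (neg_mem_Icc hA')
  have e1 : rh p (-A) = -sr p A := by
    unfold sr
    ring
  rw [e1] at h2
  have e2 : NN p A = A / rh p A := by
    rw [eq_div_iff hR.ne']
    linarith
  have e3 : NN p (-A) = A / sr p A := by
    rw [eq_div_iff hr.ne']
    linarith
  have h3 : A / p ≤ NN p A := by
    rw [e2]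
    exact div_le_div_of_nonneg_left h.le hR hR'.le
  have h4 : A / qq p ≤ NN p (-A) := by
    rw [e3]
    exact div_le_div_of_nonneg_left h.le hr hr'.le
  have h5 : A / p + A / qq p = A := by
    have := pq_eq hp
    field_simp
    linarith
  unfold MM
  linarith

end Basic

/-- The domain of joint continuity. -/
def Zdom : Set (ℝ × ℝ) := {z | 2 < z.1 ∧ z.2 ∈ Icc (0 : ℝ) 1}

theorem MM_cont : ContinuousOn (fun z : ℝ × ℝ => MM z.1 z.2) {z | 2 < z.1 ∧ z.2 ∈ Icc (-1 : ℝ) 1} := by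
  unfold MM
  apply NN_cont.add
  exact NN_cont.comp (f := fun z : ℝ × ℝ => ((z.1, -z.2) : ℝ × ℝ)) (by fun_prop)
    (fun z hz => ⟨hz.1, neg_mem_Icc hz.2⟩)

theorem frac_bound {k ψ : ℝ} (hk : k ∈ Icc (0 : ℝ) 1) :
    0 ≤ (k * cos ψ) ^ 2 / (1 - (k * sin ψ) ^ 2) ∧
    (k * cos ψ) ^ 2 / (1 - (k * sin ψ) ^ 2) ≤ 1 := by
  have h1 : (k * cos ψ) ^ 2 ≤ 1 - (k * sin ψ) ^ 2 := by
    have h2 := sin_sq_add_cos_sq ψ
    have h3 : (k * cos ψ) ^ 2 + (k * sin ψ) ^ 2 = k ^ 2 := by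
      calc (k * cos ψ) ^ 2 + (k * sin ψ) ^ 2 = k ^ 2 * (sin ψ ^ 2 + cos ψ ^ 2) := by ring
        _ = k ^ 2 := by rw [h2, mul_one]
    nlinarith [hk.1, hk.2]
  have h4 : 0 ≤ 1 - (k * sin ψ) ^ 2 := (sq_nonneg _).trans h1
  exact ⟨div_nonneg (sq_nonneg _) h4, div_le_one_of_le₀ h1 h4⟩

theorem sin_lt_one' {ψ : ℝ} (h : ψ ∈ Ioo 0 (π / 2)) : sin ψ < 1 := by
  rw [← sin_pi_div_two]
  exact sin_lt_sin_of_lt_of_le_pi_div_two (by linarith [h.1, pi_pos]) le_rfl h.2

theorem den_pos {k ψ : ℝ} (hk : k ∈ Icc (0 : ℝ) 1) (h : ψ ∈ Ioo 0 (π / 2)) :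
    0 < 1 - (k * sin ψ) ^ 2 := by
  have h1 := sin_lt_one' h
  have h2 : 0 < sin ψ := sin_pos_of_pos_of_lt_pi h.1 (by linarith [h.2, pi_pos])
  have h3 : k * sin ψ < 1 := by nlinarith [hk.1, hk.2]
  have h4 : 0 ≤ k * sin ψ := mul_nonneg hk.1 h2.le
  nlinarith

theorem ae_Ioo : ∀ᵐ ψ : ℝ, ψ ∈ uIoc 0 (π / 2) → ψ ∈ Ioo 0 (π / 2) := by
  have h : ∀ᵐ ψ : ℝ, ψ ≠ π / 2 := by
    rw [ae_iff]
    simp
  filter_upwards [h] with ψ hψ hψ2
  rw [uIoc_of_le hpi2] at hψ2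
  exact ⟨hψ2.1, lt_of_le_of_ne hψ2.2 hψ⟩

theorem JJ_cont : ContinuousOn (fun z : ℝ × ℝ => JJ z.1 z.2) Zdom := by
  intro z0 hz0
  unfold JJ
  apply ContinuousWithinAt.mul continuousWithinAt_const
  apply intervalIntegral.continuousWithinAt_of_dominated_interval (bound := fun _ => 2)
  · filter_upwards [self_mem_nhdsWithin] with z hz
    rw [uIoc_of_le hpi2]
    have h1 : ContinuousOn (fun ψ => MM z.1 (z.2 * sin ψ) *
        ((z.2 * cos ψ) ^ 2 / (1 - (z.2 * sin ψ) ^ 2))) (Ioo 0 (π / 2)) := by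
      apply ContinuousOn.mul
      · apply (MM_contOn hz.1).comp (by fun_prop)
        intro ψ hψ
        have := ksin_mem hz.2 ⟨hψ.1.le, hψ.2.le⟩
        exact ⟨by linarith [this.1], this.2⟩
      · apply ContinuousOn.div (by fun_prop) (by fun_prop)
        intro ψ hψ
        exact (den_pos hz.2 hψ).ne'
    have h2 := h1.aestronglyMeasurable (μ := volume) measurableSet_Ioo
    have h3 : (volume.restrict (Ioo 0 (π / 2)) : Measure ℝ) = volume.restrict (Ioc 0 (π / 2)) :=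
      Measure.restrict_congr_set Ioo_ae_eq_Ioc
    rwa [h3] at h2
  · filter_upwards [self_mem_nhdsWithin] with z hz
    filter_upwards with ψ hψ
    rw [uIoc_of_le hpi2] at hψ
    have h1 := ksin_mem hz.2 (ψ := ψ) ⟨hψ.1.le, hψ.2⟩
    have h2 : z.2 * sin ψ ∈ Icc (-1 : ℝ) 1 := ⟨by linarith [h1.1], h1.2⟩
    have h3 := MM_pos hz.1 h2
    have h4 := MM_le_two hz.1 h2
    have h5 := frac_bound (ψ := ψ) hz.2
    rw [Real.norm_eq_abs, abs_of_nonneg (mul_nonneg h3.le h5.1)]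
    nlinarith
  · simp
  · filter_upwards [ae_Ioo] with ψ hψ hψ2
    have hψ' := hψ hψ2
    apply ContinuousWithinAt.mul
    · have h1 : ContinuousOn (fun z : ℝ × ℝ => MM z.1 (z.2 * sin ψ)) Zdom :=
        MM_cont.comp (f := fun z : ℝ × ℝ => ((z.1, z.2 * sin ψ) : ℝ × ℝ)) (by fun_prop)
          (fun z hz => by
            have h1 := ksin_mem hz.2 (ψ := ψ) ⟨hψ'.1.le, hψ'.2.le⟩
            exact ⟨hz.1, by linarith [h1.1], h1.2⟩)
      exact h1 z0 hz0
    · apply ContinuousWithinAt.div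
      · exact ContinuousAt.continuousWithinAt (by fun_prop)
      · exact ContinuousAt.continuousWithinAt (by fun_prop)
      · exact (den_pos hz0.2 hψ').ne'

section Basic

variable {p : ℝ} (hp : 2 < p)

include hp

theorem JJ_contOn : ContinuousOn (JJ p) (Icc 0 1) := by
  have := JJ_cont.comp (f := fun k : ℝ => ((p, k) : ℝ × ℝ)) (s := Icc 0 1) (by fun_prop)
    (fun k hk => ⟨hp, hk⟩)
  exact this

omit hp in
theorem JJ_zero : JJ p 0 = 0 := by
  simp [JJ]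

omit hp in
theorem JJ_one : JJ p 1 = TT p 1 := by
  unfold JJ TT
  congr 1
  apply intervalIntegral.integral_congr_ae
  filter_upwards [ae_Ioo] with ψ hψ hψ2
  have h1 := den_pos (k := 1) (by norm_num) (hψ hψ2)
  have h2 : (1 * cos ψ) ^ 2 = 1 - (1 * sin ψ) ^ 2 := by
    have := sin_sq_add_cos_sq ψ
    linarith
  rw [h2, div_self h1.ne', mul_one]

theorem JJ_eq {k : ℝ} (hk : k ∈ Ico (0 : ℝ) 1) :
    JJ p k = TT p k - √(1 - k ^ 2) * TH p k := by
  unfold JJ TT TH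
  have h0 : 0 < 1 - k ^ 2 := by nlinarith [hk.1, hk.2]
  have hs : √(1 - k ^ 2) * √(1 - k ^ 2) = 1 - k ^ 2 := Real.mul_self_sqrt h0.le
  have hM : ContinuousOn (fun ψ => MM p (k * sin ψ)) (uIcc 0 (π / 2)) := by
    rw [uIcc_of_le hpi2]
    apply (MM_contOn hp).comp (by fun_prop)
    intro ψ hψ
    have := ksin_mem' hk hψ
    exact ⟨by linarith [this.1], this.2.le⟩
  have hd : ∀ ψ ∈ uIcc 0 (π / 2), 0 < 1 - (k * sin ψ) ^ 2 := by
    intro ψ hψ
    rw [uIcc_of_le hpi2] at hψ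
    have := ksin_mem' hk hψ
    nlinarith [this.1, this.2]
  have h1 : ∫ ψ in (0 : ℝ)..(π / 2), MM p (k * sin ψ) * ((k * cos ψ) ^ 2 / (1 - (k * sin ψ) ^ 2)) =
      ∫ ψ in (0 : ℝ)..(π / 2), (MM p (k * sin ψ) -
        (1 - k ^ 2) * (MM p (k * sin ψ) / (1 - (k * sin ψ) ^ 2))) := by
    apply intervalIntegral.integral_congr
    intro ψ hψ
    have h2 := hd ψ hψ
    have h3 : (k * cos ψ) ^ 2 = (1 - (k * sin ψ) ^ 2) - (1 - k ^ 2) := by
      have h4 := sin_sq_add_cos_sq ψ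
      have : cos ψ ^ 2 = 1 - sin ψ ^ 2 := by linarith
      rw [mul_pow, this]
      ring
    simp only
    rw [h3, sub_div, div_self h2.ne']
    ring
  rw [h1, intervalIntegral.integral_sub, intervalIntegral.integral_const_mul]
  · linear_combination (-2 * ∫ ψ in (0 : ℝ)..(π / 2), MM p (k * sin ψ) /
      (1 - (k * sin ψ) ^ 2)) * (-hs)
  · exact hM.intervalIntegrable
  · apply IntervalIntegrable.const_mul
    apply ContinuousOn.intervalIntegrable
    apply hM.div (by fun_prop)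
    intro ψ hψ
    exact (hd ψ hψ).ne'

theorem JJ_hasDerivAt {k : ℝ} (hk : k ∈ Ioo (0 : ℝ) 1) :
    HasDerivAt (JJ p) (k / √(1 - k ^ 2) * TH p k) k := by
  have h0 := one_sub_sq_pos hp hk
  have hs : 0 < √(1 - k ^ 2) := Real.sqrt_pos.mpr h0
  have hs2 : √(1 - k ^ 2) ^ 2 = 1 - k ^ 2 := Real.sq_sqrt h0.le
  have h1 := (TT_hasDerivAt hp hk).sub ((sqrt_hasDerivAt hp hk).mul (TH_hasDerivAt hp hk))
  have h2 := h1.congr_of_eventuallyEq (f₁ := JJ p) (by
    filter_upwards [Ioo_mem_nhds hk.1 hk.2] with y hy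
    rw [JJ_eq hp ⟨hy.1.le, hy.2⟩]
    simp)
  refine h2.congr_deriv ?_
  generalize √(1 - k ^ 2) = s at *
  rw [← hs2]
  ring

omit hp in
/-- The kernel integral. -/
theorem kernel_int {k : ℝ} (hk : k ∈ Ico (0 : ℝ) 1) :
    ∫ ψ in (0 : ℝ)..(π / 2), √(1 - k ^ 2) / (1 - (k * sin ψ) ^ 2) = π / 2 := by
  have h0 : 0 < 1 - k ^ 2 := by nlinarith [hk.1, hk.2]
  have hs : 0 < √(1 - k ^ 2) := Real.sqrt_pos.mpr h0
  have hs2 : √(1 - k ^ 2) ^ 2 = 1 - k ^ 2 := Real.sq_sqrt h0.le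
  have hd : ∀ ψ : ℝ, 0 < 1 - (k * sin ψ) ^ 2 := by
    intro ψ
    have h1 := sin_sq_le_one ψ
    rw [mul_pow]
    nlinarith [hk.1, hk.2, sq_nonneg k]
  have h := intervalIntegral.integral_eq_sub_of_hasDerivAt_of_le
    (f := fun ψ => arcsin (√(1 - k ^ 2) * sin ψ / √(1 - (k * sin ψ) ^ 2)))
    (f' := fun ψ => √(1 - k ^ 2) / (1 - (k * sin ψ) ^ 2)) hpi2
    (by
      apply Continuous.continuousOn
      apply continuous_arcsin.comp
      apply Continuous.div (by fun_prop) (by fun_prop)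
      intro ψ
      exact (Real.sqrt_pos.mpr (hd ψ)).ne')
    (by
      intro ψ hψ
      have hd' := hd ψ
      have hD : 0 < √(1 - (k * sin ψ) ^ 2) := Real.sqrt_pos.mpr hd'
      have hD2 : √(1 - (k * sin ψ) ^ 2) ^ 2 = 1 - (k * sin ψ) ^ 2 := Real.sq_sqrt hd'.le
      have hc : 0 < cos ψ := cos_pos_of_mem_Ioo ⟨by linarith [hψ.1, pi_pos], hψ.2⟩
      have hsin : 0 < sin ψ := sin_pos_of_pos_of_lt_pi hψ.1 (by linarith [hψ.2, pi_pos])
      have hsc := sin_sq_add_cos_sq ψ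
      have hx2 : 1 - (√(1 - k ^ 2) * sin ψ / √(1 - (k * sin ψ) ^ 2)) ^ 2 =
          (cos ψ / √(1 - (k * sin ψ) ^ 2)) ^ 2 := by
        rw [div_pow, div_pow, mul_pow, hs2, hD2]
        have hc2 : cos ψ ^ 2 = 1 - sin ψ ^ 2 := by linarith
        rw [hc2]
        have hd'' : 1 - k ^ 2 * sin ψ ^ 2 ≠ 0 := by
          rw [← mul_pow]
          exact hd'.ne'
        rw [mul_pow]
        field_simp
        ring
      have hx2' : √(1 - (√(1 - k ^ 2) * sin ψ / √(1 - (k * sin ψ) ^ 2)) ^ 2) =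
          cos ψ / √(1 - (k * sin ψ) ^ 2) := by
        rw [hx2, Real.sqrt_sq (by positivity)]
      have hxpos : 0 ≤ √(1 - k ^ 2) * sin ψ / √(1 - (k * sin ψ) ^ 2) := by positivity
      have hlt : √(1 - k ^ 2) * sin ψ / √(1 - (k * sin ψ) ^ 2) < 1 := by
        have : 0 < (cos ψ / √(1 - (k * sin ψ) ^ 2)) ^ 2 := by positivity
        rw [← hx2] at this
        nlinarith
      have e0 : HasDerivAt (fun ψ => 1 - (k * sin ψ) ^ 2) (-(2 * (k * sin ψ) * (k * cos ψ))) ψ := by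
        have := (((hasDerivAt_sin ψ).const_mul k).pow 2).const_sub 1
        refine this.congr_deriv ?_
        simp
      have e1 := e0.sqrt hd'.ne'
      have e2 := ((hasDerivAt_sin ψ).const_mul (√(1 - k ^ 2))).div e1 hD.ne'
      have e3 := (hasDerivAt_arcsin (x := √(1 - k ^ 2) * sin ψ / √(1 - (k * sin ψ) ^ 2))
        (by linarith) hlt.ne)
      have e4 := HasDerivAt.comp (h₂ := arcsin) ψ e3 e2
      refine HasDerivAt.congr_deriv (f := fun ψ => arcsin (√(1 - k ^ 2) * sin ψ /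
        √(1 - (k * sin ψ) ^ 2))) e4 ?_
      rw [hx2', hD2]
      generalize hDD : √(1 - (k * sin ψ) ^ 2) = D at *
      generalize √(1 - k ^ 2) = s at *
      rw [← hD2]
      have hk2 : (k * sin ψ) ^ 2 = 1 - D ^ 2 := by linarith
      field_simp
      linarith [hk2, mul_pow k (sin ψ) 2])
    (by
      apply Continuous.intervalIntegrable
      apply Continuous.div (by fun_prop) (by fun_prop)
      intro ψ
      exact (hd ψ).ne')
  rw [h]
  have h2 : (√(1 - k ^ 2) * sin (π / 2) / √(1 - (k * sin (π / 2)) ^ 2)) = 1 := by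
    rw [sin_pi_div_two, mul_one, mul_one]
    exact div_self hs.ne'
  rw [h2]
  simp

end Basic

end Pool.Agent.Helper87.PLap
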