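import Pool.Agent.Helper87.PLap.Cross

set_option autoImplicit false

namespace Pool.Agent.Helper87.PLap

open Real Set Filter Topology MeasureTheory

theorem cmp {J S B A b a : ℝ} (hJ : 0 < J) (hS : 0 ≤ S) (hb : b < B) (ha : a ≤ A) :
    b * J + a * S < B * J + A * S :=
  add_lt_add_of_lt_of_le (mul_lt_mul_of_pos_right hb hJ) (mul_le_mul_of_nonneg_right ha hS)

theorem cmp' {J S B A b a : ℝ} (hJ : 0 < J) (hS : 0 ≤ S) (hb : b ≤ B) (ha : a ≤ A) :
    b * J + a * S ≤ B * J + A * S :=
  add_le_add (mul_le_mul_of_nonneg_right hb hJ.le) (mul_le_mul_of_nonneg_right ha hS)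

set_option maxHeartbeats 1000000 in
/-- Everything needed at the crossing value of `p`. -/
theorem arith {p : ℝ} (hp : 16.4 ≤ p) (hF : FF p (12 * π) 25 = FF p (16 * π) 17) :
    ∃ k1 ∈ Ioo (0 : ℝ) 1, ∃ k2 ∈ Ioo (0 : ℝ) 1, ∃ V : ℝ, k1 ≠ k2 ∧ 0 < V ∧
      25 * TH p k1 = 2 * π * 6 ∧ V = 25 * TT p k1 ∧
      17 * TH p k2 = 2 * π * 8 ∧ V = 17 * TT p k2 ∧
      (∀ κ : ℕ, 2 ≤ κ → ∀ ν : ℕ, 0 < ν → ∀ α : ℤ, ∀ k ∈ Ioo (0 : ℝ) 1,
        ν * TH p k = 2 * π * α → V ≠ κ * (ν * TT p k)) ∧
      (∀ m : ℕ, V ≠ m * TT p 1) ∧ (∀ m : ℕ, V ≠ 2 * π * m) := by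
  have hp2 : 2 < p := by
    norm_num at hp
    linarith
  have hπ := pi_pos
  obtain ⟨k1, hk1, hθ1⟩ := exists_k hp (θ := 12 * π / 25) le_rfl (by linarith)
  obtain ⟨k2, hk2, hθ2⟩ := exists_k hp (θ := 16 * π / 17) (by linarith) (by linarith)
  have h1 : 25 * TH p k1 = 12 * π := by
    rw [hθ1]
    ring
  have h2 : 17 * TH p k2 = 16 * π := by
    rw [hθ2]
    ring
  have hne : k1 ≠ k2 := by
    rintro rfl
    rw [hθ1] at hθ2
    linarith
  set V := FF p (12 * π) 25 with hV
  have hs : ∀ k ∈ Icc (0 : ℝ) 1, 0 ≤ √(1 - k ^ 2) := fun k _ => Real.sqrt_nonneg _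
  have hT := TT_ge_two hp2
  -- bounds on V
  have hV1 : V < 12 * π := by
    have := FF_lt hp2 hk1 (by norm_num) h1 (k := 0) (by norm_num) hk1.1.ne
    rw [JJ_zero] at this
    simpa using this
  have hV2 : 16 * TT p 1 < V := by
    rw [hF, FF_eq hp2 hk2 (by norm_num) h2]
    have h3 := phi_pi hp2 (k := k2) ⟨hk2.1.le, hk2.2.le⟩
    have h4 := JJ_pos hp2 (k := k2) ⟨hk2.1, hk2.2.le⟩
    linarith
  have hV3 : V < 17 * TT p 1 := by
    rw [hF]
    have := FF_lt hp2 hk2 (by norm_num) h2 (k := 1) (by norm_num) hk2.2.ne'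
    rw [JJ_one] at this
    simpa using this
  have hV4 : 10 * π < V := by
    have := pi_lt_d2
    linarith
  refine ⟨k1, hk1, k2, hk2, V, hne, by linarith, by linarith, FF_eq_TT hp2 hk1 (by norm_num) h1,
    by linarith, ?_, ?_, ?_, ?_⟩
  · rw [hF]
    exact FF_eq_TT hp2 hk2 (by norm_num) h2
  · intro κ hκ ν hν α k hk hα hVk
    have hk' : k ∈ Icc (0 : ℝ) 1 := ⟨hk.1.le, hk.2.le⟩
    -- A = κ α, B = κ ν
    have hν' : (0 : ℝ) < ν := by exact_mod_cast hν
    have hκ' : (0 : ℝ) < κ := by
      have : 0 < κ := by omega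
      exact_mod_cast this
    have hTHpos := TH_pos hp2 (k := k) ⟨hk.1.le, hk.2⟩
    have hTHlt := TH_lt_pi hp2 (k := k) ⟨hk.1.le, hk.2⟩
    obtain ⟨A, hA⟩ : ∃ A : ℤ, A = κ * α := ⟨_, rfl⟩
    obtain ⟨B, hB⟩ : ∃ B : ℤ, B = κ * ν := ⟨_, rfl⟩
    have hAr : (A : ℝ) = κ * α := by
      rw [hA]
      push_cast
      ring
    have hBr : (B : ℝ) = κ * ν := by
      rw [hB]
      push_cast
      ring
    have hBpos : (0 : ℝ) < B := by
      rw [hBr]
      positivity
    have hBT : (B : ℝ) * TH p k = 2 * π * A := by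
      rw [hBr, hAr]
      linear_combination (κ : ℝ) * hα
    have hVB : V = B * TT p k := by
      rw [hVk, hBr]
      ring
    have hVF : V = FF p (2 * π * A) B := by
      rw [hVB, FF_eq_TT hp2 hk hBpos hBT]
    have hVJ : V = B * JJ p k + 2 * π * A * √(1 - k ^ 2) := by
      rw [hVF, FF_eq hp2 hk hBpos hBT]
    have hJ : 0 < JJ p k := JJ_pos hp2 ⟨hk.1, hk.2.le⟩
    have hsk := hs k hk'
    have hA6 : 6 ≤ A := by
      have h3 := FF_lt hp2 hk hBpos hBT (k := 0) (by norm_num) hk.1.ne
      rw [← hVF, JJ_zero] at h3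
      norm_num at h3
      have h4 : (5 : ℝ) < A := by
        have : 2 * π * 5 < 2 * π * A := by linarith
        exact lt_of_mul_lt_mul_left this (by positivity)
      have : (5 : ℤ) < A := by exact_mod_cast h4
      omega
    have hAB : 2 * A < B := by
      have h3 : 2 * π * (A : ℝ) < B * π := by
        rw [← hBT]
        exact mul_lt_mul_of_pos_left hTHlt hBpos
      have h4 : (2 * (A : ℝ)) < B := by
        by_contra h
        push Not at h
        nlinarith
      exact_mod_cast h4
    have g1 : V ≤ 25 * JJ p k + 12 * (π * √(1 - k ^ 2)) := by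
      have := FF_le hp2 (12 * π) 25 hk'
      rwa [mul_assoc] at this
    have g2 : V ≤ 17 * JJ p k + 16 * (π * √(1 - k ^ 2)) := by
      rw [hF]
      have := FF_le hp2 (16 * π) 17 hk'
      rwa [mul_assoc 16] at this
    have hπs : 0 ≤ π * √(1 - k ^ 2) := by positivity
    have hVJ' : V = B * JJ p k + 2 * A * (π * √(1 - k ^ 2)) := by
      rw [hVJ]
      ring
    rcases lt_or_ge A 9 with hA9 | hA9
    · have hcases : A = 6 ∨ A = 7 ∨ A = 8 := by omega
      rcases hcases with h6 | h7 | h8
      · -- A = 6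
        have hA' : (A : ℝ) = 6 := by
          rw [h6]
          norm_num
        rw [hA'] at hVJ'
        rcases lt_trichotomy B 25 with h9 | h9 | h9
        · have h10 : (B : ℝ) < 25 := by exact_mod_cast h9
          have h11 : V ≤ B * JJ p k1 + 2 * π * A * √(1 - k1 ^ 2) := by
            rw [hVF]
            exact FF_le hp2 _ _ ⟨hk1.1.le, hk1.2.le⟩
          have h12 := FF_eq hp2 hk1 (by norm_num) h1
          rw [← hV] at h12
          have h13 : 0 < JJ p k1 := JJ_pos hp2 ⟨hk1.1, hk1.2.le⟩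
          rw [hA'] at h11
          have h14 : (B : ℝ) * JJ p k1 < 25 * JJ p k1 := mul_lt_mul_of_pos_right h10 h13
          linarith
        · -- B = 25
          have h10 : (κ : ℤ) ∣ 6 := ⟨α, by rw [← h6, hA]⟩
          have h11 : (κ : ℤ) ∣ 25 := ⟨ν, by rw [← h9, hB]⟩
          have h12 : (κ : ℤ) ∣ 1 := by
            have := Int.dvd_sub h11 (Dvd.dvd.mul_left h10 4)
            simpa using this
          have h13 : (κ : ℤ) ≤ 1 := Int.le_of_dvd (by norm_num) h12
          omega
        · have h10 : (25 : ℝ) < B := by exact_mod_cast h9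
          have := cmp hJ hπs h10 (le_refl (2 * 6))
          linarith
      · -- A = 7
        have hA' : (A : ℝ) = 7 := by
          rw [h7]
          norm_num
        rw [hA'] at hVJ'
        have h10 : (κ : ℤ) ∣ 7 := ⟨α, by rw [← h7, hA]⟩
        have h11 : κ ∣ 7 := by exact_mod_cast h10
        have h12 : κ = 7 := by
          rcases (Nat.dvd_prime (by norm_num)).mp h11 with h | h
          · omega
          · exact h
        have h13 : 21 ≤ B := by
          rw [hB, h12]
          have : 2 < ν := by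
            by_contra h
            push Not at h
            rw [hB, h12, h7] at hAB
            push_cast at hAB
            omega
          push_cast
          omega
        have h14 : (21 : ℝ) ≤ B := by exact_mod_cast h13
        have h16 := cmp' hJ hπs h14 (le_refl (2 * 7))
        by_cases hkk : k = k1
        · have h15 : V < 17 * JJ p k + 16 * π * √(1 - k ^ 2) := by
            rw [hF]
            exact FF_lt hp2 hk2 (by norm_num) h2 hk' (by rw [hkk]; exact hne)
          linarith
        · have h15 : V < 25 * JJ p k + 12 * π * √(1 - k ^ 2) :=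
            FF_lt hp2 hk1 (by norm_num) h1 hk' hkk
          linarith
      · -- A = 8
        have hA' : (A : ℝ) = 8 := by
          rw [h8]
          norm_num
        rw [hA'] at hVJ'
        rcases lt_trichotomy B 17 with h9 | h9 | h9
        · omega
        · have h10 : (κ : ℤ) ∣ 8 := ⟨α, by rw [← h8, hA]⟩
          have h11 : (κ : ℤ) ∣ 17 := ⟨ν, by rw [← h9, hB]⟩
          have h12 : (κ : ℤ) ∣ 1 := by
            have := Int.dvd_sub h11 (Dvd.dvd.mul_left h10 2)
            simpa using this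
          have h13 : (κ : ℤ) ≤ 1 := Int.le_of_dvd (by norm_num) h12
          omega
        · have h10 : (17 : ℝ) < B := by exact_mod_cast h9
          have := cmp hJ hπs h10 (le_refl (2 * 8))
          linarith
    · have h10 : (9 : ℝ) ≤ A := by exact_mod_cast hA9
      have h11 : 19 ≤ B := by omega
      have h12 : (19 : ℝ) ≤ B := by exact_mod_cast h11
      have h13 := cmp (b := 17) (a := 16) (B := B) (A := 2 * A) hJ hπs (by linarith) (by linarith)
      linarith
  · intro m hm
    rw [hm] at hV2 hV3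
    have hT0 : 0 < TT p 1 := by linarith
    have h3 : (16 : ℝ) < m := lt_of_mul_lt_mul_right hV2 hT0.le
    have h4 : (m : ℝ) < 17 := lt_of_mul_lt_mul_right hV3 hT0.le
    have h5 : 16 < m := by exact_mod_cast h3
    have h6 : m < 17 := by exact_mod_cast h4
    omega
  · intro m hm
    rw [hm] at hV1 hV4
    have h3 : (5 : ℝ) < m := by nlinarith
    have h4 : (m : ℝ) < 6 := by nlinarith
    have h5 : 5 < m := by exact_mod_cast h3
    have h6 : m < 6 := by exact_mod_cast h4
    omega

end Pool.Agent.Helper87.PLap
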