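import Pool.Agent.Helper87.PLap.Sol

set_option autoImplicit false

namespace Pool.Agent.Helper87.PLap

open Real Set Filter Topology MeasureTheory

section Basic

variable {p : ℝ} (hp : 2 < p) {X Y : ℝ → ℂ} (h : Sol p X Y)

include hp h

omit hp in
theorem Sol.X_cont : Continuous X :=
  continuous_iff_continuousAt.mpr fun t => (h.hX t).continuousAt

omit hp in
theorem Sol.Y_cont : Continuous Y :=
  continuous_iff_continuousAt.mpr fun t => (h.hY t).continuousAt

/-- The angle formula. -/
theorem Sol.angle {L : ℝ} (hXL : ∀ t, X (t + L) = X t) (hYL : ∀ t, Y (t + L) = Y t)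
    (hs : 0 < (ZZ X Y 0).im) :
    ∃ n : ℤ, ∫ t in (0 : ℝ)..L, (ZZ X Y 0).im / VV p (ro p X t) = 2 * π * n := by
  have hq := q_pos hp
  have hp0 : 0 < p := by linarith
  set s := (ZZ X Y 0).im with hsdef
  have hZ0 : ∀ t, ZZ X Y t ≠ 0 := by
    intro t h0
    have := h.im_const hp t
    rw [h0] at this
    simp only [Complex.zero_im] at this
    linarith
  have hXY : ∀ t, 0 < ‖X t‖ * ‖Y t‖ := by
    intro t
    rw [← norm_ZZ]
    exact norm_pos_iff.mpr (hZ0 t)
  have hX0 : ∀ t, X t ≠ 0 := by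
    intro t h0
    have := hXY t
    rw [h0, norm_zero, zero_mul] at this
    exact lt_irrefl _ this
  have hY0 : ∀ t, Y t ≠ 0 := by
    intro t h0
    have := hXY t
    rw [h0, norm_zero, mul_zero] at this
    exact lt_irrefl _ this
  have hXc := h.X_cont
  have hYc := h.Y_cont
  have hm : Continuous (fun t => ‖Y t‖ ^ (qq p - 2) / ‖X t‖ ^ 2) := by
    apply Continuous.div
    · apply hYc.norm.rpow_const
      intro t
      left
      exact (norm_pos_iff.mpr (hY0 t)).ne'
    · fun_prop
    · intro t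
      have := norm_pos_iff.mpr (hX0 t)
      positivity
  have hwc := h.w_cont hp
  have hac : Continuous (fun t => ‖Y t‖ ^ (qq p - 2) / ‖X t‖ ^ 2 * (ZZ X Y t).re) := hm.mul hwc
  have hbc : Continuous (fun t => ‖Y t‖ ^ (qq p - 2) / ‖X t‖ ^ 2 * s) := hm.mul continuous_const
  set P : ℝ → ℝ := fun t => ∫ u in (0 : ℝ)..t, ‖Y u‖ ^ (qq p - 2) / ‖X u‖ ^ 2 * (ZZ X Y u).re
    with hP
  set Q : ℝ → ℝ := fun t => ∫ u in (0 : ℝ)..t, ‖Y u‖ ^ (qq p - 2) / ‖X u‖ ^ 2 * s with hQ
  have hPd : ∀ t, HasDerivAt P (‖Y t‖ ^ (qq p - 2) / ‖X t‖ ^ 2 * (ZZ X Y t).re) t := fun t =>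
      intervalIntegral.integral_hasDerivAt_right (hac.intervalIntegrable _ _)
      (hac.stronglyMeasurableAtFilter _ _) hac.continuousAt
  have hQd : ∀ t, HasDerivAt Q (‖Y t‖ ^ (qq p - 2) / ‖X t‖ ^ 2 * s) t := fun t =>
      intervalIntegral.integral_hasDerivAt_right (hbc.intervalIntegrable _ _)
      (hbc.stronglyMeasurableAtFilter _ _) hbc.continuousAt
  have hP0 : P 0 = 0 := by simp [hP]
  have hQ0 : Q 0 = 0 := by simp [hQ]
  have h1 : ∀ t, HasDerivAt (fun t => X t * Complex.exp (-((P t : ℂ) + (Q t : ℂ) * Complex.I)))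
      0 t := by
    intro t
    have e1 := (((hPd t).ofReal_comp).add (((hQd t).ofReal_comp).mul_const Complex.I)).neg.cexp
    have e2 := (h.hX t).mul e1
    refine HasDerivAt.congr_deriv (f := fun t => X t * Complex.exp (-((P t : ℂ) +
      (Q t : ℂ) * Complex.I))) e2 ?_
    have hZ : ZZ X Y t = ((ZZ X Y t).re : ℂ) + (s : ℂ) * Complex.I := by
      have h2 := Complex.re_add_im (ZZ X Y t)
      rw [h.im_const hp t] at h2
      exact h2.symm
    have hXn : (‖X t‖ : ℂ) ≠ 0 := by
      have := (norm_pos_iff.mpr (hX0 t)).ne'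
      exact_mod_cast this
    have hY : Y t = (ZZ X Y t) * X t / (‖X t‖ : ℂ) ^ 2 := by
      rw [eq_div_iff (pow_ne_zero 2 hXn)]
      unfold ZZ
      have : star (X t) * X t = (‖X t‖ : ℂ) ^ 2 := Complex.conj_mul' (X t)
      rw [← this]
      ring
    simp only [Pi.add_apply, Pi.neg_apply]
    generalize Complex.exp (-((P t : ℂ) + (Q t : ℂ) * Complex.I)) = E
    rw [Complex.real_smul]
    push_cast
    have hY' : Y t = (((ZZ X Y t).re : ℂ) + (s : ℂ) * Complex.I) * X t / (‖X t‖ : ℂ) ^ 2 := by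
      rw [← hZ]
      exact hY
    generalize (((‖Y t‖ ^ (qq p - 2) : ℝ)) : ℂ) = Yn
    rw [hY']
    field_simp
    ring
  have h2 := is_const_of_deriv_eq_zero (fun t => (h1 t).differentiableAt)
      (fun t => (h1 t).deriv) L 0
  have hXL0 : X L = X 0 := by
    have := hXL 0
    rwa [zero_add] at this
  simp only [hP0, hQ0, Complex.ofReal_zero, zero_mul, add_zero, neg_zero, Complex.exp_zero,
    mul_one, hXL0] at h2
  have h3 : Complex.exp (-((P L : ℂ) + (Q L : ℂ) * Complex.I)) = 1 := by
    have := mul_left_cancel₀ (hX0 0) (h2.trans (mul_one _).symm)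
    exact this
  rw [Complex.exp_eq_one_iff] at h3
  obtain ⟨n, hn⟩ := h3
  have h4 := congrArg Complex.im hn
  simp at h4
  have h5 : Q L = 2 * π * (-n : ℤ) := by
    push_cast
    linarith
  refine ⟨-n, ?_⟩
  rw [← h5, hQ]
  -- compare the integrands
  have hV : ∀ t, VV p (ro p X t) = (ZZ X Y t).re ^ 2 + s ^ 2 := by
    intro t
    have h6 : ‖ZZ X Y t‖ ^ 2 = (ZZ X Y t).re ^ 2 + (ZZ X Y t).im ^ 2 := by
      rw [Complex.sq_norm, Complex.normSq_apply]
      ring
    rw [norm_ZZ, h.im_const hp t] at h6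
    rw [h.VV_ro hp t, h6]
  have hVpos : ∀ t, 0 < VV p (ro p X t) := by
    intro t
    rw [hV]
    positivity
  have hVc : Continuous (fun t => VV p (ro p X t)) := (V_continuous hp).comp (h.ro_cont hp)
  have hm2 : ∀ t, ‖Y t‖ ^ (qq p - 2) / ‖X t‖ ^ 2 * s =
      s / VV p (ro p X t) + (1 / p) * (-(s * ro p X t / VV p (ro p X t))) := by
    intro t
    have h7 : ‖Y t‖ ^ (qq p - 2) / ‖X t‖ ^ 2 = (1 - ro p X t / p) / VV p (ro p X t) := by
      rw [← h.nY hp t, h.VV_ro hp t, ← norm_pow_aux hq]
      have := norm_pos_iff.mpr (hX0 t)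
      have := norm_pos_iff.mpr (hY0 t)
      field_simp
    rw [h7]
    have := hVpos t
    field_simp
    ring
  have hc1 : Continuous (fun t => s / VV p (ro p X t)) :=
    continuous_const.div hVc (fun t => (hVpos t).ne')
  have hc2 : Continuous (fun t => -(s * ro p X t / VV p (ro p X t))) :=
    ((continuous_const.mul (h.ro_cont hp)).div hVc (fun t => (hVpos t).ne')).neg
  have h8 : ∫ t in (0 : ℝ)..L, -(s * ro p X t / VV p (ro p X t)) = 0 := by
    have h9 : ∀ t, HasDerivAt (fun t => arctan ((ZZ X Y t).re / s))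
        (-(s * ro p X t / VV p (ro p X t))) t := by
      intro t
      have e1 := ((h.w_hasDerivAt hp t).div_const s).arctan
      refine e1.congr_deriv ?_
      rw [hV t]
      have h10 : 0 < (ZZ X Y t).re ^ 2 + s ^ 2 := by positivity
      field_simp
      ring
    rw [intervalIntegral.integral_eq_sub_of_hasDerivAt (fun t _ => h9 t)
      (hc2.intervalIntegrable _ _)]
    have hYL0 : Y L = Y 0 := by
      have := hYL 0
      rwa [zero_add] at this
    have : ZZ X Y L = ZZ X Y 0 := by
      unfold ZZ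
      rw [hXL0, hYL0]
    rw [this, sub_self]
  simp only [hm2]
  rw [intervalIntegral.integral_add (hc1.intervalIntegrable _ _)
    ((hc2.const_mul _).intervalIntegrable _ _), intervalIntegral.integral_const_mul, h8]
  simp

theorem classify_aux (hs : 0 ≤ (ZZ X Y 0).im) {L : ℝ} (hL : 0 < L)
    (hXL : ∀ t, X (t + L) = X t) (hYL : ∀ t, Y (t + L) = Y t) :
    (∃ k ∈ Ioo (0 : ℝ) 1, ∃ ν : ℕ, 0 < ν ∧ ∃ α : ℤ, L = ν * TT p k ∧ ν * TH p k = 2 * π * α) ∨
    (∃ m : ℕ, L = m * TT p 1) ∨ (∃ m : ℕ, L = 2 * π * m) := by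
  have hq := q_pos hp
  have hp0 : 0 < p := by linarith
  obtain ⟨φ, hφ0, hφd, hφ⟩ := h.phase hp
  set s := (ZZ X Y 0).im with hsdef
  have hAw := h.AA_sq' hp
  have hs1 : s ^ 2 ≤ 1 := by
    have := hAw 0
    nlinarith [sq_nonneg (AA p (ro p X 0)), sq_nonneg (ZZ X Y 0).re]
  have hs1' : s ≤ 1 := by nlinarith
  set k := √(1 - s ^ 2) with hk
  have hk2 : k ^ 2 = 1 - s ^ 2 := Real.sq_sqrt (by linarith)
  have hk0 : 0 ≤ k := Real.sqrt_nonneg _
  have hk1 : k ≤ 1 := by nlinarith [sq_nonneg s]
  have hsk : √(1 - k ^ 2) = s := by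
    rw [hk2]
    have : 1 - (1 - s ^ 2) = s ^ 2 := by ring
    rw [this, Real.sqrt_sq hs]
  have hXL0 : X L = X 0 := by
    have := hXL 0
    rwa [zero_add] at this
  have hYL0 : Y L = Y 0 := by
    have := hYL 0
    rwa [zero_add] at this
  rcases hk0.eq_or_lt with hk0' | hkpos
  · -- circular motion
    right
    right
    have hs1'' : s = 1 := by
      have : s ^ 2 = 1 := by
        rw [← hk0'] at hk2
        linarith
      nlinarith
    have hρ : ∀ t, ro p X t = 0 := by
      intro t
      have h1 := hAw t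
      rw [← hk2, ← hk0'] at h1
      have h2 : AA p (ro p X t) = 0 := by
        nlinarith [sq_nonneg (AA p (ro p X t)), sq_nonneg (ZZ X Y t).re]
      rw [AA_eq] at h2
      rcases mul_eq_zero.mp h2 with h3 | h3
      · exact h3
      · exact absurd h3 (h.GG_comp_pos hp t).ne'
    obtain ⟨n, hn⟩ := h.angle hp hXL hYL (by rw [← hsdef, hs1'']; norm_num)
    rw [← hsdef, hs1''] at hn
    simp only [hρ, V_zero, div_one, intervalIntegral.integral_const, smul_eq_mul, mul_one,
      sub_zero] at hn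
    have hπ := pi_pos
    have hn0 : 0 ≤ n := by
      by_contra hneg
      push Not at hneg
      have : (n : ℝ) < 0 := by exact_mod_cast hneg
      nlinarith
    refine ⟨n.toNat, ?_⟩
    have : ((n.toNat : ℕ) : ℝ) = (n : ℝ) := by
      have := Int.toNat_of_nonneg hn0
      exact_mod_cast this
    rw [this]
    exact hn
  · -- k > 0
    set u0 : ℂ := ((ZZ X Y 0).re : ℂ) + (AA p (ro p X 0) : ℂ) * Complex.I with hu0
    have hu0n : ‖u0‖ = k := by
      have h1 : ‖u0‖ ^ 2 = k ^ 2 := by
        rw [Complex.sq_norm, Complex.normSq_apply, hk2]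
        have := hAw 0
        simp [hu0]
        linarith
      exact (pow_left_inj₀ (norm_nonneg _) hk0 (by norm_num)).mp h1
    have hu0ne : u0 ≠ 0 := by
      intro h0
      rw [h0, norm_zero] at hu0n
      linarith
    set ψ0 := Complex.arg u0 with hψ0
    have hu : ∀ t, (((ZZ X Y t).re : ℂ) + (AA p (ro p X t) : ℂ) * Complex.I) =
        (k : ℂ) * Complex.exp (((ψ0 + φ t : ℝ) : ℂ) * Complex.I) := by
      intro t
      rw [hφ t]
      have h1 : u0 = (k : ℂ) * Complex.exp ((ψ0 : ℂ) * Complex.I) := by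
        rw [← hu0n, hψ0]
        exact (Complex.norm_mul_exp_arg_mul_I u0).symm
      rw [h1, mul_assoc, ← Complex.exp_add]
      congr 2
      push_cast
      ring
    have hA : ∀ t, AA p (ro p X t) = k * sin (ψ0 + φ t) := by
      intro t
      have h1 := congrArg Complex.im (hu t)
      rw [Complex.im_ofReal_mul, Complex.exp_ofReal_mul_I_im] at h1
      simpa using h1
    have hmono : StrictMono φ := by
      apply strictMono_of_deriv_pos
      intro t
      rw [(hφd t).deriv]
      have := h.GG_comp_pos hp t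
      positivity
    have hφL : 0 < φ L := by
      rw [← hφ0]
      exact hmono hL
    obtain ⟨ν, hν⟩ : ∃ ν : ℤ, φ L = ν * (2 * π) := by
      have h1 := hφ L
      have h2 : ZZ X Y L = ZZ X Y 0 := by
        unfold ZZ
        rw [hXL0, hYL0]
      have h3 : ro p X L = ro p X 0 := by
        unfold ro
        rw [hXL0]
      rw [h2, h3, ← hu0] at h1
      have h4 : Complex.exp ((φ L : ℂ) * Complex.I) = 1 := by
        have := mul_left_cancel₀ hu0ne (h1.symm.trans (mul_one _).symm)
        exact this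
      rw [Complex.exp_eq_one_iff] at h4
      obtain ⟨n, hn⟩ := h4
      refine ⟨n, ?_⟩
      have h5 := congrArg Complex.im hn
      simpa using h5
    have hνpos : 0 < ν := by
      by_contra hneg
      push Not at hneg
      have h1 : (ν : ℝ) ≤ 0 := by exact_mod_cast hneg
      have := pi_pos
      rw [hν] at hφL
      nlinarith
    obtain ⟨N, hN⟩ : ∃ N : ℕ, (N : ℤ) = ν := ⟨ν.toNat, Int.toNat_of_nonneg hνpos.le⟩
    have hNpos : 0 < N := by
      have : (0 : ℤ) < N := by rw [hN]; exact hνpos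
      exact_mod_cast this
    have hNr : (N : ℝ) = (ν : ℝ) := by exact_mod_cast congrArg (Int.cast (R := ℝ)) hN
    have hf : ∀ t, HasDerivAt (fun t => ψ0 + φ t) (1 / GG p (ro p X t)) t := fun t =>
      (hφd t).const_add ψ0
    have hc : Continuous (fun t => 1 / GG p (ro p X t)) :=
      continuous_const.div (h.GG_comp_cont hp) (fun t => (h.GG_comp_pos hp t).ne')
    have hNN : ∀ t, NN p (k * sin (ψ0 + φ t)) = GG p (ro p X t) := by
      intro t
      rw [← hA t]
      unfold NN
      rw [rh_AA hp (h.ro_mem hp t)]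
    have hLT : L = ν * TT p k := by
      rw [← int_TT hp ⟨hk0, hk1⟩ ψ0 ν]
      have h1 := intervalIntegral.integral_comp_mul_deriv (a := 0) (b := L)
        (f := fun t => ψ0 + φ t) (f' := fun t => 1 / GG p (ro p X t))
        (g := fun u => NN p (k * sin u)) (fun t _ => hf t) hc.continuousOn (NNk_cont hp ⟨hk0, hk1⟩)
      simp only [Function.comp_def, hNN, hφ0, add_zero, hν] at h1
      rw [← h1]
      have h2 : ∀ t, GG p (ro p X t) * (1 / GG p (ro p X t)) = 1 := fun t => by
        have := (h.GG_comp_pos hp t).ne'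
        field_simp
      simp only [h2]
      simp
    rcases hs.eq_or_lt with hs0 | hspos
    · -- linear motion
      right
      left
      refine ⟨N, ?_⟩
      have hk1' : k = 1 := by
        have : k ^ 2 = 1 := by
          rw [hk2, ← hs0]
          norm_num
        nlinarith
      rw [hk1'] at hLT
      rw [hNr]
      exact hLT
    · left
      have hk1' : k < 1 := by nlinarith
      refine ⟨k, ⟨hkpos, hk1'⟩, N, hNpos, ?_⟩
      obtain ⟨n, hn⟩ := h.angle hp hXL hYL hspos
      refine ⟨n, by rw [hNr]; exact hLT, ?_⟩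
      rw [← hn, hNr, ← int_TH hp ⟨hk0, hk1'⟩ ψ0 ν, hsk]
      have hd : ∀ ψ : ℝ, 0 < 1 - (k * sin ψ) ^ 2 := by
        intro ψ
        have h1 := sin_sq_le_one ψ
        rw [mul_pow]
        nlinarith [hk0, hk1', sq_nonneg k]
      have hgc : Continuous (fun u => NN p (k * sin u) / (1 - (k * sin u) ^ 2)) := by
        apply (NNk_cont hp ⟨hk0, hk1⟩).div (by fun_prop)
        intro ψ
        exact (hd ψ).ne'
      have h1 := intervalIntegral.integral_comp_mul_deriv (a := 0) (b := L)
        (f := fun t => ψ0 + φ t) (f' := fun t => 1 / GG p (ro p X t))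
        (g := fun u => NN p (k * sin u) / (1 - (k * sin u) ^ 2)) (fun t _ => hf t)
        hc.continuousOn hgc
      have hNN' : ∀ t, NN p (AA p (ro p X t)) = GG p (ro p X t) := by
        intro t
        unfold NN
        rw [rh_AA hp (h.ro_mem hp t)]
      simp only [Function.comp_def, hφ0, add_zero, hν, ← hA, hNN'] at h1
      rw [← h1, ← intervalIntegral.integral_const_mul]
      apply intervalIntegral.integral_congr
      intro t _
      simp only
      have h3 := (h.GG_comp_pos hp t).ne'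
      have h4 : VV p (ro p X t) = 1 - AA p (ro p X t) ^ 2 := by
        have := AA_sq hp (h.ro_mem hp t).1 (h.ro_mem hp t).2
        linarith
      rw [h4]
      have h5 : 1 - AA p (ro p X t) ^ 2 ≠ 0 := by
        rw [hA t]
        exact (hd _).ne'
      rw [← hsdef]
      field_simp

end Basic

/-- Reflection. -/
theorem Sol.conj {p : ℝ} {X Y : ℝ → ℂ} (h : Sol p X Y) :
    Sol p (fun t => star (X t)) (fun t => star (Y t)) where
  hX t := by
    have := (h.hX t).star
    refine this.congr_deriv ?_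
    rw [norm_star, star_smul, star_trivial]
  hY t := by
    have := (h.hY t).star
    refine this.congr_deriv ?_
    rw [norm_star, star_neg, star_smul, star_trivial]
  en t := by
    rw [norm_star, norm_star]
    exact h.en t

theorem classify {p : ℝ} (hp : 2 < p) {X Y : ℝ → ℂ} (h : Sol p X Y) {L : ℝ} (hL : 0 < L)
    (hXL : ∀ t, X (t + L) = X t) (hYL : ∀ t, Y (t + L) = Y t) :
    (∃ k ∈ Ioo (0 : ℝ) 1, ∃ ν : ℕ, 0 < ν ∧ ∃ α : ℤ, L = ν * TT p k ∧ ν * TH p k = 2 * π * α) ∨
    (∃ m : ℕ, L = m * TT p 1) ∨ (∃ m : ℕ, L = 2 * π * m) := by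
  rcases le_total 0 (ZZ X Y 0).im with hs | hs
  · exact classify_aux hp h hs hL hXL hYL
  · apply classify_aux hp h.conj _ hL
    · intro t
      simp only [hXL]
    · intro t
      simp only [hYL]
    · have : ZZ (fun t => star (X t)) (fun t => star (Y t)) 0 = star (ZZ X Y 0) := by
        unfold ZZ
        rw [star_mul', star_star]
      rw [this]
      simp
      exact hs

end Pool.Agent.Helper87.PLap
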