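import Pool.Agent.Helper87.PLap.Num

set_option autoImplicit false

namespace Pool.Agent.Helper87.PLap

open Real Set Filter Topology MeasureTheory

/-- The minimum over `k` of `b j(k) + a s(k)`. -/
noncomputable def FF (p a b : ℝ) : ℝ :=
  sInf ((fun k => b * JJ p k + a * √(1 - k ^ 2)) '' Icc 0 1)

theorem FF_cont (a b : ℝ) : ContinuousOn (fun p => FF p a b) (Ici 16.4) := by
  have h1 : Continuous (fun t : ℝ => sInf ((fun k => b * JJ (max 16.4 t) (max 0 (min k 1)) +
      a * √(1 - (max 0 (min k 1)) ^ 2)) '' Icc (0 : ℝ) 1)) := by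
    apply IsCompact.continuous_sInf isCompact_Icc
    have h2 : Continuous (fun z : ℝ × ℝ => JJ (max 16.4 z.1) (max 0 (min z.2 1))) := by
      apply JJ_cont.comp_continuous (f := fun z : ℝ × ℝ => ((max 16.4 z.1, max 0 (min z.2 1)) :
        ℝ × ℝ)) (by fun_prop)
      intro z
      refine ⟨?_, ?_, ?_⟩
      · have := le_max_left (16.4 : ℝ) z.1
        exact lt_of_lt_of_le (by norm_num) this
      · simp
      · simp
    show Continuous (fun z : ℝ × ℝ => b * JJ (max 16.4 z.1) (max 0 (min z.2 1)) +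
      a * √(1 - (max 0 (min z.2 1)) ^ 2))
    fun_prop
  refine h1.continuousOn.congr fun p hp => ?_
  unfold FF
  have hp' : max 16.4 p = p := max_eq_right hp
  simp only [hp']
  congr 1
  apply image_congr
  intro k hk
  have : max 0 (min k 1) = k := by
    rw [min_eq_left hk.2, max_eq_right hk.1]
  rw [this]

section Basic

variable {p : ℝ} (hp : 2 < p)

include hp

theorem val_contOn (a b : ℝ) :
    ContinuousOn (fun k => b * JJ p k + a * √(1 - k ^ 2)) (Icc 0 1) := by
  have := JJ_contOn hp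
  fun_prop

theorem FF_le (a b : ℝ) {k : ℝ} (hk : k ∈ Icc (0 : ℝ) 1) :
    FF p a b ≤ b * JJ p k + a * √(1 - k ^ 2) := by
  apply csInf_le
  · exact (isCompact_Icc.image_of_continuousOn (val_contOn hp a b)).bddBelow
  · exact ⟨k, hk, rfl⟩

omit hp in
theorem le_FF {a b c : ℝ} (h : ∀ k ∈ Icc (0 : ℝ) 1, c ≤ b * JJ p k + a * √(1 - k ^ 2)) :
    c ≤ FF p a b := by
  apply le_csInf
  · exact ⟨_, ⟨0, by norm_num, rfl⟩⟩
  · rintro _ ⟨k, hk, rfl⟩
    exact h k hk

/-- Values at the minimizer. -/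
theorem FF_eq {a b k0 : ℝ} (hk0 : k0 ∈ Ioo (0 : ℝ) 1) (hb : 0 < b) (h : b * TH p k0 = a) :
    FF p a b = b * JJ p k0 + a * √(1 - k0 ^ 2) := by
  apply le_antisymm
  · exact FF_le hp a b ⟨hk0.1.le, hk0.2.le⟩
  · apply le_FF
    intro k hk
    by_cases hne : k = k0
    · rw [hne]
    · have := phi_min hp hk0 hk hne
      rw [← h]
      nlinarith

theorem FF_lt {a b k0 : ℝ} (hk0 : k0 ∈ Ioo (0 : ℝ) 1) (hb : 0 < b) (h : b * TH p k0 = a)
    {k : ℝ} (hk : k ∈ Icc (0 : ℝ) 1) (hne : k ≠ k0) :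
    FF p a b < b * JJ p k + a * √(1 - k ^ 2) := by
  rw [FF_eq hp hk0 hb h]
  have := phi_min hp hk0 hk hne
  rw [← h]
  nlinarith

theorem FF_eq_TT {a b k0 : ℝ} (hk0 : k0 ∈ Ioo (0 : ℝ) 1) (hb : 0 < b) (h : b * TH p k0 = a) :
    FF p a b = b * TT p k0 := by
  rw [FF_eq hp hk0 hb h, JJ_eq hp ⟨hk0.1.le, hk0.2⟩, ← h]
  ring

end Basic

theorem sin_ge_cubic {x : ℝ} (hx : 0 ≤ x) : x - x ^ 3 / 6 ≤ sin x := by
  have := le_of_hasDerivAt (f := fun x => sin x - x + x ^ 3 / 6)
    (f' := fun x => cos x - 1 + 3 * x ^ 2 / 6) hx (by fun_prop)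
    (fun y _ => by
      have := ((hasDerivAt_sin y).sub (hasDerivAt_id y)).add ((hasDerivAt_pow 3 y).div_const 6)
      refine HasDerivAt.congr_deriv (f := fun x => sin x - x + x ^ 3 / 6) this ?_
      norm_num)
    (fun y _ => by
      have := one_sub_sq_div_two_le_cos (x := y)
      linarith)
  simp only [sin_zero] at this
  norm_num at this
  linarith

theorem n_gt {p : ℝ} (hp : 16.4 ≤ p) : (25 / 6) ^ 2 < nn p := by
  have h1 : nn p * (p - 1) = p ^ 2 := by
    unfold nn qq
    have : p - 1 ≠ 0 := by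
      intro h
      norm_num at hp
      linarith
    field_simp
  have h2 : 0 < p - 1 := by
    norm_num at hp
    linarith
  norm_num at hp ⊢
  by_contra h
  push Not at h
  have h3 : nn p * (p - 1) ≤ 625 / 36 * (p - 1) := mul_le_mul_of_nonneg_right h h2.le
  nlinarith

theorem exists_k {p : ℝ} (hp : 16.4 ≤ p) {θ : ℝ} (h1 : 12 * π / 25 ≤ θ) (h2 : θ < π) :
    ∃ k ∈ Ioo (0 : ℝ) 1, TH p k = θ := by
  have hp2 : 2 < p := by
    norm_num at hp
    linarith
  apply exists_TH_eq hp2 _ h2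
  refine lt_of_lt_of_le ?_ h1
  have h3 : 25 / 6 < √(nn p) := by
    apply Real.lt_sqrt_of_sq_lt
    exact n_gt hp
  have h4 : 0 < √(nn p) := by linarith
  rw [div_lt_div_iff₀ h4 (by norm_num)]
  have := pi_pos
  nlinarith

theorem cross_left : FF 16.4 (12 * π) 25 < FF 16.4 (16 * π) 17 := by
  have hp : (2 : ℝ) < 16.4 := by norm_num
  have h1 : FF 16.4 (12 * π) 25 ≤ 12 * π := by
    have := FF_le hp (12 * π) 25 (k := 0) (by norm_num)
    rw [JJ_zero] at this
    norm_num at this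
    norm_num
    exact this
  have h2 : 16 * TT 16.4 1 ≤ FF 16.4 (16 * π) 17 := by
    apply le_FF
    intro k hk
    have h3 := phi_pi hp hk
    have h4 : 0 ≤ JJ 16.4 k := by
      rcases hk.1.eq_or_lt with h | h
      · rw [← h, JJ_zero]
      · exact (JJ_pos hp ⟨h, hk.2⟩).le
    linarith
  have h3 := TT_one_ge hp
  have h4 : (16.4 : ℝ) / qq 16.4 = 15.4 := by
    unfold qq
    norm_num
  rw [h4] at h3
  have h5 : (1.1781 : ℝ) < (15.4 : ℝ) ^ (1 / 16.4 : ℝ) := by
    have h6 : ((1.1781 : ℝ) ^ (82 : ℝ)) ^ (1 / 82 : ℝ) = 1.1781 := by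
      rw [← rpow_mul (by norm_num)]
      norm_num
    have h7 : ((15.4 : ℝ) ^ (5 : ℝ)) ^ (1 / 82 : ℝ) = (15.4 : ℝ) ^ (1 / 16.4 : ℝ) := by
      rw [← rpow_mul (by norm_num)]
      norm_num
    rw [← h6, ← h7]
    apply rpow_lt_rpow (by positivity) _ (by norm_num)
    rw [show (82 : ℝ) = ((82 : ℕ) : ℝ) by norm_num, show (5 : ℝ) = ((5 : ℕ) : ℝ) by norm_num,
      rpow_natCast, rpow_natCast]
    norm_num
  have h8 : π < 3.1416 := pi_lt_d4
  generalize (15.4 : ℝ) ^ (1 / 16.4 : ℝ) = X at *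
  have h9 : (12 : ℝ) * 3.1416 ≤ 16 * (2 * 1.1781) := by norm_num
  linarith

theorem num_aux : (10000 : ℝ) ^ (1 / 10000 : ℝ) ≤ 1.002 := by
  have h6 : ((1.002 : ℝ) ^ (10000 : ℝ)) ^ (1 / 10000 : ℝ) = 1.002 := by
    rw [← rpow_mul (by norm_num)]
    norm_num
  rw [← h6]
  apply rpow_le_rpow (by norm_num) _ (by norm_num)
  rw [show (10000 : ℝ) = ((10000 : ℕ) : ℝ) by norm_num, rpow_natCast]
  have h7 : (3 : ℝ) ≤ (1.002 : ℝ) ^ 1000 := by
    have := one_add_mul_le_pow (a := (0.002 : ℝ)) (by norm_num) 1000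
    rw [show (1 : ℝ) + 0.002 = 1.002 by norm_num] at this
    exact le_trans (by norm_num) this
  calc ((10000 : ℕ) : ℝ) ≤ 3 ^ 10 := by norm_num
    _ ≤ ((1.002 : ℝ) ^ 1000) ^ 10 := pow_le_pow_left₀ (by norm_num) h7 10
    _ = (1.002 : ℝ) ^ 10000 := by rw [← pow_mul]


theorem cross_right : FF 10000 (16 * π) 17 < FF 10000 (12 * π) 25 := by
  have hp : (2 : ℝ) < 10000 := by norm_num
  have h1 : FF 10000 (16 * π) 17 ≤ 17 * TT 10000 1 := by
    have := FF_le hp (16 * π) 17 (k := 1) (by norm_num)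
    rw [JJ_one] at this
    simpa using this
  have h2 : 50 * sin (6 * π / 25) ≤ FF 10000 (12 * π) 25 := by
    apply le_FF
    intro k hk
    have hβ : arcsin k ∈ Icc 0 (π / 2) := ⟨arcsin_nonneg.mpr hk.1, arcsin_le_pi_div_two k⟩
    have hk2 : sin (arcsin k) = k := sin_arcsin (by linarith [hk.1]) hk.2
    have h3 := JJ_ge hp hβ
    rw [hk2] at h3
    have h4 : cos (arcsin k) = √(1 - k ^ 2) := cos_arcsin k
    rw [← h4]
    generalize arcsin k = β at *
    have h5 : sin (6 * π / 25) ≤ sin β + (6 * π / 25 - β) * cos β := by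
      have hc : StrictConcaveOn ℝ (Icc 0 π) sin := strictConcaveOn_sin_Icc
      have hπ := pi_pos
      have hβ' : β ∈ Icc 0 π := ⟨hβ.1, by linarith [hβ.2]⟩
      have hβ0 : 6 * π / 25 ∈ Icc 0 π := ⟨by positivity, by linarith⟩
      rcases lt_trichotomy β (6 * π / 25) with h6 | h6 | h6
      · have h7 : 0 ≤ 6 * π / 25 - β := by linarith
        have := le_of_hasDerivAt (f := fun x => (x - β) * cos β - sin x)
          (f' := fun x => cos β - cos x) h6.le (by fun_prop)
          (fun y _ => by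
            have := (((hasDerivAt_id y).sub_const β).mul_const (cos β)).sub (hasDerivAt_sin y)
            refine HasDerivAt.congr_deriv (f := fun x => (x - β) * cos β - sin x) this ?_
            simp)
          (fun y hy => by
            have : cos y ≤ cos β := cos_le_cos_of_nonneg_of_le_pi hβ.1
              (by linarith [hy.2]) hy.1.le
            linarith)
        simp only [sub_self, zero_mul, zero_sub] at this
        linarith
      · rw [h6]
        simp
      · have := le_of_hasDerivAt (f := fun x => sin x - (x - β) * cos β)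
          (f' := fun x => cos x - cos β) h6.le (by fun_prop)
          (fun y _ => by
            have := (hasDerivAt_sin y).sub (((hasDerivAt_id y).sub_const β).mul_const (cos β))
            refine HasDerivAt.congr_deriv (f := fun x => sin x - (x - β) * cos β) this ?_
            simp)
          (fun y hy => by
            have : cos β ≤ cos y := cos_le_cos_of_nonneg_of_le_pi
              (by linarith [hy.1]) (by linarith [hβ.2]) hy.2.le
            linarith)
        simp only [sub_self, zero_mul, sub_zero] at this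
        linarith
    linarith
  have h3 := TT_one_le hp
  have h4 : qq 10000 / 10000 ≤ 0.0002 := by
    unfold qq
    norm_num
  have h5 := num_aux
  have hX0 : 0 < (10000 : ℝ) ^ (1 / 10000 : ℝ) := rpow_pos_of_pos (by norm_num) _
  generalize (10000 : ℝ) ^ (1 / 10000 : ℝ) = X at h3 h5 hX0
  have h6 : X * (1 + qq 10000 / 10000) ≤ 1.002 * 1.0002 := by
    apply mul_le_mul h5 (by linarith) _ (by norm_num)
    have := q_pos hp
    positivity
  have h7 := sin_ge_cubic (x := 6 * π / 25) (by positivity)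
  have h8 := pi_gt_d4
  have h9 := pi_lt_d4
  have h10 : (0.68252 : ℝ) ≤ 6 * π / 25 - (6 * π / 25) ^ 3 / 6 := by
    have e1 : (0.75396 : ℝ) ≤ 6 * π / 25 := by
      norm_num at h8 ⊢
      linarith
    have e2 : 6 * π / 25 ≤ (0.753984 : ℝ) := by
      norm_num at h9 ⊢
      linarith
    have e3 : (6 * π / 25) ^ 3 ≤ (0.753984 : ℝ) ^ 3 := pow_le_pow_left₀ (by positivity) e2 3
    norm_num at e1 e3 ⊢
    linarith
  have h11 : (17 : ℝ) * (2 * (1.002 * 1.0002)) < 50 * 0.68252 := by norm_num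
  linarith

theorem exists_cross : ∃ p : ℝ, 16.4 ≤ p ∧ FF p (12 * π) 25 = FF p (16 * π) 17 := by
  have hc : ContinuousOn (fun p => FF p (12 * π) 25 - FF p (16 * π) 17) (Icc 16.4 10000) :=
    ((FF_cont _ _).sub (FF_cont _ _)).mono Icc_subset_Ici_self
  have h := intermediate_value_Icc (by norm_num : (16.4 : ℝ) ≤ 10000) hc
  have h1 := cross_left
  have h2 := cross_right
  obtain ⟨p, hp, hp2⟩ := h (show (0 : ℝ) ∈ _ from ⟨by linarith, by linarith⟩)
  exact ⟨p, hp.1, by simpa [sub_eq_zero] using hp2⟩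

end Pool.Agent.Helper87.PLap
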