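import Mathlib

/-!
# Definitions for the vector `p`-Laplacian problem `MP_799515_an`
-/

set_option autoImplicit false

namespace Pool.Agent.Helper87.PLapDefs

/-- The Euclidean plane `ℝ²`. -/
abbrev Plane : Type := EuclideanSpace ℝ (Fin 2)

/-- `φ_p(z) = ‖z‖^(p-2) z`; in particular `φ_p(0) = 0`. -/
noncomputable def phi (p : ℝ) (z : Plane) : Plane := ‖z‖ ^ (p - 2) • z

/-- `x` is an eigenfunction for `Λ` of the 1-periodic problem
`(φ_p(x'))' + Λ φ_p(x) = 0`, `x(t + 1) = x(t)`: a solution of class `C¹`, with `φ_p(x')` of class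
`C¹`, that is not identically zero. -/
structure IsEigenfunction (p Λ : ℝ) (x : ℝ → Plane) : Prop where
  contDiff : ContDiff ℝ 1 x
  contDiff_phi : ContDiff ℝ 1 (fun t => phi p (deriv x t))
  equation : ∀ t, deriv (fun s => phi p (deriv x s)) t + Λ • phi p (x t) = 0
  periodic : ∀ t, x (t + 1) = x t
  nonzero : ∃ t, x t ≠ 0

/-- The periodic spectral set: all `Λ > 0` that have an eigenfunction. -/
def spectralSet (p : ℝ) : Set ℝ := {Λ | 0 < Λ ∧ ∃ x, IsEigenfunction p Λ x}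

/-- Basic periodic eigenvalues: the `Λ` in the spectral set with `Λ / k^p` not in the spectral set
for every integer `k ≥ 2`. -/
def IsBasicEigenvalue (p Λ : ℝ) : Prop :=
  Λ ∈ spectralSet p ∧ ∀ k : ℕ, 2 ≤ k → Λ / (k : ℝ) ^ p ∉ spectralSet p

/-- The energy `h = Λ ‖x‖^p / p + ‖y‖^q / q` at time `t`, with `y = φ_p(x')`, `q = p/(p-1)`. -/
noncomputable def energy (p Λ : ℝ) (x : ℝ → Plane) (t : ℝ) : ℝ :=
  Λ * ‖x t‖ ^ p / p + ‖phi p (deriv x t)‖ ^ (p / (p - 1)) / (p / (p - 1))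

/-- The angular momentum `μ = x₁ y₂ - x₂ y₁` at time `t`, with `y = φ_p(x')`. -/
noncomputable def angularMomentum (p : ℝ) (x : ℝ → Plane) (t : ℝ) : ℝ :=
  x t 0 * phi p (deriv x t) 1 - x t 1 * phi p (deriv x t) 0

/-- The scaling momentum `|μ| λ / h`, with `λ = Λ^(1/p)`, evaluated at time `t`. -/
noncomputable def scalingMomentum (p Λ : ℝ) (x : ℝ → Plane) (t : ℝ) : ℝ :=
  |angularMomentum p x t| * Λ ^ (1 / p) / energy p Λ x t

end Pool.Agent.Helper87.PLapDefs
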