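import Pool.Agent.Helper87.PLap.Pos2

set_option autoImplicit false

namespace Pool.Agent.Helper87.PLap

open Real Set Filter Topology MeasureTheory

/-- `D(A) = (ρ(A) - ρ(-A))/n`. -/
noncomputable def DD (p A : ℝ) : ℝ := (rh p A - rh p (-A)) / nn p

/-- The derivative of `D`. -/
noncomputable def DD1 (p A : ℝ) : ℝ :=
  (SS p (rh p A) * NN p A + SS p (rh p (-A)) * NN p (-A)) / (nn p * (1 - A ^ 2))

/-- The second derivative of `D`. -/
noncomputable def DD2 (p A : ℝ) : ℝ := (wp p A - wm p A) / (nn p * (1 - A ^ 2) ^ 2)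

/-- `M(A) = N(A) + N(-A)`. -/
noncomputable def MM (p A : ℝ) : ℝ := NN p A + NN p (-A)

section Basic

variable {p : ℝ} (hp : 2 < p)

include hp

omit hp in
theorem neg_mem_Icc {A : ℝ} (hA : A ∈ Icc (-1 : ℝ) 1) : -A ∈ Icc (-1 : ℝ) 1 :=
  ⟨by linarith [hA.2], by linarith [hA.1]⟩

theorem MM_pos {A : ℝ} (hA : A ∈ Icc (-1 : ℝ) 1) : 0 < MM p A :=
  add_pos (NN_pos hp hA) (NN_pos hp (neg_mem_Icc hA))

theorem MM_contOn : ContinuousOn (MM p) (Icc (-1) 1) := by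
  unfold MM
  apply (NN_contOn hp).add
  exact (NN_contOn hp).comp (by fun_prop) (fun A hA => neg_mem_Icc hA)

theorem NN_right : NN p 1 = 1 / p := by
  unfold NN GG
  rw [rh_right hp, if_neg (by linarith), AA_right hp]

theorem NN_left : NN p (-1) = 1 / qq p := by
  have hq := q_pos hp
  unfold NN GG
  rw [rh_left hp, if_neg (by linarith), AA_left hp]
  field_simp

theorem MM_one : MM p 1 = 1 := by
  have hq := q_pos hp
  unfold MM
  rw [NN_right hp, NN_left hp]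
  have := pq_eq hp
  have hp0 : 0 < p := by linarith
  field_simp
  linarith

theorem NN_zero : NN p 0 = 1 / √(nn p) := by
  unfold NN GG
  rw [rh_zero hp, if_pos rfl]

theorem MM_zero : MM p 0 = 2 / √(nn p) := by
  unfold MM
  rw [neg_zero, NN_zero hp]
  ring

omit hp in
theorem DD_zero : DD p 0 = 0 := by
  unfold DD
  rw [neg_zero, sub_self, zero_div]

theorem DD_hasDerivAt {A : ℝ} (hA : A ∈ Ioo (-1 : ℝ) 1) : HasDerivAt (DD p) (DD1 p A) A := by
  have hA' : -A ∈ Ioo (-1 : ℝ) 1 := ⟨by linarith [hA.2], by linarith [hA.1]⟩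
  have h1 := rh_hasDerivAt hp hA
  have h2 := HasDerivAt.comp (h₂ := rh p) A (rh_hasDerivAt hp hA') (hasDerivAt_neg A)
  have h3 := (h1.sub h2).div_const (nn p)
  refine HasDerivAt.congr_deriv (f := DD p) h3 ?_
  have h4 : 1 - A ^ 2 ≠ 0 := by
    have := hA.1
    have := hA.2
    nlinarith
  have h5 : 1 - (-A) ^ 2 ≠ 0 := by
    rwa [neg_sq]
  have hn := n_pos hp
  unfold DD1
  rw [neg_sq]
  field_simp
  ring

theorem MM_eq {A : ℝ} (hA : A ∈ Ioo (-1 : ℝ) 1) :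
    MM p A = (1 - A ^ 2) * DD1 p A + A * DD p A := by
  have hA1 : A ∈ Icc (-1 : ℝ) 1 := ⟨hA.1.le, hA.2.le⟩
  have h4 : 1 - A ^ 2 ≠ 0 := by
    have := hA.1
    have := hA.2
    nlinarith
  have hn := n_pos hp
  have h1 := rh_mul_NN hp hA1
  have h2 := rh_mul_NN hp (neg_mem_Icc hA1)
  unfold MM DD1 DD
  rw [S_eq, S_eq]
  field_simp
  linear_combination (-(dd p) + rh p A) * h1 + (-(dd p) + rh p (-A)) * h2

theorem DD1_contOn : ContinuousOn (DD1 p) (Ioo (-1) 1) := by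
  have hn := n_pos hp
  have h1 : ContinuousOn (rh p) (Ioo (-1) 1) := (rh_contOn hp).mono Ioo_subset_Icc_self
  have h2 : ContinuousOn (NN p) (Ioo (-1) 1) := (NN_contOn hp).mono Ioo_subset_Icc_self
  have h3 : MapsTo (fun A : ℝ => -A) (Ioo (-1) 1) (Ioo (-1) 1) := fun A hA =>
    ⟨by linarith [hA.2], by linarith [hA.1]⟩
  have h4 : ContinuousOn (fun A => rh p (-A)) (Ioo (-1) 1) := h1.comp (by fun_prop) h3
  have h5 : ContinuousOn (fun A => NN p (-A)) (Ioo (-1) 1) := h2.comp (by fun_prop) h3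
  have hS : Continuous (SS p) := by
    unfold SS
    fun_prop
  unfold DD1
  apply ContinuousOn.div
  · exact ((hS.comp_continuousOn h1).mul h2).add ((hS.comp_continuousOn h4).mul h5)
  · fun_prop
  · intro A hA
    have : 0 < 1 - A ^ 2 := by
      have := hA.1
      have := hA.2
      nlinarith
    positivity

theorem DD1_eq {A : ℝ} (hA : A ∈ Ioo (0 : ℝ) 1) : DD1 p A =
    (A * (SS p (rh p A) / rh p A) + A * (SS p (-sr p A) / sr p A)) / (nn p * (1 - A ^ 2)) := by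
  have hA1 : A ∈ Icc (-1 : ℝ) 1 := ⟨by linarith [hA.1], hA.2.le⟩
  have h1 := rh_mul_NN hp hA1
  have h2 := rh_mul_NN hp (neg_mem_Icc hA1)
  have hR := R_pos hp hA
  have hr := sr_pos hp hA
  have e1 : rh p (-A) = -sr p A := by
    unfold sr
    ring
  have e2 : NN p A = A / rh p A := by
    rw [eq_div_iff hR.ne']
    linarith
  have e3 : NN p (-A) = A / sr p A := by
    rw [eq_div_iff hr.ne']
    rw [e1] at h2
    linarith
  unfold DD1
  rw [e1, e2, e3]
  ring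

theorem DD1_hasDerivAt {A : ℝ} (hA : A ∈ Ioo (0 : ℝ) 1) : HasDerivAt (DD1 p) (DD2 p A) A := by
  have hR := R_pos hp hA
  have hr := sr_pos hp hA
  have hn := n_pos hp
  have h0 := one_sub_sq_pos hp hA
  have h1 := R_hasDerivAt hp hA
  have h2 := sr_hasDerivAt hp hA
  have e1 : HasDerivAt (fun A => SS p (rh p A)) ((dd p - 2 * rh p A) *
      (SS p (rh p A) * A / ((1 - A ^ 2) * rh p A))) A :=
    HasDerivAt.comp (h₂ := SS p) A (S_hasDerivAt hp (rh p A)) h1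
  have e2 : HasDerivAt (fun A => SS p (-sr p A)) ((dd p - 2 * (-sr p A)) *
      (-(SS p (-sr p A) * A / ((1 - A ^ 2) * sr p A)))) A :=
    HasDerivAt.comp (h₂ := SS p) A (S_hasDerivAt hp (-sr p A)) h2.neg
  have e3 : HasDerivAt (fun A => nn p * (1 - A ^ 2)) (nn p * (-(2 * A))) A := by
    have := ((hasDerivAt_pow 2 A).const_sub 1).const_mul (nn p)
    refine this.congr_deriv ?_
    simp
  have e4 := ((((hasDerivAt_id A).mul (e1.div h1 hR.ne')).add
    ((hasDerivAt_id A).mul (e2.div h2 hr.ne'))).div e3 (by positivity))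
  have e5 : HasDerivAt (DD1 p) _ A := e4.congr_of_eventuallyEq (by
    filter_upwards [Ioo_mem_nhds hA.1 hA.2] with y hy
    exact DD1_eq hp hy)
  refine e5.congr_deriv ?_
  simp only [Pi.mul_apply, Pi.div_apply, id, Pi.add_apply]
  unfold DD2 wp wm
  have hS : SS p (-sr p A) = nn p + dd p * (-sr p A) - (-sr p A) ^ 2 := S_eq _
  have hS' : SS p (rh p A) = nn p + dd p * (rh p A) - (rh p A) ^ 2 := S_eq _
  rw [hS, hS']
  field_simp
  ring

theorem DD2_pos {A : ℝ} (hA : A ∈ Ioo (0 : ℝ) 1) : 0 < DD2 p A := by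
  have h1 := w_pos hp A hA
  have hn := n_pos hp
  have h0 := one_sub_sq_pos hp hA
  unfold DD2
  positivity

theorem DD2_le {A : ℝ} (hA : A ∈ Ioo (0 : ℝ) 1) :
    DD2 p A ≤ (dd p / nn p * (nn p + dd p * p)) / (nn p * (1 - A ^ 2) ^ 2) := by
  have hn := n_pos hp
  have hd := d_pos hp
  have h0 := one_sub_sq_pos hp hA
  have hR := R_pos hp hA
  have hR' := R_lt hp hA
  unfold DD2
  apply div_le_div_of_nonneg_right _ (by positivity)
  have h1 := wp_le hp hA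
  have h2 := wm_nonneg hp hA
  have h3 : SS p (rh p A) ≤ nn p + dd p * p := by
    rw [S_eq]
    nlinarith
  have h4 : dd p / nn p * SS p (rh p A) ≤ dd p / nn p * (nn p + dd p * p) :=
    mul_le_mul_of_nonneg_left h3 (by positivity)
  linarith

theorem DD2_bound {b : ℝ} (hb : b ∈ Ioo (0 : ℝ) 1) :
    ∃ C, ∀ x ∈ Ioc 0 b, |DD2 p x| ≤ C := by
  refine ⟨(dd p / nn p * (nn p + dd p * p)) / (nn p * (1 - b ^ 2) ^ 2), fun x hx => ?_⟩
  have hx' : x ∈ Ioo (0 : ℝ) 1 := ⟨hx.1, lt_of_le_of_lt hx.2 hb.2⟩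
  have hn := n_pos hp
  have hd := d_pos hp
  have h0 := one_sub_sq_pos hp hx'
  have h1 := one_sub_sq_pos hp hb
  rw [abs_of_pos (DD2_pos hp hx')]
  refine (DD2_le hp hx').trans ?_
  apply div_le_div_of_nonneg_left (by positivity) (by positivity)
  apply mul_le_mul_of_nonneg_left _ hn.le
  have : 1 - b ^ 2 ≤ 1 - x ^ 2 := by nlinarith [hx.1, hx.2]
  exact pow_le_pow_left₀ h1.le this 2

theorem DD2_contOn : ContinuousOn (DD2 p) (Ioo 0 1) := by
  intro A hA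
  apply ContinuousAt.continuousWithinAt
  have hn := n_pos hp
  have h0 := one_sub_sq_pos hp hA
  unfold DD2
  apply ContinuousAt.div
  · exact ((wp_hasDerivAt hp hA).sub (wm_hasDerivAt hp hA)).continuousAt
  · fun_prop
  · positivity

end Basic

/-- Differentiation under the integral sign. -/
theorem hasDerivAt_int {G G' : ℝ → ℝ} (hG : ∀ x ∈ Ioo (0 : ℝ) 1, HasDerivAt G (G' x) x)
    (hGc : ContinuousOn G (Ico 0 1)) (hG'c : ContinuousOn G' (Ioo 0 1))
    (hb : ∀ b ∈ Ioo (0 : ℝ) 1, ∃ C, ∀ x ∈ Ioc 0 b, |G' x| ≤ C) {k : ℝ} (hk : k ∈ Ioo (0 : ℝ) 1) :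
    IntervalIntegrable (fun ψ => G' (k * sin ψ) * sin ψ) volume 0 (π / 2) ∧
    HasDerivAt (fun k => ∫ ψ in (0 : ℝ)..(π / 2), G (k * sin ψ))
      (∫ ψ in (0 : ℝ)..(π / 2), G' (k * sin ψ) * sin ψ) k := by
  obtain ⟨b, hb1, hb2⟩ := exists_between hk.2
  have hb0 : 0 < b := hk.1.trans hb1
  obtain ⟨C, hC⟩ := hb b ⟨hb0, hb2⟩
  have hpi : (0 : ℝ) ≤ π / 2 := by positivity
  have hs : Ioo 0 b ∈ 𝓝 k := Ioo_mem_nhds hk.1 hb1
  have hsin : ∀ ψ ∈ Icc 0 (π / 2), 0 ≤ sin ψ ∧ sin ψ ≤ 1 := fun ψ hψ =>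
    ⟨sin_nonneg_of_nonneg_of_le_pi hψ.1 (by linarith [hψ.2, pi_pos]), sin_le_one ψ⟩
  have hcont : ∀ κ ∈ Ioo 0 b, ContinuousOn (fun ψ => G (κ * sin ψ)) (Icc 0 (π / 2)) := by
    intro κ hκ
    apply hGc.comp (by fun_prop)
    intro ψ hψ
    have := hsin ψ hψ
    exact ⟨mul_nonneg hκ.1.le this.1, by nlinarith [hκ.1, hκ.2]⟩
  have h := intervalIntegral.hasDerivAt_integral_of_dominated_loc_of_deriv_le
    (F := fun κ ψ => G (κ * sin ψ)) (F' := fun κ ψ => G' (κ * sin ψ) * sin ψ)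
    (x₀ := k) (s := Ioo 0 b) (bound := fun _ => C) (a := 0) (b := π / 2)
    (μ := volume) hs
    (by
      filter_upwards [hs] with κ hκ
      rw [uIoc_of_le hpi]
      exact ((hcont κ hκ).mono Ioc_subset_Icc_self).aestronglyMeasurable measurableSet_Ioc)
    (by
      apply ContinuousOn.intervalIntegrable
      rw [uIcc_of_le hpi]
      exact hcont k ⟨hk.1, hb1⟩)
    (by
      rw [uIoc_of_le hpi]
      apply ContinuousOn.aestronglyMeasurable _ measurableSet_Ioc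
      apply ContinuousOn.mul _ (by fun_prop)
      apply hG'c.comp (by fun_prop)
      intro ψ hψ
      have h1 := hsin ψ ⟨hψ.1.le, hψ.2⟩
      have h2 : 0 < sin ψ := sin_pos_of_pos_of_lt_pi hψ.1 (by linarith [hψ.2, pi_pos])
      exact ⟨mul_pos hk.1 h2, by nlinarith [hk.1, hk.2]⟩)
    (by
      filter_upwards with ψ hψ κ hκ
      rw [uIoc_of_le hpi] at hψ
      have h1 := hsin ψ ⟨hψ.1.le, hψ.2⟩
      have h2 : 0 < sin ψ := sin_pos_of_pos_of_lt_pi hψ.1 (by linarith [hψ.2, pi_pos])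
      have h3 : |G' (κ * sin ψ)| ≤ C := hC _ ⟨mul_pos hκ.1 h2, by nlinarith [hκ.1, hκ.2]⟩
      rw [Real.norm_eq_abs, abs_mul, abs_of_pos h2]
      have h4 : 0 ≤ |G' (κ * sin ψ)| := abs_nonneg _
      nlinarith)
    (by simp)
    (by
      filter_upwards with ψ hψ κ hκ
      rw [uIoc_of_le hpi] at hψ
      have h1 := hsin ψ ⟨hψ.1.le, hψ.2⟩
      have h2 : 0 < sin ψ := sin_pos_of_pos_of_lt_pi hψ.1 (by linarith [hψ.2, pi_pos])
      have h3 : HasDerivAt (fun κ => κ * sin ψ) (sin ψ) κ := by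
        simpa using (hasDerivAt_id κ).mul_const (sin ψ)
      have h4 : HasDerivAt G (G' (κ * sin ψ)) (κ * sin ψ) :=
        hG _ ⟨mul_pos hκ.1 h2, by nlinarith [hκ.1, hκ.2]⟩
      exact HasDerivAt.comp (h₂ := G) κ h4 h3)
  exact h

end Pool.Agent.Helper87.PLap
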