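import Pool.Agent.Helper87.PLap.Sol

set_option autoImplicit false

namespace Pool.Agent.Helper87.PLap

open Real Set Filter Topology MeasureTheory

/-- The inverse of the time function. -/
theorem exists_psi {p : ℝ} (hp : 2 < p) {k : ℝ} (hk : k ∈ Ioo (0 : ℝ) 1) (ν : ℕ) :
    ∃ ψ : ℝ → ℝ, (∀ t, HasDerivAt ψ (NN p (k * sin (ψ t)))⁻¹ t) ∧
      ∀ t, ψ (t + ν * TT p k) = ψ t + ν * (2 * π) := by
  have hk' : k ∈ Icc (0 : ℝ) 1 := ⟨hk.1.le, hk.2.le⟩
  have hc := NNk_cont hp hk'
  set τ : ℝ → ℝ := fun ψ => ∫ u in (0 : ℝ)..ψ, NN p (k * sin u) with hτ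
  have hτd : ∀ ψ, HasDerivAt τ (NN p (k * sin ψ)) ψ := fun ψ =>
    intervalIntegral.integral_hasDerivAt_right (hc.intervalIntegrable _ _)
      (hc.stronglyMeasurableAtFilter _ _) hc.continuousAt
  have hpos : ∀ u, 0 < NN p (k * sin u) := fun u => NN_pos hp (ksin_mem_Icc hk' u)
  obtain ⟨A0, hA0, hmin⟩ := isCompact_Icc.exists_isMinOn
    (nonempty_Icc.mpr (by norm_num : (-1 : ℝ) ≤ 1)) (NN_contOn hp)
  have hc0 : 0 < NN p A0 := NN_pos hp hA0
  have hge : ∀ u, NN p A0 ≤ NN p (k * sin u) := fun u => hmin (ksin_mem_Icc hk' u)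
  have hmono : StrictMono τ := by
    apply strictMono_of_deriv_pos
    intro t
    rw [(hτd t).deriv]
    exact hpos t
  have hτc : Continuous τ := continuous_iff_continuousAt.mpr fun t => (hτd t).continuousAt
  have hτ0 : τ 0 = 0 := by simp [hτ]
  have hlin : Monotone (fun x => τ x - NN p A0 * x) := by
    apply monotone_of_deriv_nonneg
    · intro x
      exact ((hτd x).sub ((hasDerivAt_id x).const_mul _)).differentiableAt
    · intro x
      have := ((hτd x).sub ((hasDerivAt_id x).const_mul (NN p A0)))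
      have h2 := this.deriv
      have h3 : (τ - fun y => NN p A0 * id y) = (fun x => τ x - NN p A0 * x) := by
        funext y
        simp
      rw [h3] at h2
      rw [h2]
      have := hge x
      linarith
  have htop : Tendsto τ atTop atTop := by
    have h1 : Tendsto (fun x : ℝ => NN p A0 * x) atTop atTop :=
      tendsto_id.const_mul_atTop hc0
    apply tendsto_atTop_mono' atTop _ h1
    filter_upwards [eventually_ge_atTop 0] with x hx
    have := hlin hx
    simp only [hτ0, mul_zero, sub_zero] at this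
    linarith
  have hbot : Tendsto τ atBot atBot := by
    have h1 : Tendsto (fun x : ℝ => NN p A0 * x) atBot atBot :=
      tendsto_id.const_mul_atBot hc0
    apply tendsto_atBot_mono' atBot _ h1
    filter_upwards [eventually_le_atBot 0] with x hx
    have := hlin hx
    simp only [hτ0, mul_zero, sub_zero] at this
    linarith
  have hsurj : Function.Surjective τ := hτc.surjective htop hbot
  let e : ℝ ≃o ℝ := StrictMono.orderIsoOfSurjective τ hmono hsurj
  have he : ∀ x, e x = τ x := fun x => rfl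
  have hes : ∀ t, τ (e.symm t) = t := fun t => by
    rw [← he]
    exact e.apply_symm_apply t
  refine ⟨e.symm, ?_, ?_⟩
  · intro t
    apply HasDerivAt.of_local_left_inverse (e.symm.continuous.continuousAt) (hτd _) (hpos _).ne'
    exact Eventually.of_forall hes
  · intro t
    apply hmono.injective
    rw [hes]
    have h1 : τ (e.symm t + ν * (2 * π)) = τ (e.symm t) + ∫ u in (e.symm t)..(e.symm t +
        (ν : ℤ) * (2 * π)), NN p (k * sin u) := by
      simp only [hτ]
      rw [intervalIntegral.integral_add_adjacent_intervals (hc.intervalIntegrable _ _)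
        (hc.intervalIntegrable _ _)]
      push_cast
      rfl
    rw [h1, int_TT hp hk', hes]
    push_cast
    rfl

theorem exist_sol {p : ℝ} (hp : 2 < p) {k : ℝ} (hk : k ∈ Ioo (0 : ℝ) 1) {ν : ℕ} {α : ℤ}
    (hα : ν * TH p k = 2 * π * α) :
    ∃ X Y, Sol p X Y ∧ (∀ t, X (t + ν * TT p k) = X t) ∧ (∀ t, Y (t + ν * TT p k) = Y t) ∧
      ∀ t, (ZZ X Y t).im = √(1 - k ^ 2) := by
  obtain ⟨ψ, hψ, hψL⟩ := exists_psi hp hk ν
  have hq := q_pos hp
  have hp0 : 0 < p := by linarith
  have hn := n_pos hp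
  have hk' : k ∈ Icc (0 : ℝ) 1 := ⟨hk.1.le, hk.2.le⟩
  have h0 := one_sub_sq_pos hp hk
  set s := √(1 - k ^ 2) with hs
  have hspos : 0 < s := Real.sqrt_pos.mpr h0
  have hs2 : s ^ 2 = 1 - k ^ 2 := Real.sq_sqrt h0.le
  have hd : ∀ ψ : ℝ, 0 < 1 - (k * sin ψ) ^ 2 := by
    intro ψ
    have h1 := sin_sq_le_one ψ
    rw [mul_pow]
    nlinarith [hk.1, hk.2, sq_nonneg k]
  have hgc : Continuous (fun u => s * (NN p (k * sin u) / (1 - (k * sin u) ^ 2))) := by
    apply continuous_const.mul
    apply (NNk_cont hp hk').div (by fun_prop)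
    intro ψ
    exact (hd ψ).ne'
  set Q : ℝ → ℝ := fun x => ∫ u in (0 : ℝ)..x, s * (NN p (k * sin u) / (1 - (k * sin u) ^ 2))
    with hQ
  have hQd : ∀ x, HasDerivAt Q (s * (NN p (k * sin x) / (1 - (k * sin x) ^ 2))) x := fun x =>
    intervalIntegral.integral_hasDerivAt_right (hgc.intervalIntegrable _ _)
      (hgc.stronglyMeasurableAtFilter _ _) hgc.continuousAt
  have hQL : ∀ x, Q (x + ν * (2 * π)) = Q x + 2 * π * α := by
    intro x
    have h1 : Q (x + ν * (2 * π)) = Q x + ∫ u in x..(x + (ν : ℤ) * (2 * π)),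
        s * (NN p (k * sin u) / (1 - (k * sin u) ^ 2)) := by
      simp only [hQ]
      rw [intervalIntegral.integral_add_adjacent_intervals (hgc.intervalIntegrable _ _)
        (hgc.intervalIntegrable _ _)]
      push_cast
      rfl
    rw [h1, intervalIntegral.integral_const_mul, hs, int_TH hp ⟨hk.1.le, hk.2⟩, ← hα]
    push_cast
    rfl
  -- the functions
  set A : ℝ → ℝ := fun t => k * sin (ψ t) with hA
  set w : ℝ → ℝ := fun t => k * cos (ψ t) with hw
  set ρ : ℝ → ℝ := fun t => rh p (A t) with hρ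
  have hAmem : ∀ t, A t ∈ Ioo (-1 : ℝ) 1 := by
    intro t
    have := hd (ψ t)
    constructor <;> nlinarith
  have hAmem' : ∀ t, A t ∈ Icc (-1 : ℝ) 1 := fun t => ⟨(hAmem t).1.le, (hAmem t).2.le⟩
  have hρm : ∀ t, ρ t ∈ Ioo (-qq p) p := fun t => rh_Ioo hp (hAmem t)
  have hV : ∀ t, VV p (ρ t) = w t ^ 2 + s ^ 2 := by
    intro t
    rw [hρ, VV_rh hp (hAmem' t), hs2]
    simp only [hA, hw]
    have := sin_sq_add_cos_sq (ψ t)
    have h1 : sin (ψ t) ^ 2 = 1 - cos (ψ t) ^ 2 := by linarith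
    rw [mul_pow, mul_pow, h1]
    ring
  have hVpos : ∀ t, 0 < w t ^ 2 + s ^ 2 := fun t => by positivity
  have hNpos : ∀ t, 0 < NN p (A t) := fun t => NN_pos hp (hAmem' t)
  have hρN : ∀ t, ρ t * NN p (A t) = A t := fun t => rh_mul_NN hp (hAmem' t)
  have hAd : ∀ t, HasDerivAt A (w t / NN p (A t)) t := by
    intro t
    have := ((hψ t).sin).const_mul k
    refine HasDerivAt.congr_deriv (f := A) this ?_
    simp only [hA, hw]
    ring
  have hwd : ∀ t, HasDerivAt w (-ρ t) t := by
    intro t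
    have := ((hψ t).cos).const_mul k
    refine HasDerivAt.congr_deriv (f := w) this ?_
    have h1 : ρ t = A t / NN p (A t) := by
      rw [eq_div_iff (hNpos t).ne']
      exact hρN t
    rw [h1]
    simp only [hA]
    ring
  have hρd : ∀ t, HasDerivAt ρ (SS p (ρ t) * w t / (w t ^ 2 + s ^ 2)) t := by
    intro t
    have h1 := HasDerivAt.comp (h₂ := rh p) t (rh_hasDerivAt hp (hAmem t)) (hAd t)
    refine HasDerivAt.congr_deriv (f := ρ) h1 ?_
    rw [← hV t]
    have h2 : VV p (ρ t) = 1 - A t ^ 2 := VV_rh hp (hAmem' t)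
    rw [← h2]
    have h3 := (hNpos t).ne'
    have h4 : VV p (ρ t) ≠ 0 := by
      rw [hV]
      exact (hVpos t).ne'
    change SS p (ρ t) * NN p (A t) / VV p (ρ t) * (w t / NN p (A t)) = _
    field_simp
  set a : ℝ → ℝ := fun t => 1 + ρ t / qq p with ha
  set b : ℝ → ℝ := fun t => 1 - ρ t / p with hb
  have hapos : ∀ t, 0 < a t := fun t => a_pos hp (hρm t).1
  have hbpos : ∀ t, 0 < b t := fun t => b_pos hp (hρm t).2
  have hS : ∀ t, SS p (ρ t) = nn p * (a t * b t) := by
    intro t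
    simp only [ha, hb]
    unfold SS nn
    field_simp
  set r : ℝ → ℝ := fun t => (a t) ^ (1 / p) with hr
  have hrpos : ∀ t, 0 < r t := fun t => rpow_pos_of_pos (hapos t) _
  have hrd : ∀ t, HasDerivAt r (b t * w t / (w t ^ 2 + s ^ 2) * r t) t := by
    intro t
    have h1 : HasDerivAt a (SS p (ρ t) * w t / (w t ^ 2 + s ^ 2) / qq p) t :=
      ((hρd t).div_const (qq p)).const_add 1
    have h2 := h1.rpow_const (p := 1 / p) (Or.inl (hapos t).ne')
    refine HasDerivAt.congr_deriv (f := r) h2 ?_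
    rw [rpow_sub_one (hapos t).ne', hS t]
    have h3 := (hapos t).ne'
    have h4 := (hVpos t).ne'
    have hn' : nn p = p * qq p := rfl
    have h5 : (a t) ^ (1 / p) = r t := rfl
    rw [hn', h5]
    generalize r t = rt
    field_simp
  have hrp : ∀ t, (r t) ^ p = a t := by
    intro t
    simp only [hr]
    rw [← rpow_mul (hapos t).le]
    have : 1 / p * p = 1 := by field_simp
    rw [this, rpow_one]
  set θ : ℝ → ℝ := fun t => Q (ψ t) + (1 / p) * arctan (w t / s) with hθ
  have hθd : ∀ t, HasDerivAt θ (s * b t / (w t ^ 2 + s ^ 2)) t := by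
    intro t
    have h1 := HasDerivAt.comp (h₂ := Q) t (hQd (ψ t)) (hψ t)
    have h2 := (((hwd t).div_const s).arctan).const_mul (1 / p)
    have h3 := h1.add h2
    refine HasDerivAt.congr_deriv (f := θ) h3 ?_
    have h4 : 1 - (k * sin (ψ t)) ^ 2 = w t ^ 2 + s ^ 2 := by
      rw [← hV t]
      exact (VV_rh hp (hAmem' t)).symm
    rw [h4]
    have h5 := (hNpos t).ne'
    have h6 := (hVpos t).ne'
    simp only [hb]
    change s * (NN p (A t) / (w t ^ 2 + s ^ 2)) * (NN p (A t))⁻¹ + _ = _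
    have h7 : 1 + (w t / s) ^ 2 = (w t ^ 2 + s ^ 2) / s ^ 2 := by
      field_simp
      ring
    rw [h7]
    field_simp
    ring
  set X : ℝ → ℂ := fun t => (r t : ℂ) * Complex.exp ((θ t : ℂ) * Complex.I) with hX
  set Y : ℝ → ℂ := fun t => ((w t : ℂ) + (s : ℂ) * Complex.I) / (r t : ℂ) *
    Complex.exp ((θ t : ℂ) * Complex.I) with hY
  have hrc : ∀ t, (r t : ℂ) ≠ 0 := fun t => by exact_mod_cast (hrpos t).ne'
  have hE : ∀ t, ‖Complex.exp ((θ t : ℂ) * Complex.I)‖ = 1 := fun t =>
    Complex.norm_exp_ofReal_mul_I (θ t)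
  have hXn : ∀ t, ‖X t‖ = r t := by
    intro t
    simp only [hX]
    rw [norm_mul, hE, mul_one, Complex.norm_real, Real.norm_eq_abs, abs_of_pos (hrpos t)]
  have hYn2 : ∀ t, ‖Y t‖ ^ 2 = (w t ^ 2 + s ^ 2) / (r t) ^ 2 := by
    intro t
    simp only [hY]
    rw [norm_mul, hE, mul_one, norm_div, div_pow, Complex.norm_real, Real.norm_eq_abs, sq_abs,
      Complex.sq_norm, Complex.normSq_apply]
    simp
    ring
  have hYpos : ∀ t, 0 < ‖Y t‖ := by
    intro t
    have h1 : 0 < ‖Y t‖ ^ 2 := by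
      rw [hYn2]
      have := hVpos t
      have := hrpos t
      positivity
    rcases (norm_nonneg (Y t)).eq_or_lt with h2 | h2
    · rw [← h2] at h1
      norm_num at h1
    · exact h2
  have hYq : ∀ t, ‖Y t‖ ^ (qq p) = b t := by
    intro t
    have h1 : ‖Y t‖ ^ 2 = ((b t) ^ (1 / qq p)) ^ 2 := by
      rw [hYn2, ← hV t]
      unfold VV
      have e1 : (2 : ℝ) / p = 1 / p * 2 := by ring
      have e2 : (2 : ℝ) / qq p = 1 / qq p * 2 := by ring
      have h2 : (1 + ρ t / qq p) ^ (2 / p) = (r t) ^ 2 := by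
        rw [e1, rpow_mul (hapos t).le, rpow_ofNat]
      have h3 : (1 - ρ t / p) ^ (2 / qq p) = ((b t) ^ (1 / qq p)) ^ 2 := by
        rw [e2, rpow_mul (hbpos t).le, rpow_ofNat]
      rw [h2, h3]
      have := (hrpos t).ne'
      field_simp
    have h4 : ‖Y t‖ = (b t) ^ (1 / qq p) := by
      have := (hbpos t)
      exact (pow_left_inj₀ (norm_nonneg _) (by positivity) (by norm_num)).mp h1
    rw [h4, ← rpow_mul (hbpos t).le]
    have : 1 / qq p * qq p = 1 := by field_simp
    rw [this, rpow_one]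
  have hXd : ∀ t, HasDerivAt X ((((b t / (w t ^ 2 + s ^ 2) : ℝ)) : ℂ) *
      ((w t : ℂ) + (s : ℂ) * Complex.I) * X t) t := by
    intro t
    have h1 := ((hrd t).ofReal_comp).mul (((hθd t).ofReal_comp).mul_const Complex.I).cexp
    refine HasDerivAt.congr_deriv (f := X) h1 ?_
    simp only [hX]
    push_cast
    ring
  have hYX : ∀ t, Y t = ((w t : ℂ) + (s : ℂ) * Complex.I) / (r t : ℂ) ^ 2 * X t := by
    intro t
    simp only [hX, hY]
    have := hrc t
    field_simp
  have hYd : ∀ t, HasDerivAt Y (-(((a t / (r t) ^ 2 : ℝ) : ℂ) * X t)) t := by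
    intro t
    have h1 : HasDerivAt (fun t => ((w t : ℂ) + (s : ℂ) * Complex.I) / (r t : ℂ) ^ 2 * X t)
        _ t := ((((hwd t).ofReal_comp).add_const ((s : ℂ) * Complex.I)).div
        (((hrd t).ofReal_comp).pow 2) (pow_ne_zero 2 (hrc t))).mul (hXd t)
    have h2 : Y = fun t => ((w t : ℂ) + (s : ℂ) * Complex.I) / (r t : ℂ) ^ 2 * X t := by
      funext t
      exact hYX t
    rw [h2]
    refine h1.congr_deriv ?_
    have h3 : a t = ρ t + b t := by
      simp only [ha, hb]
      have := pq_eq hp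
      field_simp
      linear_combination (ρ t) * (-this)
    rw [h3]
    have h4 := hrc t
    have h5 : ((w t : ℂ) ^ 2 + (s : ℂ) ^ 2) ≠ 0 := by
      have := (hVpos t).ne'
      exact_mod_cast this
    simp only [Pi.pow_apply, Pi.div_apply]
    push_cast
    generalize (X t) = Xt
    field_simp
    ring_nf
    have hI2 : Complex.I ^ 2 = -1 := Complex.I_sq
    simp only [hI2]
    ring
  refine ⟨X, Y, ⟨?_, ?_, ?_⟩, ?_, ?_, ?_⟩
  · intro t
    refine (hXd t).congr_deriv ?_
    have h1 : ‖Y t‖ ^ (qq p - 2) = b t * (r t) ^ 2 / (w t ^ 2 + s ^ 2) := by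
      have h2 := norm_pow_aux hq (Y t)
      rw [hYq, hYn2] at h2
      have h3 := (hVpos t).ne'
      have h4 := (hrpos t).ne'
      field_simp at h2 ⊢
      exact h2
    rw [h1, Complex.real_smul, hYX]
    have h4 := hrc t
    have h5 : ((w t : ℂ) ^ 2 + (s : ℂ) ^ 2) ≠ 0 := by
      have := (hVpos t).ne'
      exact_mod_cast this
    push_cast
    field_simp
  · intro t
    refine (hYd t).congr_deriv ?_
    have h1 : ‖X t‖ ^ (p - 2) = a t / (r t) ^ 2 := by
      have h2 := norm_pow_aux hp0 (X t)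
      rw [hXn, hrp] at h2
      rw [hXn, eq_div_iff (pow_pos (hrpos t) 2).ne']
      exact h2
    rw [h1, Complex.real_smul]
  · intro t
    rw [hXn, hrp, hYq]
    simp only [ha, hb]
    have := pq_eq hp
    field_simp
    linear_combination -this
  · intro t
    have h1 : ψ (t + ν * TT p k) = ψ t + ν * (2 * π) := hψL t
    have hsin : sin (ψ t + ν * (2 * π)) = sin (ψ t) := sin_add_nat_mul_two_pi _ _
    have hcos : cos (ψ t + ν * (2 * π)) = cos (ψ t) := cos_add_nat_mul_two_pi _ _
    have hA2 : A (t + ν * TT p k) = A t := by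
      simp only [hA, h1, hsin]
    have hw2 : w (t + ν * TT p k) = w t := by
      simp only [hw, h1, hcos]
    have hr2 : r (t + ν * TT p k) = r t := by
      simp only [hr, ha, hρ, hA2]
    have hθ2 : θ (t + ν * TT p k) = θ t + 2 * π * α := by
      simp only [hθ, hw2]
      rw [h1, hQL]
      ring
    simp only [hX, hr2, hθ2]
    congr 1
    rw [Complex.exp_eq_exp_iff_exists_int]
    refine ⟨α, ?_⟩
    push_cast
    ring
  · intro t
    have h1 : ψ (t + ν * TT p k) = ψ t + ν * (2 * π) := hψL t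
    have hsin : sin (ψ t + ν * (2 * π)) = sin (ψ t) := sin_add_nat_mul_two_pi _ _
    have hcos : cos (ψ t + ν * (2 * π)) = cos (ψ t) := cos_add_nat_mul_two_pi _ _
    have hA2 : A (t + ν * TT p k) = A t := by
      simp only [hA, h1, hsin]
    have hw2 : w (t + ν * TT p k) = w t := by
      simp only [hw, h1, hcos]
    have hr2 : r (t + ν * TT p k) = r t := by
      simp only [hr, ha, hρ, hA2]
    have hθ2 : θ (t + ν * TT p k) = θ t + 2 * π * α := by
      simp only [hθ, hw2]
      rw [h1, hQL]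
      ring
    simp only [hY, hr2, hθ2, hw2]
    congr 1
    rw [Complex.exp_eq_exp_iff_exists_int]
    refine ⟨α, ?_⟩
    push_cast
    ring
  · intro t
    unfold ZZ
    rw [hYX]
    have h1 : star (X t) * X t = (r t : ℂ) ^ 2 := by
      have := Complex.conj_mul' (X t)
      rw [hXn] at this
      exact this
    have h2 : star (X t) * (((w t : ℂ) + (s : ℂ) * Complex.I) / (r t : ℂ) ^ 2 * X t) =
        (w t : ℂ) + (s : ℂ) * Complex.I := by
      have h3 := hrc t
      calc star (X t) * (((w t : ℂ) + (s : ℂ) * Complex.I) / (r t : ℂ) ^ 2 * X t) =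
          ((w t : ℂ) + (s : ℂ) * Complex.I) / (r t : ℂ) ^ 2 * (star (X t) * X t) := by ring
        _ = _ := by
          rw [h1]
          field_simp
    rw [h2]
    simp

end Pool.Agent.Helper87.PLap
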