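import Mathlib

set_option autoImplicit false

namespace Pool.Agent.Helper87.PLap

open Real Set

/-- The conjugate exponent. -/
noncomputable def qq (p : ℝ) : ℝ := p / (p - 1)

/-- `n = p q = p + q`. -/
noncomputable def nn (p : ℝ) : ℝ := p * qq p

/-- `d = p - q`. -/
noncomputable def dd (p : ℝ) : ℝ := p - qq p

/-- `S(ρ) = (p - ρ)(q + ρ)`. -/
noncomputable def SS (p x : ℝ) : ℝ := (p - x) * (qq p + x)

/-- `V(ρ) = (1 + ρ/q)^{2/p} (1 - ρ/p)^{2/q}`. -/
noncomputable def VV (p x : ℝ) : ℝ := (1 + x / qq p) ^ (2 / p) * (1 - x / p) ^ (2 / qq p)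

theorem le_of_hasDerivAt {f f' : ℝ → ℝ} {a b : ℝ} (hab : a ≤ b) (hc : ContinuousOn f (Icc a b))
    (hd : ∀ x ∈ Ioo a b, HasDerivAt f (f' x) x) (h0 : ∀ x ∈ Ioo a b, 0 ≤ f' x) : f a ≤ f b := by
  have : MonotoneOn f (Icc a b) := by
    apply monotoneOn_of_deriv_nonneg (convex_Icc a b) hc
    · intro x hx
      rw [interior_Icc] at hx
      exact (hd x hx).differentiableAt.differentiableWithinAt
    · intro x hx
      rw [interior_Icc] at hx
      rw [(hd x hx).deriv]
      exact h0 x hx
  exact this (left_mem_Icc.mpr hab) (right_mem_Icc.mpr hab) hab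

theorem lt_of_hasDerivAt {f f' : ℝ → ℝ} {a b : ℝ} (hab : a < b) (hc : ContinuousOn f (Icc a b))
    (hd : ∀ x ∈ Ioo a b, HasDerivAt f (f' x) x) (h0 : ∀ x ∈ Ioo a b, 0 < f' x) : f a < f b := by
  have : StrictMonoOn f (Icc a b) := by
    apply strictMonoOn_of_deriv_pos (convex_Icc a b) hc
    intro x hx
    rw [interior_Icc] at hx
    rw [(hd x hx).deriv]
    exact h0 x hx
  exact this (left_mem_Icc.mpr hab.le) (right_mem_Icc.mpr hab.le) hab

section Basic

variable {p : ℝ} (hp : 2 < p)

include hp

theorem q_pos : 0 < qq p := by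
  unfold qq
  have : 0 < p - 1 := by linarith
  positivity

theorem one_lt_q : 1 < qq p := by
  unfold qq
  rw [lt_div_iff₀ (by linarith)]
  linarith

theorem q_lt_two : qq p < 2 := by
  unfold qq
  rw [div_lt_iff₀ (by linarith)]
  linarith

theorem n_eq : nn p = p + qq p := by
  unfold nn qq
  have : p - 1 ≠ 0 := by
    intro h
    linarith
  field_simp
  ring

theorem pq_eq : p * qq p = p + qq p := n_eq hp

theorem q_lt_p : qq p < p := lt_trans (q_lt_two hp) hp

theorem d_pos : 0 < dd p := by
  unfold dd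
  linarith [q_lt_p hp]

theorem n_pos : 0 < nn p := by
  rw [n_eq hp]
  linarith [q_pos hp]

omit hp in
theorem S_eq (x : ℝ) : SS p x = nn p + dd p * x - x ^ 2 := by
  unfold SS nn dd
  ring

theorem four_lt_n : 4 < nn p := by
  have h1 : nn p * (p - 1) = p ^ 2 := by
    unfold nn qq
    have : p - 1 ≠ 0 := by
      intro h
      linarith
    field_simp
  have h2 : 0 < p - 1 := by linarith
  nlinarith [sq_nonneg (p - 2), mul_pos h2 h2]

theorem q_sq_lt_n : qq p ^ 2 < nn p := by
  unfold nn
  nlinarith [q_lt_p hp, q_pos hp]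

omit hp in
theorem S_pos {x : ℝ} (h1 : -qq p < x) (h2 : x < p) : 0 < SS p x := by
  unfold SS
  have : 0 < p - x := by linarith
  have : 0 < qq p + x := by linarith
  positivity

omit hp in
theorem V_zero : VV p 0 = 1 := by
  simp [VV]

theorem V_left : VV p (-qq p) = 0 := by
  unfold VV
  have h := q_pos hp
  have : 1 + -qq p / qq p = 0 := by
    field_simp
    ring
  rw [this, Real.zero_rpow, zero_mul]
  have : 0 < 2 / p := by positivity
  exact this.ne'

theorem V_right : VV p p = 0 := by
  unfold VV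
  have h := q_pos hp
  have : 1 - p / p = 0 := by
    rw [div_self (by linarith)]
    ring
  rw [this, Real.zero_rpow, mul_zero]
  have : 0 < 2 / qq p := by positivity
  exact this.ne'

theorem a_pos {x : ℝ} (h1 : -qq p < x) : 0 < 1 + x / qq p := by
  have h := q_pos hp
  rw [← div_self h.ne', ← add_div]
  apply div_pos _ h
  linarith

theorem b_pos {x : ℝ} (h2 : x < p) : 0 < 1 - x / p := by
  have h : 0 < p := by linarith
  rw [← div_self h.ne', ← sub_div]
  apply div_pos _ h
  linarith

theorem a_nonneg {x : ℝ} (h1 : -qq p ≤ x) : 0 ≤ 1 + x / qq p := by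
  have h := q_pos hp
  rw [← div_self h.ne', ← add_div]
  apply div_nonneg _ h.le
  linarith

theorem b_nonneg {x : ℝ} (h2 : x ≤ p) : 0 ≤ 1 - x / p := by
  have h : 0 < p := by linarith
  rw [← div_self h.ne', ← sub_div]
  apply div_nonneg _ h.le
  linarith

theorem V_pos {x : ℝ} (h1 : -qq p < x) (h2 : x < p) : 0 < VV p x := by
  unfold VV
  have := a_pos hp h1
  have := b_pos hp h2
  positivity

theorem V_nonneg {x : ℝ} (h1 : -qq p ≤ x) (h2 : x ≤ p) : 0 ≤ VV p x := by
  unfold VV
  have := a_nonneg hp h1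
  have := b_nonneg hp h2
  positivity

theorem V_continuous : Continuous (VV p) := by
  unfold VV
  have hq := q_pos hp
  apply Continuous.mul
  · apply Continuous.rpow_const (by fun_prop)
    intro x
    right
    positivity
  · apply Continuous.rpow_const (by fun_prop)
    intro x
    right
    positivity

theorem V_hasDerivAt {x : ℝ} (h1 : -qq p < x) (h2 : x < p) :
    HasDerivAt (VV p) (-2 * VV p x * x / SS p x) x := by
  have hq := q_pos hp
  have hp0 : 0 < p := by linarith
  have ha := a_pos hp h1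
  have hb := b_pos hp h2
  have ea : HasDerivAt (fun x => 1 + x / qq p) (1 / qq p) x := by
    simpa using ((hasDerivAt_id x).div_const (qq p)).const_add 1
  have eb : HasDerivAt (fun x => 1 - x / p) (-(1 / p)) x := by
    simpa using ((hasDerivAt_id x).div_const p).const_sub 1
  have e1 : HasDerivAt (fun x => (1 + x / qq p) ^ (2 / p))
      ((1 / qq p) * (2 / p) * (1 + x / qq p) ^ (2 / p - 1)) x :=
    ea.rpow_const (Or.inl ha.ne')
  have e2 : HasDerivAt (fun x => (1 - x / p) ^ (2 / qq p))
      ((-(1 / p)) * (2 / qq p) * (1 - x / p) ^ (2 / qq p - 1)) x :=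
    eb.rpow_const (Or.inl hb.ne')
  have e3 := e1.mul e2
  have e4 : HasDerivAt (VV p) ((1 / qq p) * (2 / p) * (1 + x / qq p) ^ (2 / p - 1) *
      (1 - x / p) ^ (2 / qq p) + (1 + x / qq p) ^ (2 / p) *
      ((-(1 / p)) * (2 / qq p) * (1 - x / p) ^ (2 / qq p - 1))) x := e3
  refine e4.congr_deriv ?_
  rw [Real.rpow_sub_one ha.ne', Real.rpow_sub_one hb.ne']
  have hS : SS p x = nn p * ((1 + x / qq p) * (1 - x / p)) := by
    unfold SS nn
    field_simp
  have hV : VV p x = (1 + x / qq p) ^ (2 / p) * (1 - x / p) ^ (2 / qq p) := rfl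
  rw [hS, hV]
  have key : x = (1 + x / qq p) - (1 - x / p) := by
    have := pq_eq hp
    field_simp
    linear_combination x * this
  have hn' : nn p = p * qq p := rfl
  rw [hn']
  generalize h_a : 1 + x / qq p = a at *
  generalize h_b : 1 - x / p = b at *
  rw [key]
  generalize a ^ (2 / p) = P
  generalize b ^ (2 / qq p) = Q
  field_simp
  ring

theorem V_strictAnti {x y : ℝ} (h0 : 0 ≤ x) (hxy : x < y) (hy : y ≤ p) : VV p y < VV p x := by
  have hq := q_pos hp
  have := lt_of_hasDerivAt (f := fun x => - VV p x) (f' := fun x => -(-2 * VV p x * x / SS p x))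
    hxy ((V_continuous hp).neg.continuousOn)
    (fun z hz => (V_hasDerivAt hp (by linarith [hz.1]) (by linarith [hz.2])).neg)
    (fun z hz => by
      have h1 : 0 < VV p z := V_pos hp (by linarith [hz.1]) (by linarith [hz.2])
      have h2 : 0 < SS p z := S_pos (by linarith [hz.1]) (by linarith [hz.2])
      have h3 : 0 < z := by linarith [hz.1]
      have : -(-2 * VV p z * z / SS p z) = 2 * VV p z * z / SS p z := by ring
      rw [this]
      positivity)
  simpa using this

theorem V_strictMono {x y : ℝ} (h0 : -qq p ≤ x) (hxy : x < y) (hy : y ≤ 0) : VV p x < VV p y := by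
  have hq := q_pos hp
  exact lt_of_hasDerivAt (f := fun x => VV p x) (f' := fun x => (-2 * VV p x * x / SS p x))
    hxy ((V_continuous hp).continuousOn)
    (fun z hz => (V_hasDerivAt hp (by linarith [hz.1]) (by linarith [hz.2])))
    (fun z hz => by
      have h1 : 0 < VV p z := V_pos hp (by linarith [hz.1]) (by linarith [hz.2])
      have h2 : 0 < SS p z := S_pos (by linarith [hz.1]) (by linarith [hz.2])
      have h3 : 0 < -z := by linarith [hz.2]
      have : -2 * VV p z * z / SS p z = 2 * VV p z * (-z) / SS p z := by ring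
      rw [this]
      positivity)

theorem V_lt_one {x : ℝ} (h1 : -qq p ≤ x) (h2 : x ≤ p) (h3 : x ≠ 0) : VV p x < 1 := by
  rcases lt_or_gt_of_ne h3 with h | h
  · have := V_strictMono hp h1 h le_rfl
    rwa [V_zero] at this
  · have := V_strictAnti hp le_rfl h h2
    rwa [V_zero] at this

theorem V_le_one {x : ℝ} (h1 : -qq p ≤ x) (h2 : x ≤ p) : VV p x ≤ 1 := by
  by_cases h3 : x = 0
  · rw [h3, V_zero]
  · exact (V_lt_one hp h1 h2 h3).le

theorem ndx_pos {x : ℝ} (h1 : -qq p ≤ x) : 0 < nn p + dd p * x := by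
  have hd := d_pos hp
  have hq := q_pos hp
  have h3 : nn p - dd p * qq p = qq p ^ 2 := by
    unfold nn dd
    ring
  nlinarith [mul_le_mul_of_nonneg_left h1 hd.le, sq_nonneg (qq p)]

/-- The auxiliary function `V (n + d x) / S`. -/
theorem F1_hasDerivAt {x : ℝ} (h1 : -qq p < x) (h2 : x < p) :
    HasDerivAt (fun x => VV p x * (nn p + dd p * x) / SS p x)
      (-(dd p * x ^ 2 * VV p x / SS p x ^ 2)) x := by
  have hS := S_pos h1 h2
  have e1 := V_hasDerivAt hp h1 h2
  have e2 : HasDerivAt (fun x => nn p + dd p * x) (dd p) x := by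
    simpa using ((hasDerivAt_id x).const_mul (dd p)).const_add (nn p)
  have e3 : HasDerivAt (SS p) (dd p - 2 * x) x := by
    have : HasDerivAt (fun x => nn p + dd p * x - x ^ 2) (dd p - 2 * x) x :=
      (e2.sub (hasDerivAt_pow 2 x)).congr_deriv (by simp)
    have h4 : SS p = fun x => nn p + dd p * x - x ^ 2 := by
      funext y
      exact S_eq y
    rw [h4]
    exact this
  refine ((e1.mul e2).div e3 hS.ne').congr_deriv ?_
  have hn : nn p = SS p x - dd p * x + x ^ 2 := by
    rw [S_eq]
    ring
  simp only [Pi.mul_apply]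
  rw [hn]
  field_simp
  ring

theorem V_le_of_nonneg {x : ℝ} (h1 : 0 ≤ x) (h2 : x < p) :
    VV p x * (nn p + dd p * x) ≤ SS p x := by
  have hq := q_pos hp
  have hS : ∀ z, 0 ≤ z → z < p → 0 < SS p z := fun z hz hz' => S_pos (by linarith) hz'
  have := le_of_hasDerivAt (f := fun x => -(VV p x * (nn p + dd p * x) / SS p x))
    (f' := fun x => -(-(dd p * x ^ 2 * VV p x / SS p x ^ 2))) h1
    (by
      apply ContinuousOn.neg
      apply ContinuousOn.div
      · exact ((V_continuous hp).mul (by fun_prop)).continuousOn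
      · unfold SS
        fun_prop
      · intro z hz
        exact (hS z hz.1 (lt_of_le_of_lt hz.2 h2)).ne')
    (fun z hz => (F1_hasDerivAt hp (by linarith [hz.1]) (by linarith [hz.2])).neg)
    (fun z hz => by
      have h3 : 0 < VV p z := V_pos hp (by linarith [hz.1]) (by linarith [hz.2])
      have h4 := d_pos hp
      rw [neg_neg]
      positivity)
  simp only [V_zero, mul_zero, add_zero, one_mul] at this
  have h5 : SS p 0 = nn p := by
    rw [S_eq]
    ring
  rw [h5, div_self (n_pos hp).ne'] at this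
  have h6 := hS x h1 h2
  have h7 : VV p x * (nn p + dd p * x) / SS p x ≤ 1 := by linarith
  rwa [div_le_one h6] at h7

theorem V_ge_of_nonpos {x : ℝ} (h1 : -qq p < x) (h2 : x ≤ 0) :
    SS p x ≤ VV p x * (nn p + dd p * x) := by
  have hq := q_pos hp
  have hS : ∀ z, -qq p < z → z ≤ 0 → 0 < SS p z := fun z hz hz' => S_pos (by linarith) (by linarith)
  have := le_of_hasDerivAt (f := fun x => -(VV p x * (nn p + dd p * x) / SS p x))
    (f' := fun x => -(-(dd p * x ^ 2 * VV p x / SS p x ^ 2))) h2
    (by
      apply ContinuousOn.neg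
      apply ContinuousOn.div
      · exact ((V_continuous hp).mul (by fun_prop)).continuousOn
      · unfold SS
        fun_prop
      · intro z hz
        exact (hS z (lt_of_lt_of_le h1 hz.1) hz.2).ne')
    (fun z hz => (F1_hasDerivAt hp (by linarith [hz.1]) (by linarith [hz.2])).neg)
    (fun z hz => by
      have h3 : 0 < VV p z := V_pos hp (by linarith [hz.1]) (by linarith [hz.2])
      have h4 := d_pos hp
      rw [neg_neg]
      positivity)
  simp only [V_zero, mul_zero, add_zero, one_mul] at this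
  have h5 : SS p 0 = nn p := by
    rw [S_eq]
    ring
  rw [h5, div_self (n_pos hp).ne'] at this
  have h6 := hS x h1 h2
  have h7 : 1 ≤ VV p x * (nn p + dd p * x) / SS p x := by linarith
  rwa [one_le_div h6] at h7

/-- The auxiliary function `V + x^2 / n`, in the form `n V / (n - x^2)`. -/
theorem F2_hasDerivAt {x : ℝ} (h1 : -qq p < x) (h2 : x < p) (h3 : x ^ 2 < nn p) :
    HasDerivAt (fun x => VV p x / (nn p - x ^ 2))
      (2 * dd p * x ^ 2 * VV p x / (SS p x * (nn p - x ^ 2) ^ 2)) x := by
  have hS := S_pos h1 h2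
  have e1 := V_hasDerivAt hp h1 h2
  have e2 : HasDerivAt (fun x => nn p - x ^ 2) (-(2 * x)) x := by
    simpa using (hasDerivAt_pow 2 x).const_sub (nn p)
  have h4 : nn p - x ^ 2 ≠ 0 := by
    intro h
    linarith
  refine (e1.div e2 h4).congr_deriv ?_
  have hn : dd p * x = SS p x - (nn p - x ^ 2) := by
    rw [S_eq]
    ring
  have hn' : 2 * dd p * x ^ 2 = 2 * x * (SS p x - (nn p - x ^ 2)) := by
    rw [← hn]
    ring
  rw [hn']
  generalize nn p - x ^ 2 = m at *
  field_simp
  ring

theorem V_ge_of_nonneg {x : ℝ} (h1 : 0 ≤ x) (h2 : x ≤ p) :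
    nn p - x ^ 2 ≤ nn p * VV p x := by
  have hq := q_pos hp
  have hn := n_pos hp
  by_cases h3 : x ^ 2 < nn p
  · have hz3 : ∀ z, 0 ≤ z → z ≤ x → z ^ 2 < nn p := fun z hz hz' => by nlinarith
    have := le_of_hasDerivAt (f := fun x => (VV p x / (nn p - x ^ 2)))
      (f' := fun x => 2 * dd p * x ^ 2 * VV p x / (SS p x * (nn p - x ^ 2) ^ 2)) h1
      (by
        apply ContinuousOn.div
        · exact (V_continuous hp).continuousOn
        · fun_prop
        · intro z hz
          have := hz3 z hz.1 hz.2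
          intro h
          linarith)
      (fun z hz => F2_hasDerivAt hp (by linarith [hz.1]) (by linarith [hz.2])
        (hz3 z hz.1.le hz.2.le))
      (fun z hz => by
        have h3 : 0 < VV p z := V_pos hp (by linarith [hz.1]) (by linarith [hz.2])
        have h4 := d_pos hp
        have h5 : 0 < SS p z := S_pos (by linarith [hz.1]) (by linarith [hz.2])
        have h6 := hz3 z hz.1.le hz.2.le
        positivity)
    simp only [V_zero] at this
    have h6 : 0 < nn p - x ^ 2 := by linarith
    rw [div_le_div_iff₀ (by linarith [hz3 0 le_rfl h1]) h6] at this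
    nlinarith
  · have := V_nonneg hp (by linarith) h2
    nlinarith

theorem V_le_of_nonpos {x : ℝ} (h1 : -qq p < x) (h2 : x ≤ 0) :
    nn p * VV p x ≤ nn p - x ^ 2 := by
  have hq := q_pos hp
  have hn := n_pos hp
  have hz3 : ∀ z, x ≤ z → z ≤ 0 → z ^ 2 < nn p := fun z hz hz' => by
    have := q_sq_lt_n hp
    nlinarith
  have := le_of_hasDerivAt (f := fun x => (VV p x / (nn p - x ^ 2)))
    (f' := fun x => 2 * dd p * x ^ 2 * VV p x / (SS p x * (nn p - x ^ 2) ^ 2)) h2
    (by
      apply ContinuousOn.div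
      · exact (V_continuous hp).continuousOn
      · fun_prop
      · intro z hz
        have := hz3 z hz.1 hz.2
        intro h
        linarith)
    (fun z hz => F2_hasDerivAt hp (by linarith [hz.1]) (by linarith [hz.2])
      (hz3 z hz.1.le hz.2.le))
    (fun z hz => by
      have h3 : 0 < VV p z := V_pos hp (by linarith [hz.1]) (by linarith [hz.2])
      have h4 := d_pos hp
      have h5 : 0 < SS p z := S_pos (by linarith [hz.1]) (by linarith [hz.2])
      have h6 := hz3 z hz.1.le hz.2.le
      positivity)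
  simp only [V_zero] at this
  have h6 : 0 < nn p - x ^ 2 := by linarith [hz3 x le_rfl h2]
  rw [div_le_div_iff₀ h6 (by linarith [hz3 0 h2 le_rfl])] at this
  nlinarith

end Basic

end Pool.Agent.Helper87.PLap
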