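import Pool.Agent.Helper87.PLap.Fun

set_option autoImplicit false

namespace Pool.Agent.Helper87.PLap

open Real Set Filter Topology

/-- `A(ρ) = sgn(ρ) √(1 - V(ρ))`. -/
noncomputable def AA (p x : ℝ) : ℝ := if 0 ≤ x then √(1 - VV p x) else -√(1 - VV p x)

/-- `G(ρ) = A(ρ)/ρ`, continued to `ρ = 0`. -/
noncomputable def GG (p x : ℝ) : ℝ := if x = 0 then 1 / √(nn p) else AA p x / x

section Basic

variable {p : ℝ} (hp : 2 < p)

include hp

theorem AA_continuous : Continuous (AA p) := by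
  unfold AA
  apply Continuous.if_le
  · exact (continuous_const.sub (V_continuous hp)).sqrt
  · exact (continuous_const.sub (V_continuous hp)).sqrt.neg
  · exact continuous_const
  · exact continuous_id
  · intro x hx
    rw [← hx, V_zero]
    simp

omit hp in
theorem AA_zero : AA p 0 = 0 := by
  simp [AA, V_zero]

theorem AA_left : AA p (-qq p) = -1 := by
  have h := q_pos hp
  unfold AA
  rw [if_neg (by linarith), V_left hp]
  simp

theorem AA_right : AA p p = 1 := by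
  unfold AA
  rw [if_pos (by linarith), V_right hp]
  simp

theorem AA_sq {x : ℝ} (h1 : -qq p ≤ x) (h2 : x ≤ p) : AA p x ^ 2 = 1 - VV p x := by
  have h3 := V_le_one hp h1 h2
  unfold AA
  split_ifs
  · rw [Real.sq_sqrt (by linarith)]
  · rw [neg_sq, Real.sq_sqrt (by linarith)]

theorem AA_pos {x : ℝ} (h1 : 0 < x) (h2 : x ≤ p) : 0 < AA p x := by
  have hq := q_pos hp
  have h3 := V_lt_one hp (by linarith) h2 h1.ne'
  unfold AA
  rw [if_pos h1.le]
  apply Real.sqrt_pos.mpr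
  linarith

theorem AA_neg {x : ℝ} (h1 : -qq p ≤ x) (h2 : x < 0) : AA p x < 0 := by
  have h3 := V_lt_one hp h1 (by linarith) h2.ne
  unfold AA
  rw [if_neg (by linarith)]
  have : 0 < √(1 - VV p x) := by
    apply Real.sqrt_pos.mpr
    linarith
  linarith

theorem AA_strictMono : StrictMonoOn (AA p) (Icc (-qq p) p) := by
  have hq := q_pos hp
  intro x hx y hy hxy
  rcases lt_or_ge x 0 with h | h
  · rcases lt_or_ge y 0 with h' | h'
    · have h3 := V_strictMono hp hx.1 hxy h'.le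
      have h4 := V_le_one hp hx.1 hx.2
      have h5 := V_le_one hp hy.1 hy.2
      unfold AA
      rw [if_neg (by linarith), if_neg (by linarith)]
      have := Real.sqrt_lt_sqrt (by linarith : 0 ≤ 1 - VV p y)
        (by linarith : 1 - VV p y < 1 - VV p x)
      linarith
    · have h3 := AA_neg hp hx.1 h
      rcases eq_or_lt_of_le h' with h'' | h''
      · rw [← h'', AA_zero]
        exact h3
      · exact h3.trans (AA_pos hp h'' hy.2)
  · have h3 := V_strictAnti hp h hxy hy.2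
    have h4 := V_le_one hp hx.1 hx.2
    unfold AA
    rw [if_pos h, if_pos (by linarith)]
    exact Real.sqrt_lt_sqrt (by linarith) (by linarith)

omit hp in
theorem AA_eq (x : ℝ) : AA p x = x * GG p x := by
  unfold GG
  by_cases h : x = 0
  · rw [h, AA_zero]
    simp
  · rw [if_neg h]
    field_simp

theorem GG_pos {x : ℝ} (h1 : -qq p ≤ x) (h2 : x ≤ p) : 0 < GG p x := by
  unfold GG
  have hn := n_pos hp
  by_cases h : x = 0
  · rw [if_pos h]
    positivity
  · rw [if_neg h]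
    rcases lt_or_gt_of_ne h with h' | h'
    · exact div_pos_of_neg_of_neg (AA_neg hp h1 h') h'
    · exact div_pos (AA_pos hp h' h2) h'

theorem GG_sq {x : ℝ} (h1 : -qq p ≤ x) (h2 : x ≤ p) (h3 : x ≠ 0) :
    GG p x ^ 2 = (1 - VV p x) / x ^ 2 := by
  unfold GG
  rw [if_neg h3, div_pow, AA_sq hp h1 h2]

theorem GG_zero : GG p 0 ^ 2 = 1 / nn p := by
  unfold GG
  rw [if_pos rfl, div_pow, Real.sq_sqrt (n_pos hp).le, one_pow]

/-- Two sided bound of `G²`. -/
theorem GG_sq_bound {x : ℝ} (h1 : -qq p < x) (h2 : x < p) :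
    |GG p x ^ 2 - 1 / nn p| ≤ |1 / (nn p + dd p * x) - 1 / nn p| := by
  have hn := n_pos hp
  have hm := ndx_pos hp h1.le
  by_cases h3 : x = 0
  · rw [h3, GG_zero hp]
    simp
  · rw [GG_sq hp h1.le h2.le h3]
    have hx2 : 0 < x ^ 2 := by positivity
    have hS := S_eq (p := p) x
    rcases lt_or_gt_of_ne h3 with h | h
    · have e1 := V_ge_of_nonpos hp h1 h.le
      have e2 := V_le_of_nonpos hp h1 h.le
      have e3 : 1 / nn p ≤ (1 - VV p x) / x ^ 2 := by
        rw [div_le_div_iff₀ hn hx2]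
        linarith
      have e4 : (1 - VV p x) / x ^ 2 ≤ 1 / (nn p + dd p * x) := by
        rw [div_le_div_iff₀ hx2 hm]
        nlinarith
      rw [abs_of_nonneg (by linarith), abs_of_nonneg (by linarith)]
      linarith
    · have e1 := V_le_of_nonneg hp h.le h2
      have e2 := V_ge_of_nonneg hp h.le h2.le
      have e3 : (1 - VV p x) / x ^ 2 ≤ 1 / nn p := by
        rw [div_le_div_iff₀ hx2 hn]
        linarith
      have e4 : 1 / (nn p + dd p * x) ≤ (1 - VV p x) / x ^ 2 := by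
        rw [div_le_div_iff₀ hm hx2]
        nlinarith
      rw [abs_of_nonpos (by linarith), abs_of_nonpos (by linarith)]
      linarith

end Basic

theorem qq_contAt {p : ℝ} (hp : 2 < p) : ContinuousAt qq p := by
  unfold qq
  apply ContinuousAt.div continuousAt_id (by fun_prop)
  intro h
  have : p - 1 = 0 := h
  linarith

theorem qq_cont : ContinuousOn (fun z : ℝ × ℝ => qq z.1) {z | 2 < z.1} := by
  intro z hz
  apply ContinuousAt.continuousWithinAt
  exact (qq_contAt hz).comp continuousAt_fst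

theorem VV_cont : ContinuousOn (fun z : ℝ × ℝ => VV z.1 z.2) {z | 2 < z.1} := by
  have hq := qq_cont
  have hq0 : ∀ z ∈ {z : ℝ × ℝ | 2 < z.1}, qq z.1 ≠ 0 := fun z hz => (q_pos hz).ne'
  have hp0 : ∀ z ∈ {z : ℝ × ℝ | 2 < z.1}, z.1 ≠ 0 := fun z hz => by
    have : (2 : ℝ) < z.1 := hz
    linarith
  unfold VV
  apply ContinuousOn.mul
  · apply ContinuousOn.rpow
    · exact continuousOn_const.add (continuousOn_snd.div hq hq0)
    · exact continuousOn_const.div continuousOn_fst hp0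
    · intro z hz
      right
      have : (2 : ℝ) < z.1 := hz
      positivity
  · apply ContinuousOn.rpow
    · exact continuousOn_const.sub (continuousOn_snd.div continuousOn_fst hp0)
    · exact continuousOn_const.div hq hq0
    · intro z hz
      right
      have := q_pos hz
      positivity

theorem AA_cont : ContinuousOn (fun z : ℝ × ℝ => AA z.1 z.2) {z | 2 < z.1} := by
  rw [continuousOn_iff_continuous_domRestrict]
  have hV := VV_cont
  rw [continuousOn_iff_continuous_domRestrict] at hV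
  have : ({z : ℝ × ℝ | 2 < z.1}.domRestrict fun z : ℝ × ℝ => AA z.1 z.2) =
      fun z : {z : ℝ × ℝ | 2 < z.1} => if (0 : ℝ) ≤ z.1.2 then √(1 - VV z.1.1 z.1.2)
        else -√(1 - VV z.1.1 z.1.2) := rfl
  rw [this]
  apply Continuous.if_le
  · exact (continuous_const.sub hV).sqrt
  · exact (continuous_const.sub hV).sqrt.neg
  · exact continuous_const
  · exact continuous_snd.comp continuous_subtype_val
  · intro x hx
    rw [← hx, V_zero]
    simp

/-- The domain of `G`. -/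
def Dom : Set (ℝ × ℝ) := {z | 2 < z.1 ∧ -qq z.1 ≤ z.2 ∧ z.2 ≤ z.1}

theorem GG_contAt_zero {p : ℝ} (hp : 2 < p) :
    ContinuousWithinAt (fun z : ℝ × ℝ => GG z.1 z.2) Dom (p, 0) := by
  have hq := q_pos hp
  have hn := n_pos hp
  have h1 : ∀ z ∈ Dom, GG z.1 z.2 = √(GG z.1 z.2 ^ 2) := fun z hz => by
    rw [Real.sqrt_sq (GG_pos hz.1 hz.2.1 hz.2.2).le]
  have hqc : ContinuousAt (fun z : ℝ × ℝ => qq z.1) (p, 0) :=
    ContinuousAt.comp (g := qq) (x := ((p, 0) : ℝ × ℝ)) (qq_contAt hp) continuousAt_fst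
  have hnc : ContinuousAt (fun z : ℝ × ℝ => nn z.1) (p, 0) := by
    unfold nn
    exact continuousAt_fst.mul hqc
  have hdc : ContinuousAt (fun z : ℝ × ℝ => dd z.1) (p, 0) := by
    unfold dd
    exact continuousAt_fst.sub hqc
  have hb : Tendsto (fun z : ℝ × ℝ => |1 / (nn z.1 + dd z.1 * z.2) - 1 / nn z.1|)
      (𝓝 (p, 0)) (𝓝 0) := by
    have : ContinuousAt (fun z : ℝ × ℝ => |1 / (nn z.1 + dd z.1 * z.2) - 1 / nn z.1|)
        ((p, 0) : ℝ × ℝ) := by
      apply ContinuousAt.abs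
      apply ContinuousAt.sub
      · apply ContinuousAt.div continuousAt_const
        · exact hnc.add (hdc.mul continuousAt_snd)
        · simp [hn.ne']
      · exact continuousAt_const.div hnc hn.ne'
    have h2 := this.tendsto
    simpa using h2
  have hmem : ∀ᶠ z : ℝ × ℝ in 𝓝 (p, 0), -qq z.1 < z.2 ∧ z.2 < z.1 := by
    have e1 : ∀ᶠ z : ℝ × ℝ in 𝓝 (p, 0), 0 < z.2 + qq z.1 := by
      apply (continuousAt_snd.add hqc).eventually_const_lt
      simpa using hq
    have e2 : ∀ᶠ z : ℝ × ℝ in 𝓝 (p, 0), 0 < z.1 - z.2 := by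
      apply (continuousAt_fst.sub continuousAt_snd).eventually_const_lt
      simp
      linarith
    filter_upwards [e1, e2] with z h1 h2
    constructor <;> linarith
  have h3 : Tendsto (fun z : ℝ × ℝ => GG z.1 z.2 ^ 2 - 1 / nn z.1) (𝓝[Dom] (p, 0)) (𝓝 0) := by
    rw [tendsto_zero_iff_abs_tendsto_zero]
    apply squeeze_zero' (g := fun z : ℝ × ℝ => |1 / (nn z.1 + dd z.1 * z.2) - 1 / nn z.1|)
    · exact Eventually.of_forall fun z => abs_nonneg _
    · filter_upwards [self_mem_nhdsWithin, hmem.filter_mono nhdsWithin_le_nhds] with z hz hz'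
      exact GG_sq_bound hz.1 hz'.1 hz'.2
    · exact hb.mono_left nhdsWithin_le_nhds
  have h4 : Tendsto (fun z : ℝ × ℝ => 1 / nn z.1) (𝓝[Dom] (p, 0)) (𝓝 (1 / nn p)) :=
    ((continuousAt_const.div hnc hn.ne').tendsto).mono_left nhdsWithin_le_nhds
  have h5 := (h3.add h4).sqrt
  have h6 : √(0 + 1 / nn p) = GG p 0 := by
    rw [zero_add, ← GG_zero hp, Real.sqrt_sq]
    exact (GG_pos hp (by linarith) (by linarith)).le
  rw [h6] at h5
  refine h5.congr' ?_
  filter_upwards [self_mem_nhdsWithin] with z hz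
  rw [sub_add_cancel]
  exact (h1 z hz).symm

theorem GG_cont : ContinuousOn (fun z : ℝ × ℝ => GG z.1 z.2) Dom := by
  intro z hz
  by_cases h : z.2 = 0
  · have : z = (z.1, 0) := by
      rw [← h]
    rw [this]
    exact GG_contAt_zero hz.1
  · have h1 : ContinuousWithinAt (fun z : ℝ × ℝ => AA z.1 z.2 / z.2) Dom z := by
      apply ContinuousWithinAt.div
      · exact (AA_cont z hz.1).mono fun w hw => hw.1
      · exact continuousWithinAt_snd
      · exact h
    have h2 : ∀ᶠ w : ℝ × ℝ in 𝓝[Dom] z, w.2 ≠ 0 := by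
      apply Filter.Eventually.filter_mono nhdsWithin_le_nhds
      exact continuousAt_snd.eventually_ne h
    refine h1.congr_of_eventuallyEq ?_ ?_
    · filter_upwards [h2] with w hw
      simp [GG, hw]
    · simp [GG, h]

/-- The inverse function of `A`. -/
noncomputable def rh (p A : ℝ) : ℝ := Function.invFunOn (AA p) (Icc (-qq p) p) A

theorem exists_rh {p : ℝ} (hp : 2 < p) {A : ℝ} (hA : A ∈ Icc (-1 : ℝ) 1) :
    ∃ x ∈ Icc (-qq p) p, AA p x = A := by
  have hq := q_pos hp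
  have h := intermediate_value_Icc (by linarith : -qq p ≤ p) (AA_continuous hp).continuousOn
  rw [AA_left hp, AA_right hp] at h
  exact h hA

theorem rh_mem {p : ℝ} (hp : 2 < p) {A : ℝ} (hA : A ∈ Icc (-1 : ℝ) 1) :
    rh p A ∈ Icc (-qq p) p := Function.invFunOn_mem (exists_rh hp hA)

theorem AA_rh {p : ℝ} (hp : 2 < p) {A : ℝ} (hA : A ∈ Icc (-1 : ℝ) 1) :
    AA p (rh p A) = A := Function.invFunOn_eq (exists_rh hp hA)

theorem AA_mem {p : ℝ} (hp : 2 < p) {x : ℝ} (hx : x ∈ Icc (-qq p) p) :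
    AA p x ∈ Icc (-1 : ℝ) 1 := by
  have hq := q_pos hp
  have h1 := (AA_strictMono hp).monotoneOn (left_mem_Icc.mpr (by linarith)) hx hx.1
  have h2 := (AA_strictMono hp).monotoneOn hx (right_mem_Icc.mpr (by linarith)) hx.2
  rw [AA_left hp] at h1
  rw [AA_right hp] at h2
  exact ⟨h1, h2⟩

theorem rh_AA {p : ℝ} (hp : 2 < p) {x : ℝ} (hx : x ∈ Icc (-qq p) p) : rh p (AA p x) = x :=
  (AA_strictMono hp).injOn (rh_mem hp (AA_mem hp hx)) hx (AA_rh hp (AA_mem hp hx))

theorem rh_strictMono {p : ℝ} (hp : 2 < p) : StrictMonoOn (rh p) (Icc (-1) 1) := by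
  intro A hA B hB hAB
  by_contra h
  push Not at h
  have := (AA_strictMono hp).monotoneOn (rh_mem hp hB) (rh_mem hp hA) h
  rw [AA_rh hp hA, AA_rh hp hB] at this
  linarith

theorem rh_cont : ContinuousOn (fun z : ℝ × ℝ => rh z.1 z.2) {z | 2 < z.1 ∧ z.2 ∈ Icc (-1 : ℝ) 1} := by
  rintro ⟨p, A⟩ ⟨hp, hA⟩
  simp only at hp hA
  have hx0 := rh_mem hp hA
  have hqc : ContinuousAt (fun z : ℝ × ℝ => qq z.1) (p, A) :=
    ContinuousAt.comp (g := qq) (x := ((p, A) : ℝ × ℝ)) (qq_contAt hp) continuousAt_fst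
  have hlim : ∀ y : ℝ, Tendsto (fun z : ℝ × ℝ => AA z.1 y)
      (𝓝[{z : ℝ × ℝ | 2 < z.1 ∧ z.2 ∈ Icc (-1 : ℝ) 1}] (p, A)) (𝓝 (AA p y)) := by
    intro y
    have h1 : ContinuousAt (fun z : ℝ × ℝ => AA z.1 z.2) (p, y) := by
      have h2 : IsOpen {z : ℝ × ℝ | 2 < z.1} := isOpen_lt continuous_const continuous_fst
      exact (AA_cont (p, y) hp).continuousAt (h2.mem_nhds hp)
    have h3 : ContinuousAt (fun z : ℝ × ℝ => ((z.1, y) : ℝ × ℝ)) (p, A) := by fun_prop
    exact (ContinuousAt.comp (g := fun z : ℝ × ℝ => AA z.1 z.2) (x := ((p, A) : ℝ × ℝ))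
      h1 h3).tendsto.mono_left nhdsWithin_le_nhds
  have hsnd : Tendsto (fun z : ℝ × ℝ => z.2)
      (𝓝[{z : ℝ × ℝ | 2 < z.1 ∧ z.2 ∈ Icc (-1 : ℝ) 1}] (p, A)) (𝓝 A) :=
    (continuousAt_snd (p := ((p, A) : ℝ × ℝ))).tendsto.mono_left nhdsWithin_le_nhds
  apply tendsto_order.2
  constructor
  · intro y hy
    simp only at hy
    by_cases hyp : y < -qq p
    · have e1 : ∀ᶠ z : ℝ × ℝ in 𝓝[{z : ℝ × ℝ | 2 < z.1 ∧ z.2 ∈ Icc (-1 : ℝ) 1}] (p, A),
          y < -qq z.1 := by
        apply Filter.Eventually.filter_mono nhdsWithin_le_nhds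
        exact hqc.neg.eventually_const_lt hyp
      filter_upwards [e1, self_mem_nhdsWithin] with z h1 h2
      exact lt_of_lt_of_le h1 (rh_mem h2.1 h2.2).1
    · push Not at hyp
      obtain ⟨y', hy1, hy2⟩ := exists_between hy
      have hy3 : -qq p < y' := lt_of_le_of_lt hyp hy1
      have hy4 : y' < p := lt_of_lt_of_le hy2 hx0.2
      have h5 : AA p y' < A := by
        have := AA_strictMono hp ⟨hy3.le, hy4.le⟩ hx0 hy2
        rwa [AA_rh hp hA] at this
      have e1 : ∀ᶠ z : ℝ × ℝ in 𝓝[{z : ℝ × ℝ | 2 < z.1 ∧ z.2 ∈ Icc (-1 : ℝ) 1}] (p, A),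
          AA z.1 y' < z.2 := (hlim y').eventually_lt hsnd h5
      have e2 : ∀ᶠ z : ℝ × ℝ in 𝓝[{z : ℝ × ℝ | 2 < z.1 ∧ z.2 ∈ Icc (-1 : ℝ) 1}] (p, A),
          -qq z.1 < y' := by
        apply Filter.Eventually.filter_mono nhdsWithin_le_nhds
        exact hqc.neg.eventually_lt_const hy3
      have e3 : ∀ᶠ z : ℝ × ℝ in 𝓝[{z : ℝ × ℝ | 2 < z.1 ∧ z.2 ∈ Icc (-1 : ℝ) 1}] (p, A),
          y' < z.1 := by
        apply Filter.Eventually.filter_mono nhdsWithin_le_nhds
        exact continuousAt_fst.eventually_const_lt hy4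
      filter_upwards [e1, e2, e3, self_mem_nhdsWithin] with z h1 h2 h3 h4
      refine lt_trans hy1 ?_
      by_contra h6
      push Not at h6
      have := (AA_strictMono h4.1).monotoneOn (rh_mem h4.1 h4.2) ⟨h2.le, h3.le⟩ h6
      rw [AA_rh h4.1 h4.2] at this
      linarith
  · intro y hy
    simp only at hy
    by_cases hyp : p < y
    · have e1 : ∀ᶠ z : ℝ × ℝ in 𝓝[{z : ℝ × ℝ | 2 < z.1 ∧ z.2 ∈ Icc (-1 : ℝ) 1}] (p, A),
          z.1 < y := by
        apply Filter.Eventually.filter_mono nhdsWithin_le_nhds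
        exact continuousAt_fst.eventually_lt_const hyp
      filter_upwards [e1, self_mem_nhdsWithin] with z h1 h2
      exact lt_of_le_of_lt (rh_mem h2.1 h2.2).2 h1
    · push Not at hyp
      obtain ⟨y', hy1, hy2⟩ := exists_between hy
      have hy3 : y' < p := lt_of_lt_of_le hy2 hyp
      have hy4 : -qq p < y' := lt_of_le_of_lt hx0.1 hy1
      have h5 : A < AA p y' := by
        have := AA_strictMono hp hx0 ⟨hy4.le, hy3.le⟩ hy1
        rwa [AA_rh hp hA] at this
      have e1 : ∀ᶠ z : ℝ × ℝ in 𝓝[{z : ℝ × ℝ | 2 < z.1 ∧ z.2 ∈ Icc (-1 : ℝ) 1}] (p, A),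
          z.2 < AA z.1 y' := hsnd.eventually_lt (hlim y') h5
      have e2 : ∀ᶠ z : ℝ × ℝ in 𝓝[{z : ℝ × ℝ | 2 < z.1 ∧ z.2 ∈ Icc (-1 : ℝ) 1}] (p, A),
          -qq z.1 < y' := by
        apply Filter.Eventually.filter_mono nhdsWithin_le_nhds
        exact hqc.neg.eventually_lt_const hy4
      have e3 : ∀ᶠ z : ℝ × ℝ in 𝓝[{z : ℝ × ℝ | 2 < z.1 ∧ z.2 ∈ Icc (-1 : ℝ) 1}] (p, A),
          y' < z.1 := by
        apply Filter.Eventually.filter_mono nhdsWithin_le_nhds
        exact continuousAt_fst.eventually_const_lt hy3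
      filter_upwards [e1, e2, e3, self_mem_nhdsWithin] with z h1 h2 h3 h4
      refine lt_trans ?_ hy2
      by_contra h6
      push Not at h6
      have := (AA_strictMono h4.1).monotoneOn ⟨h2.le, h3.le⟩ (rh_mem h4.1 h4.2) h6
      rw [AA_rh h4.1 h4.2] at this
      linarith

/-- The function `N(A) = A/ρ(A)`, continued to `A = 0`. -/
noncomputable def NN (p A : ℝ) : ℝ := GG p (rh p A)

theorem NN_cont : ContinuousOn (fun z : ℝ × ℝ => NN z.1 z.2) {z | 2 < z.1 ∧ z.2 ∈ Icc (-1 : ℝ) 1} := by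
  unfold NN
  have h1 : ContinuousOn (fun z : ℝ × ℝ => ((z.1, rh z.1 z.2) : ℝ × ℝ))
      {z | 2 < z.1 ∧ z.2 ∈ Icc (-1 : ℝ) 1} := continuousOn_fst.prodMk rh_cont
  have h2 : MapsTo (fun z : ℝ × ℝ => ((z.1, rh z.1 z.2) : ℝ × ℝ))
      {z | 2 < z.1 ∧ z.2 ∈ Icc (-1 : ℝ) 1} Dom := by
    intro z hz
    exact ⟨hz.1, (rh_mem hz.1 hz.2).1, (rh_mem hz.1 hz.2).2⟩
  exact GG_cont.comp h1 h2

end Pool.Agent.Helper87.PLap
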