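import Pool.Agent.Helper87.PLap.Act

set_option autoImplicit false

namespace Pool.Agent.Helper87.PLap

open Real Set Filter Topology MeasureTheory

section Basic

variable {p : ℝ} (hp : 2 < p)

include hp

theorem TH_contOn : ContinuousOn (TH p) (Ico 0 1) := by
  intro k0 hk0
  unfold TH
  obtain ⟨b, hb1, hb2⟩ := exists_between hk0.2
  have hb0 : 0 < b := lt_of_le_of_lt hk0.1 hb1
  have hm : 0 < 1 - b ^ 2 := by nlinarith
  apply ContinuousWithinAt.mul continuousWithinAt_const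
  apply ContinuousWithinAt.mul
  · exact ContinuousAt.continuousWithinAt (by fun_prop)
  have hmem : ∀ᶠ k in 𝓝[Ico 0 1] k0, k ∈ Ico 0 b := by
    filter_upwards [self_mem_nhdsWithin, mem_nhdsWithin_of_mem_nhds (Iio_mem_nhds hb1)] with k h1 h2
    exact ⟨h1.1, h2⟩
  apply intervalIntegral.continuousWithinAt_of_dominated_interval (bound := fun _ => 2 / (1 - b ^ 2))
  · filter_upwards [hmem] with k hk
    have hk' : k ∈ Ico (0 : ℝ) 1 := ⟨hk.1, hk.2.trans hb2⟩
    rw [uIoc_of_le hpi2]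
    apply ContinuousOn.aestronglyMeasurable _ measurableSet_Ioc
    apply ContinuousOn.div
    · apply (MM_contOn hp).comp (by fun_prop)
      intro ψ hψ
      have := ksin_mem' hk' ⟨hψ.1.le, hψ.2⟩
      exact ⟨by linarith [this.1], this.2.le⟩
    · fun_prop
    · intro ψ hψ
      have := ksin_mem' hk' ⟨hψ.1.le, hψ.2⟩
      nlinarith [this.1, this.2]
  · filter_upwards [hmem] with k hk
    filter_upwards with ψ hψ
    rw [uIoc_of_le hpi2] at hψ
    have hk' : k ∈ Ico (0 : ℝ) 1 := ⟨hk.1, hk.2.trans hb2⟩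
    have h1 := ksin_mem' hk' ⟨hψ.1.le, hψ.2⟩
    have h2 : k * sin ψ ∈ Icc (-1 : ℝ) 1 := ⟨by linarith [h1.1], h1.2.le⟩
    have h3 := MM_pos hp h2
    have h4 := MM_le_two hp h2
    have h5 : 1 - b ^ 2 ≤ 1 - (k * sin ψ) ^ 2 := by
      have h6 := sin_bd (ψ := ψ) ⟨hψ.1.le, hψ.2⟩
      have h7 : k * sin ψ ≤ b := by nlinarith [hk.1, hk.2]
      nlinarith [h1.1]
    rw [Real.norm_eq_abs, abs_of_nonneg (div_nonneg h3.le (by linarith))]
    exact div_le_div₀ (by norm_num) h4 hm h5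
  · simp
  · filter_upwards with ψ hψ
    rw [uIoc_of_le hpi2] at hψ
    apply ContinuousWithinAt.div
    · have : ContinuousOn (fun k => MM p (k * sin ψ)) (Ico 0 1) := by
        apply (MM_contOn hp).comp (by fun_prop)
        intro k hk
        have := ksin_mem' hk (ψ := ψ) ⟨hψ.1.le, hψ.2⟩
        exact ⟨by linarith [this.1], this.2.le⟩
      exact this k0 hk0
    · exact ContinuousAt.continuousWithinAt (by fun_prop)
    · have := ksin_mem' hk0 (ψ := ψ) ⟨hψ.1.le, hψ.2⟩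
      nlinarith [this.1, this.2]

theorem TH_zero : TH p 0 = 2 * π / √(nn p) := by
  unfold TH
  simp only [zero_mul]
  rw [MM_zero hp]
  norm_num
  ring

theorem TH_strictMono : StrictMonoOn (TH p) (Ico 0 1) := by
  apply strictMonoOn_of_deriv_pos (convex_Ico 0 1) (TH_contOn hp)
  intro k hk
  rw [interior_Ico] at hk
  rw [(TH_hasDerivAt hp hk).deriv]
  have h1 := II_pos hp hk
  have h0 := one_sub_sq_pos hp hk
  have hs : 0 < √(1 - k ^ 2) := Real.sqrt_pos.mpr h0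
  positivity

theorem TH_pos {k : ℝ} (hk : k ∈ Ico (0 : ℝ) 1) : 0 < TH p k := by
  have h0 : 0 < TH p 0 := by
    rw [TH_zero hp]
    have := n_pos hp
    positivity
  exact h0.trans_le ((TH_strictMono hp).monotoneOn ⟨le_rfl, by norm_num⟩ hk hk.1)

theorem TH_sandwich {ε C : ℝ} (h : ∀ A ∈ Icc (0 : ℝ) 1, |MM p A - 1| ≤ ε + C * (1 - A ^ 2))
    {k : ℝ} (hk : k ∈ Ico (0 : ℝ) 1) : |TH p k - π| ≤ π * ε + π * C * √(1 - k ^ 2) := by
  have h0 : 0 < 1 - k ^ 2 := by nlinarith [hk.1, hk.2]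
  have hs : 0 < √(1 - k ^ 2) := Real.sqrt_pos.mpr h0
  have hd : ∀ ψ ∈ Icc 0 (π / 2), 0 < 1 - (k * sin ψ) ^ 2 := by
    intro ψ hψ
    have := ksin_mem' hk hψ
    nlinarith [this.1, this.2]
  have hMc : ContinuousOn (fun ψ => MM p (k * sin ψ)) (Icc 0 (π / 2)) := by
    apply (MM_contOn hp).comp (by fun_prop)
    intro ψ hψ
    have := ksin_mem' hk hψ
    exact ⟨by linarith [this.1], this.2.le⟩
  have hKc : ContinuousOn (fun ψ => √(1 - k ^ 2) / (1 - (k * sin ψ) ^ 2)) (Icc 0 (π / 2)) := by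
    apply ContinuousOn.div (by fun_prop) (by fun_prop)
    intro ψ hψ
    exact (hd ψ hψ).ne'
  have hKi : IntervalIntegrable (fun ψ => √(1 - k ^ 2) / (1 - (k * sin ψ) ^ 2)) volume
      0 (π / 2) := by
    apply ContinuousOn.intervalIntegrable
    rwa [uIcc_of_le hpi2]
  have hT : TH p k = 2 * ∫ ψ in (0 : ℝ)..(π / 2), MM p (k * sin ψ) *
      (√(1 - k ^ 2) / (1 - (k * sin ψ) ^ 2)) := by
    unfold TH
    rw [← intervalIntegral.integral_const_mul]
    congr 1
    apply intervalIntegral.integral_congr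
    intro ψ _
    simp only
    ring
  have hMKi : IntervalIntegrable (fun ψ => MM p (k * sin ψ) *
      (√(1 - k ^ 2) / (1 - (k * sin ψ) ^ 2))) volume 0 (π / 2) := by
    apply ContinuousOn.intervalIntegrable
    rw [uIcc_of_le hpi2]
    exact hMc.mul hKc
  have hup : ∫ ψ in (0 : ℝ)..(π / 2), MM p (k * sin ψ) *
      (√(1 - k ^ 2) / (1 - (k * sin ψ) ^ 2)) ≤ ∫ ψ in (0 : ℝ)..(π / 2),
      ((1 + ε) * (√(1 - k ^ 2) / (1 - (k * sin ψ) ^ 2)) + C * √(1 - k ^ 2)) := by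
    apply intervalIntegral.integral_mono_on hpi2 hMKi ((hKi.const_mul _).add (by simp))
    intro ψ hψ
    have h1 := (abs_le.mp (h _ (ksin_mem ⟨hk.1, hk.2.le⟩ hψ))).2
    have h2 := hd ψ hψ
    have h3 : C * √(1 - k ^ 2) = C * (1 - (k * sin ψ) ^ 2) *
        (√(1 - k ^ 2) / (1 - (k * sin ψ) ^ 2)) := by
      rw [mul_assoc, mul_div_cancel₀ _ h2.ne']
    rw [h3, ← add_mul]
    apply mul_le_mul_of_nonneg_right _ (by positivity)
    linarith
  have hlo : ∫ ψ in (0 : ℝ)..(π / 2),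
      ((1 - ε) * (√(1 - k ^ 2) / (1 - (k * sin ψ) ^ 2)) + (-C * √(1 - k ^ 2))) ≤
      ∫ ψ in (0 : ℝ)..(π / 2), MM p (k * sin ψ) *
      (√(1 - k ^ 2) / (1 - (k * sin ψ) ^ 2)) := by
    apply intervalIntegral.integral_mono_on hpi2 ((hKi.const_mul _).add (by simp)) hMKi
    intro ψ hψ
    have h1 := (abs_le.mp (h _ (ksin_mem ⟨hk.1, hk.2.le⟩ hψ))).1
    have h2 := hd ψ hψ
    have h3 : -C * √(1 - k ^ 2) = -C * (1 - (k * sin ψ) ^ 2) *
        (√(1 - k ^ 2) / (1 - (k * sin ψ) ^ 2)) := by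
      rw [mul_assoc, mul_div_cancel₀ _ h2.ne']
    rw [h3, ← add_mul]
    apply mul_le_mul_of_nonneg_right _ (by positivity)
    linarith
  rw [intervalIntegral.integral_add (hKi.const_mul _) (by simp),
    intervalIntegral.integral_const_mul, kernel_int hk, intervalIntegral.integral_const] at hup hlo
  rw [hT, abs_le]
  simp only [smul_eq_mul, sub_zero] at hup hlo
  constructor <;> nlinarith

theorem MM_near_one {ε : ℝ} (hε : 0 < ε) :
    ∃ C, ∀ A ∈ Icc (0 : ℝ) 1, |MM p A - 1| ≤ ε + C * (1 - A ^ 2) := by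
  have h1 : ContinuousWithinAt (MM p) (Icc (-1) 1) 1 := MM_contOn hp 1 (by norm_num)
  rw [Metric.continuousWithinAt_iff] at h1
  obtain ⟨η, hη, h2⟩ := h1 ε hε
  set η' := min η (1 / 2) with hη'
  have h3 : 0 < η' := by positivity
  have h4 : η' ≤ 1 / 2 := min_le_right _ _
  have hm : 0 < 1 - (1 - η') ^ 2 := by nlinarith
  refine ⟨3 / (1 - (1 - η') ^ 2), fun A hA => ?_⟩
  have hA' : A ∈ Icc (-1 : ℝ) 1 := ⟨by linarith [hA.1], hA.2⟩
  rcases lt_or_ge (1 - η') A with h5 | h5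
  · have h6 := h2 hA' (by
      rw [Real.dist_eq, abs_lt]
      constructor
      · linarith [min_le_left η (1 / 2)]
      · linarith [hA.2])
    rw [Real.dist_eq, MM_one hp] at h6
    have h7 : 0 ≤ 3 / (1 - (1 - η') ^ 2) * (1 - A ^ 2) := by
      apply mul_nonneg (by positivity)
      nlinarith [hA.1, hA.2]
    linarith
  · have h6 := MM_pos hp hA'
    have h7 := MM_le_two hp hA'
    have h8 : |MM p A - 1| ≤ 3 := by
      rw [abs_le]
      constructor <;> linarith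
    have h9 : 3 ≤ 3 / (1 - (1 - η') ^ 2) * (1 - A ^ 2) := by
      rw [div_mul_eq_mul_div, le_div_iff₀ hm]
      nlinarith [hA.1]
    linarith

theorem TH_tendsto : Tendsto (TH p) (𝓝[<] 1) (𝓝 π) := by
  rw [Metric.tendsto_nhds]
  intro δ hδ
  obtain ⟨C, hC⟩ := MM_near_one hp (ε := δ / (2 * π)) (by positivity)
  have h1 : Tendsto (fun k : ℝ => π * (δ / (2 * π)) + π * C * √(1 - k ^ 2)) (𝓝[<] 1)
      (𝓝 (π * (δ / (2 * π)) + π * C * √(1 - 1 ^ 2))) :=
    (Continuous.tendsto (by fun_prop) 1).mono_left nhdsWithin_le_nhds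
  have h2 : π * (δ / (2 * π)) + π * C * √(1 - 1 ^ 2) < δ := by
    have := pi_pos
    rw [one_pow, sub_self, sqrt_zero, mul_zero, add_zero]
    field_simp
    linarith
  filter_upwards [h1.eventually_lt_const h2, Ioo_mem_nhdsLT (show (0 : ℝ) < 1 by norm_num)]
    with k h3 h4
  rw [Real.dist_eq]
  exact (TH_sandwich hp hC ⟨h4.1.le, h4.2⟩).trans_lt h3

theorem TH_lt_pi {k : ℝ} (hk : k ∈ Ico (0 : ℝ) 1) : TH p k < π := by
  obtain ⟨b, hb1, hb2⟩ := exists_between hk.2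
  have hb : b ∈ Ico (0 : ℝ) 1 := ⟨hk.1.trans hb1.le, hb2⟩
  have h1 : TH p k < TH p b := TH_strictMono hp hk hb hb1
  have h2 : TH p b ≤ π := by
    apply ge_of_tendsto (TH_tendsto hp)
    filter_upwards [Ioo_mem_nhdsLT hb2] with y hy
    exact ((TH_strictMono hp) hb ⟨hb.1.trans hy.1.le, hy.2⟩ hy.1).le
  linarith

theorem exists_TH_eq {θ : ℝ} (h1 : 2 * π / √(nn p) < θ) (h2 : θ < π) :
    ∃ k ∈ Ioo (0 : ℝ) 1, TH p k = θ := by
  have h3 := (TH_tendsto hp).eventually_const_lt h2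
  obtain ⟨b, hb1, hb2⟩ := (h3.and (Ioo_mem_nhdsLT (show (0 : ℝ) < 1 by norm_num))).exists
  have h4 := intermediate_value_Ioo hb2.1.le ((TH_contOn hp).mono fun x hx =>
    ⟨hx.1, lt_of_le_of_lt hx.2 hb2.2⟩)
  rw [TH_zero hp] at h4
  obtain ⟨k, hk1, hk2⟩ := h4 ⟨h1, hb1⟩
  exact ⟨k, ⟨hk1.1, hk1.2.trans hb2.2⟩, hk2⟩

theorem phi_hasDerivAt (θ : ℝ) {k : ℝ} (hk : k ∈ Ioo (0 : ℝ) 1) :
    HasDerivAt (fun k => JJ p k + θ * √(1 - k ^ 2)) (k / √(1 - k ^ 2) * (TH p k - θ)) k := by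
  refine ((JJ_hasDerivAt hp hk).add ((sqrt_hasDerivAt hp hk).const_mul θ)).congr_deriv ?_
  ring

theorem phi_contOn (θ : ℝ) : ContinuousOn (fun k => JJ p k + θ * √(1 - k ^ 2)) (Icc 0 1) := by
  have := JJ_contOn hp
  fun_prop

theorem phi_min {k0 : ℝ} (hk0 : k0 ∈ Ioo (0 : ℝ) 1) {k : ℝ} (hk : k ∈ Icc (0 : ℝ) 1)
    (hne : k ≠ k0) : JJ p k0 + TH p k0 * √(1 - k0 ^ 2) < JJ p k + TH p k0 * √(1 - k ^ 2) := by
  rcases lt_or_gt_of_ne hne with h | h
  · have := lt_of_hasDerivAt (f := fun k => -(JJ p k + TH p k0 * √(1 - k ^ 2)))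
      (f' := fun k => -(k / √(1 - k ^ 2) * (TH p k - TH p k0))) h
      (((phi_contOn hp (TH p k0)).mono fun x hx => ⟨hk.1.trans hx.1, hx.2.trans hk0.2.le⟩).neg)
      (fun x hx => (phi_hasDerivAt hp (TH p k0)
        ⟨lt_of_le_of_lt hk.1 hx.1, hx.2.trans hk0.2⟩).neg)
      (fun x hx => by
        have hx' : x ∈ Ioo (0 : ℝ) 1 := ⟨lt_of_le_of_lt hk.1 hx.1, hx.2.trans hk0.2⟩
        have h0 := one_sub_sq_pos hp hx'
        have hs : 0 < √(1 - x ^ 2) := Real.sqrt_pos.mpr h0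
        have h1 : TH p x < TH p k0 := TH_strictMono hp ⟨hx'.1.le, hx'.2⟩ ⟨hk0.1.le, hk0.2⟩ hx.2
        have h2 := hx'.1
        have h3 : 0 < TH p k0 - TH p x := by linarith
        have h4 : -(x / √(1 - x ^ 2) * (TH p x - TH p k0)) =
          x / √(1 - x ^ 2) * (TH p k0 - TH p x) := by ring
        rw [h4]
        positivity)
    linarith
  · exact lt_of_hasDerivAt (f := fun k => (JJ p k + TH p k0 * √(1 - k ^ 2)))
      (f' := fun k => (k / √(1 - k ^ 2) * (TH p k - TH p k0))) h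
      (((phi_contOn hp (TH p k0)).mono fun x hx => ⟨hk0.1.le.trans hx.1, hx.2.trans hk.2⟩))
      (fun x hx => (phi_hasDerivAt hp (TH p k0)
        ⟨lt_trans hk0.1 hx.1, lt_of_lt_of_le hx.2 hk.2⟩))
      (fun x hx => by
        have hx' : x ∈ Ioo (0 : ℝ) 1 := ⟨lt_trans hk0.1 hx.1, lt_of_lt_of_le hx.2 hk.2⟩
        have h0 := one_sub_sq_pos hp hx'
        have hs : 0 < √(1 - x ^ 2) := Real.sqrt_pos.mpr h0
        have h1 : TH p k0 < TH p x := TH_strictMono hp ⟨hk0.1.le, hk0.2⟩ ⟨hx'.1.le, hx'.2⟩ hx.1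
        have h2 := hx'.1
        have h3 : 0 < TH p x - TH p k0 := by linarith
        positivity)

theorem phi_pi {k : ℝ} (hk : k ∈ Icc (0 : ℝ) 1) : TT p 1 ≤ JJ p k + π * √(1 - k ^ 2) := by
  rcases hk.2.eq_or_lt with h | h
  · rw [h, JJ_one]
    simp
  · have := lt_of_hasDerivAt (f := fun k => -(JJ p k + π * √(1 - k ^ 2)))
      (f' := fun k => -(k / √(1 - k ^ 2) * (TH p k - π))) h
      (((phi_contOn hp π).mono fun x hx => ⟨hk.1.trans hx.1, hx.2⟩).neg)
      (fun x hx => (phi_hasDerivAt hp π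
        ⟨lt_of_le_of_lt hk.1 hx.1, hx.2⟩).neg)
      (fun x hx => by
        have hx' : x ∈ Ioo (0 : ℝ) 1 := ⟨lt_of_le_of_lt hk.1 hx.1, hx.2⟩
        have h0 := one_sub_sq_pos hp hx'
        have hs : 0 < √(1 - x ^ 2) := Real.sqrt_pos.mpr h0
        have h1 : TH p x < π := TH_lt_pi hp ⟨hx'.1.le, hx'.2⟩
        have h2 := hx'.1
        have h3 : 0 < π - TH p x := by linarith
        have h4 : -(x / √(1 - x ^ 2) * (TH p x - π)) =
          x / √(1 - x ^ 2) * (π - TH p x) := by ring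
        rw [h4]
        positivity)
    simp only [JJ_one, one_pow, sub_self, sqrt_zero, mul_zero, add_zero] at this
    linarith

theorem JJ_pos {k : ℝ} (hk : k ∈ Ioc (0 : ℝ) 1) : 0 < JJ p k := by
  have := lt_of_hasDerivAt (f := fun k => (JJ p k))
      (f' := fun k => (k / √(1 - k ^ 2) * (TH p k))) hk.1
      (((JJ_contOn hp).mono fun x hx => ⟨hx.1, hx.2.trans hk.2⟩))
      (fun x hx => (JJ_hasDerivAt hp
        ⟨hx.1, lt_of_lt_of_le hx.2 hk.2⟩))
      (fun x hx => by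
        have hx' : x ∈ Ioo (0 : ℝ) 1 := ⟨hx.1, lt_of_lt_of_le hx.2 hk.2⟩
        have h0 := one_sub_sq_pos hp hx'
        have hs : 0 < √(1 - x ^ 2) := Real.sqrt_pos.mpr h0
        have h1 : 0 < TH p x := TH_pos hp ⟨hx'.1.le, hx'.2⟩
        have h2 := hx'.1
        positivity)
  simp only [JJ_zero] at this
  exact this

theorem TT_ge_two : 2 ≤ TT p 1 := by
  unfold TT
  have h : ∫ ψ in (0 : ℝ)..(π / 2), sin ψ ≤ ∫ ψ in (0 : ℝ)..(π / 2), MM p (1 * sin ψ) := by
    apply intervalIntegral.integral_mono_on hpi2 (by simp)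
    · apply ContinuousOn.intervalIntegrable
      rw [uIcc_of_le hpi2]
      apply (MM_contOn hp).comp (by fun_prop)
      intro ψ hψ
      have := ksin_mem (k := 1) (by norm_num) hψ
      exact ⟨by linarith [this.1], this.2⟩
    · intro ψ hψ
      have := MM_ge hp (ksin_mem (k := 1) (by norm_num) hψ)
      simpa using this
  have h2 : ∫ ψ in (0 : ℝ)..(π / 2), sin ψ = 1 := by
    rw [integral_sin]
    simp
  linarith

/-- Lower bound of the action. -/
theorem JJ_ge {β : ℝ} (hβ : β ∈ Icc 0 (π / 2)) :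
    2 * sin β - 2 * β * cos β ≤ JJ p (sin β) := by
  rcases hβ.2.eq_or_lt with h | h
  · rw [h, sin_pi_div_two, cos_pi_div_two, JJ_one]
    have := TT_ge_two hp
    linarith
  have hc : 0 < cos β := cos_pos_of_mem_Ioo ⟨by linarith [hβ.1, pi_pos], h⟩
  have hs0 : 0 ≤ sin β := sin_nonneg_of_nonneg_of_le_pi hβ.1 (by linarith [hβ.2, pi_pos])
  have hscβ := sin_sq_add_cos_sq β
  have hs1 : sin β < 1 := by nlinarith
  set k := sin β with hk
  have hk' : k ∈ Ico (0 : ℝ) 1 := ⟨hs0, hs1⟩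
  have hd : ∀ ψ : ℝ, 0 < 1 - (k * sin ψ) ^ 2 := by
    intro ψ
    have h1 := sin_sq_le_one ψ
    rw [mul_pow]
    nlinarith [hk'.1, hk'.2, sq_nonneg k]
  have h1 : ∫ ψ in (0 : ℝ)..(π / 2), (k * sin ψ) * ((k * cos ψ) ^ 2 / (1 - (k * sin ψ) ^ 2)) ≤
      ∫ ψ in (0 : ℝ)..(π / 2), MM p (k * sin ψ) * ((k * cos ψ) ^ 2 / (1 - (k * sin ψ) ^ 2)) := by
    have hfc : Continuous fun ψ => (k * cos ψ) ^ 2 / (1 - (k * sin ψ) ^ 2) := by
      apply Continuous.div (by fun_prop) (by fun_prop)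
      intro ψ
      exact (hd ψ).ne'
    apply intervalIntegral.integral_mono_on hpi2
    · apply Continuous.intervalIntegrable
      fun_prop
    · apply ContinuousOn.intervalIntegrable
      rw [uIcc_of_le hpi2]
      apply ContinuousOn.mul _ hfc.continuousOn
      apply (MM_contOn hp).comp (by fun_prop)
      intro ψ hψ
      have := ksin_mem' hk' hψ
      exact ⟨by linarith [this.1], this.2.le⟩
    · intro ψ hψ
      apply mul_le_mul_of_nonneg_right (MM_ge hp (ksin_mem ⟨hk'.1, hk'.2.le⟩ hψ))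
      exact div_nonneg (sq_nonneg _) (hd ψ).le
  have h2 : ∫ ψ in (0 : ℝ)..(π / 2), (k * sin ψ) * ((k * cos ψ) ^ 2 / (1 - (k * sin ψ) ^ 2)) =
      sin β - β * cos β := by
    have h3 := intervalIntegral.integral_eq_sub_of_hasDerivAt (a := 0) (b := π / 2)
      (f := fun ψ => -(k * cos ψ - cos β * arctan (k * cos ψ / cos β)))
      (f' := fun ψ => (k * sin ψ) * ((k * cos ψ) ^ 2 / (1 - (k * sin ψ) ^ 2)))
      (by
        intro ψ _
        have e1 : HasDerivAt (fun ψ => k * cos ψ) (k * (-sin ψ)) ψ :=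
          (hasDerivAt_cos ψ).const_mul k
        have e2 := (e1.div_const (cos β)).arctan.const_mul (cos β)
        have e3 := (e1.sub e2).neg
        refine HasDerivAt.congr_deriv (f := fun ψ => -(k * cos ψ - cos β *
          arctan (k * cos ψ / cos β))) e3 ?_
        have h4 : 1 - (k * sin ψ) ^ 2 = cos β ^ 2 + (k * cos ψ) ^ 2 := by
          have h5 := sin_sq_add_cos_sq ψ
          have h6 : sin ψ ^ 2 = 1 - cos ψ ^ 2 := by linarith
          have h7 : cos β ^ 2 = 1 - k ^ 2 := by linarith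
          rw [mul_pow, h6, h7]
          ring
        rw [h4]
        have h8 : cos β ^ 2 + (k * cos ψ) ^ 2 ≠ 0 := by positivity
        have h9 : 1 + (k * cos ψ / cos β) ^ 2 = (cos β ^ 2 + (k * cos ψ) ^ 2) / cos β ^ 2 := by
          field_simp
        rw [h9]
        generalize k * cos ψ = w at *
        field_simp
        ring)
      (by
        apply Continuous.intervalIntegrable
        apply Continuous.mul (by fun_prop)
        apply Continuous.div (by fun_prop) (by fun_prop)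
        intro ψ
        exact (hd ψ).ne')
    rw [h3]
    have h10 : arctan (k / cos β) = β := by
      rw [hk, ← tan_eq_sin_div_cos]
      exact arctan_tan (by linarith [hβ.1, pi_pos]) h
    simp only [cos_pi_div_two, mul_zero, zero_div, arctan_zero, sub_self, neg_zero, cos_zero,
      mul_one, h10]
    ring
  unfold JJ
  linarith

end Basic

end Pool.Agent.Helper87.PLap
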