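import Pool.Agent.Helper87.PLap.Arith
import Pool.Agent.Helper87.PLap.Classify
import Pool.Agent.Helper87.PLap.Exist
import Pool.Agent.Helper87.PLap.Defs

set_option autoImplicit false

namespace Pool.Agent.Helper87.PLap

open Real Set Filter Topology MeasureTheory
open Pool.Agent.Helper87.PLapDefs

section Phi

variable {E : Type*} [NormedAddCommGroup E] [InnerProductSpace ℝ E]

/-- The function `φ_r` on an inner product space. -/
noncomputable def ph (r : ℝ) (z : E) : E := ‖z‖ ^ (r - 2) • z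

theorem norm_ph {r : ℝ} (hr : 1 < r) (z : E) : ‖ph r z‖ = ‖z‖ ^ (r - 1) := by
  unfold ph
  rw [norm_smul, Real.norm_eq_abs, abs_of_nonneg (by positivity)]
  rcases (norm_nonneg z).eq_or_lt with h | h
  · rw [← h, mul_zero, zero_rpow (by linarith)]
  · rw [← rpow_add_one h.ne']
    congr 1
    ring

theorem ph_smul {r c : ℝ} (_hr : 1 < r) (hc : 0 < c) (z : E) :
    ph r (c • z) = c ^ (r - 1) • ph r z := by
  unfold ph
  rw [norm_smul, Real.norm_eq_abs, abs_of_pos hc, mul_rpow hc.le (norm_nonneg _), smul_smul,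
    smul_smul]
  congr 1
  have : c ^ (r - 1) = c ^ (r - 2) * c := by
    rw [← rpow_add_one hc.ne']
    congr 1
    ring
  rw [this]
  ring

theorem ph_ph {r r' : ℝ} (hr : 1 < r) (hrr : r * r' = r + r') (z : E) : ph r' (ph r z) = z := by
  rcases (norm_nonneg z).eq_or_lt with h | h
  · have hz : z = 0 := norm_eq_zero.mp h.symm
    rw [hz]
    simp [ph]
  · have h1 := norm_ph hr z
    unfold ph at h1 ⊢
    rw [h1, smul_smul, ← rpow_mul h.le, ← rpow_add h]
    have : (r - 1) * (r' - 2) + (r - 2) = 0 := by linarith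
    rw [this, rpow_zero, one_smul]

theorem ph_cont {r : ℝ} (hr : 1 < r) : Continuous (ph r : E → E) := by
  rw [continuous_iff_continuousAt]
  intro z
  by_cases hz : z = 0
  · rw [hz]
    have h0 : ph r (0 : E) = 0 := by simp [ph]
    rw [ContinuousAt, h0, tendsto_zero_iff_norm_tendsto_zero]
    have h1 : Tendsto (fun z : E => ‖z‖ ^ (r - 1)) (𝓝 0) (𝓝 (‖(0 : E)‖ ^ (r - 1))) := by
      apply Tendsto.rpow_const
      · exact tendsto_norm
      · right
        linarith
    rw [norm_zero, zero_rpow (by linarith)] at h1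
    refine h1.congr fun z => (norm_ph hr z).symm
  · unfold ph
    apply ContinuousAt.smul _ continuousAt_id
    apply ContinuousAt.rpow_const continuousAt_id.norm
    left
    exact norm_ne_zero_iff.mpr hz

end Phi

/-- The isometry between the plane and `ℂ`. -/
noncomputable def iso : Plane ≃ₗᵢ[ℝ] ℂ := Complex.orthonormalBasisOneI.repr.symm

theorem iso_symm_zero (z : ℂ) : (iso.symm z) 0 = z.re := by
  simp [iso]

theorem iso_symm_one (z : ℂ) : (iso.symm z) 1 = z.im := by
  simp [iso]

theorem iso_norm (z : Plane) : ‖iso z‖ = ‖z‖ := iso.norm_map z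

theorem phi_eq_ph (p : ℝ) (z : Plane) : phi p z = ph p z := rfl

section Basic

variable {p : ℝ} (hp : 2 < p)

include hp

theorem inner_aux {x y : ℝ → Plane} {Λ : ℝ}
    (hx : ∀ t, HasDerivAt x (‖y t‖ ^ (qq p - 2) • y t) t)
    (hy : ∀ t, HasDerivAt y (-(Λ • (‖x t‖ ^ (p - 2) • x t))) t) (t t' : ℝ) :
    Λ * ‖x t‖ ^ p / p + ‖y t‖ ^ (qq p) / qq p = Λ * ‖x t'‖ ^ p / p + ‖y t'‖ ^ (qq p) / qq p := by
  have hq := q_pos hp
  have hp0 : 0 < p := by linarith
  have h1 : ∀ t, HasDerivAt (fun t => Λ * ‖x t‖ ^ p / p + ‖y t‖ ^ (qq p) / qq p) 0 t := by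
    intro t
    have e1 := (hasFDerivAt_norm_rpow (x t) (show 1 < p by linarith)).comp_hasDerivAt t (hx t)
    have e2 := (hasFDerivAt_norm_rpow (y t) (one_lt_q hp)).comp_hasDerivAt t (hy t)
    have e3 := ((e1.const_mul Λ).div_const p).add (e2.div_const (qq p))
    refine HasDerivAt.congr_deriv (f := fun t => Λ * ‖x t‖ ^ p / p + ‖y t‖ ^ (qq p) / qq p) e3 ?_
    have e4 : (innerSL ℝ (y t)) (x t) = (innerSL ℝ (x t)) (y t) := by
      simp only [innerSL_apply_apply]
      exact real_inner_comm _ _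
    simp only [smul_apply, map_smul, smul_eq_mul, map_neg, e4]
    field_simp
    ring
  exact is_const_of_deriv_eq_zero (fun t => (h1 t).differentiableAt) (fun t => (h1 t).deriv) t t'

/-- From an eigenfunction to a normalized solution. -/
theorem eigen_to_sol {l : ℝ} (hl : 0 < l) {x : ℝ → Plane} (h : IsEigenfunction p (l ^ p) x) :
    ∃ X Y, Sol p X Y ∧ (∀ t, X (t + l) = X t) ∧ (∀ t, Y (t + l) = Y t) := by
  have hq := q_pos hp
  have hq1 := one_lt_q hp
  have hp0 : 0 < p := by linarith
  have hpq := pq_eq hp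
  set y : ℝ → Plane := fun t => phi p (deriv x t) with hy
  have hx1 : ∀ t, HasDerivAt x (‖y t‖ ^ (qq p - 2) • y t) t := by
    intro t
    have h1 : HasDerivAt x (deriv x t) t :=
      (h.contDiff.differentiable (by norm_num) t).hasDerivAt
    refine h1.congr_deriv ?_
    exact (ph_ph (E := Plane) (show 1 < p by linarith) hpq (deriv x t)).symm
  have hy1 : ∀ t, HasDerivAt y (-((l ^ p) • (‖x t‖ ^ (p - 2) • x t))) t := by
    intro t
    have h1 : HasDerivAt y (deriv y t) t :=
      (h.contDiff_phi.differentiable (by norm_num) t).hasDerivAt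
    refine h1.congr_deriv ?_
    have h2 := h.equation t
    exact eq_neg_of_add_eq_zero_left h2
  have hE := inner_aux hp hx1 hy1
  obtain ⟨t0, ht0⟩ := h.nonzero
  set E := l ^ p * ‖x t0‖ ^ p / p + ‖y t0‖ ^ (qq p) / qq p with hEdef
  have hEpos : 0 < E := by
    have h1 : 0 < ‖x t0‖ := norm_pos_iff.mpr ht0
    have h2 : 0 ≤ ‖y t0‖ := norm_nonneg _
    have h3 : 0 < l ^ p * ‖x t0‖ ^ p / p := by positivity
    have h4 : 0 ≤ ‖y t0‖ ^ (qq p) / qq p := by positivity
    linarith
  have hEt : ∀ t, l ^ p * ‖x t‖ ^ p / p + ‖y t‖ ^ (qq p) / qq p = E := fun t => hE t t0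
  have hper : ∀ t, deriv x (t + 1) = deriv x t := by
    intro t
    have h1 : (fun s => x (s + 1)) = x := funext h.periodic
    have h2 := deriv_comp_add_const x 1 t
    rw [h1] at h2
    exact h2.symm
  set α := l * E ^ (-(1 / p)) with hα
  set β := E ^ (-(1 / qq p)) with hβ
  have hconj : 1 / p + 1 / qq p = 1 := by
    field_simp
    linarith
  have hαpos : 0 < α := by positivity
  have hβpos : 0 < β := by positivity
  have hc1 : β ^ (qq p - 1) = α / l := by
    rw [hα, hβ, ← rpow_mul hEpos.le]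
    have : -(1 / qq p) * (qq p - 1) = -(1 / p) := by
      have h1 : 1 / qq p * qq p = 1 := by field_simp
      linear_combination -h1 + hconj
    rw [this]
    field_simp
  have hc2 : α ^ (p - 1) = β / l * l ^ p := by
    rw [hα, hβ, mul_rpow hl.le (by positivity), ← rpow_mul hEpos.le, rpow_sub_one hl.ne']
    have : -(1 / p) * (p - 1) = -(1 / qq p) := by
      have h1 : 1 / p * p = 1 := by field_simp
      linear_combination -h1 + hconj
    rw [this]
    field_simp
  have hc3 : α ^ p = l ^ p / E := by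
    rw [hα, mul_rpow hl.le (by positivity), ← rpow_mul hEpos.le]
    have : -(1 / p) * p = -1 := by field_simp
    rw [this, rpow_neg_one]
    field_simp
  have hc4 : β ^ (qq p) = 1 / E := by
    rw [hβ, ← rpow_mul hEpos.le]
    have : -(1 / qq p) * qq p = -1 := by field_simp
    rw [this, rpow_neg_one]
    field_simp
  refine ⟨fun t => α • iso (x (t / l)), fun t => β • iso (y (t / l)), ⟨?_, ?_, ?_⟩, ?_, ?_⟩
  · intro t
    have h1 : HasDerivAt (fun t : ℝ => t / l) (1 / l) t := by
      simpa using (hasDerivAt_id t).div_const l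
    have h2 := (hx1 (t / l)).scomp t h1
    have h3 := (iso.toContinuousLinearEquiv.toContinuousLinearMap.hasFDerivAt
      (x := x (t / l))).comp_hasDerivAt t h2
    have h4 := h3.const_smul α
    refine HasDerivAt.congr_deriv (f := fun t => α • iso (x (t / l))) h4 ?_
    have h5 := ph_smul (E := ℂ) hq1 hβpos (iso (y (t / l)))
    unfold ph at h5
    rw [h5, hc1, iso_norm]
    simp only [ContinuousLinearEquiv.coe_coe, LinearIsometryEquiv.coe_toContinuousLinearEquiv,
      map_smul, smul_smul]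
    congr 1
    ring
  · intro t
    have h1 : HasDerivAt (fun t : ℝ => t / l) (1 / l) t := by
      simpa using (hasDerivAt_id t).div_const l
    have h2 := (hy1 (t / l)).scomp t h1
    have h3 := (iso.toContinuousLinearEquiv.toContinuousLinearMap.hasFDerivAt
      (x := y (t / l))).comp_hasDerivAt t h2
    have h4 := h3.const_smul β
    refine HasDerivAt.congr_deriv (f := fun t => β • iso (y (t / l))) h4 ?_
    have h5 := ph_smul (E := ℂ) (show 1 < p by linarith) hαpos (iso (x (t / l)))
    unfold ph at h5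
    rw [h5, hc2, iso_norm]
    simp only [ContinuousLinearEquiv.coe_coe, LinearIsometryEquiv.coe_toContinuousLinearEquiv,
      map_smul, smul_smul, map_neg, smul_neg]
    congr 2
    ring
  · intro t
    rw [norm_smul, norm_smul, Real.norm_eq_abs, Real.norm_eq_abs, abs_of_pos hαpos,
      abs_of_pos hβpos, mul_rpow hαpos.le (norm_nonneg _), mul_rpow hβpos.le (norm_nonneg _),
      hc3, hc4, iso_norm, iso_norm]
    have h1 := hEt (t / l)
    have h2 : l ^ p / E * ‖x (t / l)‖ ^ p / p + 1 / E * ‖y (t / l)‖ ^ (qq p) / qq p =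
      (l ^ p * ‖x (t / l)‖ ^ p / p + ‖y (t / l)‖ ^ (qq p) / qq p) / E := by ring
    rw [h2, h1, div_self hEpos.ne']
  · intro t
    have : (t + l) / l = t / l + 1 := by field_simp
    simp only [this, h.periodic]
  · intro t
    have : (t + l) / l = t / l + 1 := by field_simp
    simp only [this, hy, hper]

/-- From a normalized solution to an eigenfunction. -/
theorem sol_to_eigen {l : ℝ} (hl : 0 < l) {X Y : ℝ → ℂ} (h : Sol p X Y)
    (hXL : ∀ t, X (t + l) = X t) {s : ℝ} (hs : 0 < s) (hZ : ∀ t, (ZZ X Y t).im = s) :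
    ∃ x, IsEigenfunction p (l ^ p) x ∧ ∀ t, scalingMomentum p (l ^ p) x t = s := by
  have hq := q_pos hp
  have hq1 := one_lt_q hp
  have hp0 : 0 < p := by linarith
  have hpq := pq_eq hp
  have hlin : ∀ t, HasDerivAt (fun t : ℝ => l * t) l t := fun t => by
    simpa using (hasDerivAt_id t).const_mul l
  set x : ℝ → Plane := fun t => iso.symm (X (l * t)) with hx
  have hx1 : ∀ t, HasDerivAt x (l • iso.symm (ph (qq p) (Y (l * t)))) t := by
    intro t
    have h2 := (h.hX (l * t)).scomp t (hlin t)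
    have h3 := (iso.symm.toContinuousLinearEquiv.toContinuousLinearMap.hasFDerivAt
      (x := X (l * t))).comp_hasDerivAt t h2
    refine HasDerivAt.congr_deriv (f := x) h3 ?_
    simp only [ContinuousLinearEquiv.coe_coe, LinearIsometryEquiv.coe_toContinuousLinearEquiv,
      map_smul]
    unfold ph
    rw [map_smul]
  have hxd : ∀ t, deriv x t = l • iso.symm (ph (qq p) (Y (l * t))) := fun t => (hx1 t).deriv
  have hy : ∀ t, phi p (deriv x t) = l ^ (p - 1) • iso.symm (Y (l * t)) := by
    intro t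
    rw [hxd, phi_eq_ph, ph_smul (show 1 < p by linarith) hl]
    congr 1
    have h1 : ph p (iso.symm (ph (qq p) (Y (l * t)))) =
        iso.symm (ph p (ph (qq p) (Y (l * t)))) := by
      unfold ph
      rw [LinearIsometryEquiv.norm_map, map_smul]
      simp only [map_smul]
    rw [h1, ph_ph hq1 (by linarith)]
  have hyf : (fun t => phi p (deriv x t)) = fun t => l ^ (p - 1) • iso.symm (Y (l * t)) :=
    funext hy
  have hy1 : ∀ t, HasDerivAt (fun t => phi p (deriv x t))
      (-((l ^ p) • iso.symm (ph p (X (l * t))))) t := by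
    intro t
    rw [hyf]
    have h2 := (h.hY (l * t)).scomp t (hlin t)
    have h3 := (iso.symm.toContinuousLinearEquiv.toContinuousLinearMap.hasFDerivAt
      (x := Y (l * t))).comp_hasDerivAt t h2
    have h4 := h3.const_smul (l ^ (p - 1))
    refine HasDerivAt.congr_deriv (f := fun t => l ^ (p - 1) • iso.symm (Y (l * t))) h4 ?_
    simp only [ContinuousLinearEquiv.coe_coe, LinearIsometryEquiv.coe_toContinuousLinearEquiv,
      map_smul, map_neg, smul_neg, smul_smul]
    unfold ph
    simp only [map_smul, smul_smul]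
    congr 2
    rw [rpow_sub_one hl.ne']
    field_simp
  have hXc : Continuous X := h.X_cont
  have hYc : Continuous Y := h.Y_cont
  have hφx : ∀ t, iso.symm (ph p (X (l * t))) = phi p (x t) := by
    intro t
    unfold ph phi
    simp only [hx, map_smul, LinearIsometryEquiv.norm_map]
  refine ⟨x, ⟨?_, ?_, ?_, ?_, ?_⟩, ?_⟩
  · rw [contDiff_one_iff_deriv]
    refine ⟨fun t => (hx1 t).differentiableAt, ?_⟩
    have : deriv x = fun t => l • iso.symm (ph (qq p) (Y (l * t))) := funext hxd
    rw [this]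
    have h1 : Continuous (fun t => iso.symm (ph (qq p) (Y (l * t)))) :=
      iso.symm.continuous.comp ((ph_cont hq1).comp (by fun_prop))
    exact h1.const_smul l
  · rw [contDiff_one_iff_deriv]
    refine ⟨fun t => (hy1 t).differentiableAt, ?_⟩
    have : deriv (fun t => phi p (deriv x t)) = fun t => -((l ^ p) • iso.symm (ph p (X (l * t)))) :=
      funext fun t => (hy1 t).deriv
    rw [this]
    have h1 : Continuous (fun t => iso.symm (ph p (X (l * t)))) :=
      iso.symm.continuous.comp ((ph_cont (show 1 < p by linarith)).comp (by fun_prop))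
    exact (h1.const_smul (l ^ p)).neg
  · intro t
    rw [(hy1 t).deriv, hφx]
    simp
  · intro t
    simp only [hx]
    congr 1
    have : l * (t + 1) = l * t + l := by ring
    rw [this, hXL]
  · refine ⟨0, ?_⟩
    intro h0
    have h1 : X 0 = 0 := by
      simp only [hx, mul_zero] at h0
      exact (map_eq_zero_iff iso.symm iso.symm.injective).mp h0
    have h2 := hZ 0
    unfold ZZ at h2
    rw [h1] at h2
    simp at h2
    linarith
  · intro t
    have h1 : angularMomentum p x t = l ^ (p - 1) * s := by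
      unfold angularMomentum
      rw [hy t]
      simp only [hx, PiLp.smul_apply, iso_symm_zero, iso_symm_one, smul_eq_mul]
      have h2 := hZ (l * t)
      unfold ZZ at h2
      rw [Complex.mul_im] at h2
      simp only [Complex.star_def, Complex.conj_re, Complex.conj_im] at h2
      rw [← h2]
      ring
    have h2 : energy p (l ^ p) x t = l ^ p := by
      unfold energy
      rw [hy t, norm_smul, Real.norm_eq_abs, abs_of_pos (by positivity),
        mul_rpow (by positivity) (norm_nonneg _), ← rpow_mul hl.le]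
      have h3 : p / (p - 1) = qq p := rfl
      have h4 : (p - 1) * qq p = p := by linarith
      rw [h3, h4]
      have h5 := h.en (l * t)
      simp only [hx, LinearIsometryEquiv.norm_map]
      have h6 : l ^ p * ‖X (l * t)‖ ^ p / p + l ^ p * ‖Y (l * t)‖ ^ (qq p) / qq p =
        l ^ p * (‖X (l * t)‖ ^ p / p + ‖Y (l * t)‖ ^ (qq p) / qq p) := by ring
      rw [h6, h5, mul_one]
    unfold scalingMomentum
    rw [h1, h2, ← rpow_mul hl.le]
    have h3 : p * (1 / p) = 1 := by field_simp
    rw [h3, rpow_one, abs_of_pos (by positivity), rpow_sub_one hl.ne']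
    have : 0 < l ^ p := by positivity
    field_simp

end Basic

theorem main : ∃ p : ℝ, 1 < p ∧ p ≠ 2 ∧ ∃ Λ : ℝ, IsBasicEigenvalue p Λ ∧
    ∃ x₁ x₂ : ℝ → Plane, IsEigenfunction p Λ x₁ ∧ IsEigenfunction p Λ x₂ ∧
      ∃ μ₁ μ₂ : ℝ, μ₁ ≠ μ₂ ∧ (∀ t, scalingMomentum p Λ x₁ t = μ₁) ∧
        (∀ t, scalingMomentum p Λ x₂ t = μ₂) := by
  obtain ⟨p, hp, hF⟩ := exists_cross
  have hp2 : 2 < p := by
    norm_num at hp
    linarith
  have hp0 : 0 < p := by linarith
  obtain ⟨k1, hk1, k2, hk2, V, hne, hV, hθ1, hV1, hθ2, hV2, ha, hb, hc⟩ := arith hp hF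
  have hs1 : 0 < √(1 - k1 ^ 2) := Real.sqrt_pos.mpr (one_sub_sq_pos hp2 hk1)
  have hs2 : 0 < √(1 - k2 ^ 2) := Real.sqrt_pos.mpr (one_sub_sq_pos hp2 hk2)
  obtain ⟨X1, Y1, hsol1, hX1, hY1, hZ1⟩ := exist_sol hp2 hk1 (ν := 25) (α := 6) (by
    push_cast
    exact hθ1)
  obtain ⟨X2, Y2, hsol2, hX2, hY2, hZ2⟩ := exist_sol hp2 hk2 (ν := 17) (α := 8) (by
    push_cast
    exact hθ2)
  have e1 : ((25 : ℕ) : ℝ) * TT p k1 = V := by
    rw [hV1]
    norm_num
  have e2 : ((17 : ℕ) : ℝ) * TT p k2 = V := by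
    rw [hV2]
    norm_num
  rw [e1] at hX1
  rw [e2] at hX2
  obtain ⟨x1, hx1, hm1⟩ := sol_to_eigen hp2 hV hsol1 hX1 hs1 hZ1
  obtain ⟨x2, hx2, hm2⟩ := sol_to_eigen hp2 hV hsol2 hX2 hs2 hZ2
  refine ⟨p, by linarith, by linarith, V ^ p, ⟨⟨by positivity, x1, hx1⟩, ?_⟩, x1, x2, hx1, hx2,
    √(1 - k1 ^ 2), √(1 - k2 ^ 2), ?_, hm1, hm2⟩
  · intro κ hκ hmem
    have hκ0 : (0 : ℝ) < κ := by
      have : 0 < κ := by omega
      exact_mod_cast this
    rw [← div_rpow hV.le hκ0.le] at hmem
    obtain ⟨_, x, hx⟩ := hmem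
    have hl : 0 < V / κ := by positivity
    obtain ⟨X, Y, hsol, hX, hY⟩ := eigen_to_sol hp2 hl hx
    rcases classify hp2 hsol hl hX hY with ⟨k, hk, ν, hν, α, h1, h2⟩ | ⟨m, hm⟩ | ⟨m, hm⟩
    · apply ha κ hκ ν hν α k hk h2
      rw [← h1]
      field_simp
    · apply hb (κ * m)
      rw [div_eq_iff hκ0.ne'] at hm
      rw [hm]
      push_cast
      ring
    · apply hc (κ * m)
      rw [div_eq_iff hκ0.ne'] at hm
      rw [hm]
      push_cast
      ring
  · intro h
    have h1 := one_sub_sq_pos hp2 hk1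
    have h2 := one_sub_sq_pos hp2 hk2
    have h3 : 1 - k1 ^ 2 = 1 - k2 ^ 2 := by
      rw [← Real.sq_sqrt h1.le, ← Real.sq_sqrt h2.le, h]
    have h4 : k1 ^ 2 = k2 ^ 2 := by linarith
    exact hne ((pow_left_inj₀ hk1.1.le hk2.1.le (by norm_num)).mp h4)

end Pool.Agent.Helper87.PLap
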