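import Pool.Agent.Helper87.PLap.Inv

set_option autoImplicit false

namespace Pool.Agent.Helper87.PLap

open Real Set Filter Topology

variable {p : ℝ} (hp : 2 < p)

include hp

theorem GG_contAt {x : ℝ} (h1 : -qq p < x) (h2 : x < p) : ContinuousAt (GG p) x := by
  have h3 : ContinuousOn (GG p) (Icc (-qq p) p) := by
    have := GG_cont.comp (f := fun x : ℝ => ((p, x) : ℝ × ℝ)) (s := Icc (-qq p) p)
      (by fun_prop) (fun x hx => ⟨hp, hx.1, hx.2⟩)
    exact this
  exact h3.continuousAt (Icc_mem_nhds h1 h2)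

theorem AA_hasDerivAt {x : ℝ} (h1 : -qq p < x) (h2 : x < p) :
    HasDerivAt (AA p) (VV p x / (SS p x * GG p x)) x := by
  have hS := S_pos h1 h2
  have hV := V_pos hp h1 h2
  rcases lt_trichotomy x 0 with h | h | h
  · have e1 : HasDerivAt (fun y => -√(1 - VV p y))
        (-(-(-2 * VV p x * x / SS p x) / (2 * √(1 - VV p x)))) x := by
      apply HasDerivAt.neg
      apply HasDerivAt.sqrt
      · exact (V_hasDerivAt hp h1 h2).const_sub 1
      · have := V_lt_one hp h1.le h2.le h.ne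
        linarith
    have e2 : AA p =ᶠ[𝓝 x] fun y => -√(1 - VV p y) := by
      filter_upwards [Iio_mem_nhds h] with y hy
      unfold AA
      rw [if_neg (by simpa using hy)]
    refine (e1.congr_of_eventuallyEq e2).congr_deriv ?_
    have hG : GG p x = -√(1 - VV p x) / x := by
      unfold GG AA
      rw [if_neg h.ne, if_neg (by linarith)]
    have hs : 0 < √(1 - VV p x) := by
      apply Real.sqrt_pos.mpr
      have := V_lt_one hp h1.le h2.le h.ne
      linarith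
    have hx : x ≠ 0 := h.ne
    rw [hG]
    field_simp
  · subst h
    rw [hasDerivAt_iff_tendsto_slope]
    have hn := n_pos hp
    have e1 : VV p 0 / (SS p 0 * GG p 0) = GG p 0 := by
      have h3 := GG_zero hp
      have h4 : SS p 0 = nn p := by
        rw [S_eq]
        ring
      have h5 := GG_pos hp h1.le h2.le
      rw [V_zero, h4, div_eq_iff (by positivity)]
      have : GG p 0 * (nn p * GG p 0) = nn p * GG p 0 ^ 2 := by ring
      rw [this, h3]
      field_simp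
    rw [e1]
    have e2 : Tendsto (GG p) (𝓝[≠] 0) (𝓝 (GG p 0)) :=
      (GG_contAt hp h1 h2).tendsto.mono_left nhdsWithin_le_nhds
    refine e2.congr' ?_
    filter_upwards [self_mem_nhdsWithin] with y hy
    have hy' : y ≠ 0 := hy
    rw [slope_def_field, AA_zero, sub_zero, sub_zero, AA_eq y]
    field_simp
  · have e1 : HasDerivAt (fun y => √(1 - VV p y))
        ((-(-2 * VV p x * x / SS p x) / (2 * √(1 - VV p x)))) x := by
      apply HasDerivAt.sqrt
      · exact (V_hasDerivAt hp h1 h2).const_sub 1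
      · have := V_lt_one hp h1.le h2.le h.ne'
        linarith
    have e2 : AA p =ᶠ[𝓝 x] fun y => √(1 - VV p y) := by
      filter_upwards [Ioi_mem_nhds h] with y hy
      unfold AA
      rw [if_pos (le_of_lt hy)]
    refine (e1.congr_of_eventuallyEq e2).congr_deriv ?_
    have hG : GG p x = √(1 - VV p x) / x := by
      unfold GG AA
      rw [if_neg h.ne', if_pos h.le]
    have hs : 0 < √(1 - VV p x) := by
      apply Real.sqrt_pos.mpr
      have := V_lt_one hp h1.le h2.le h.ne'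
      linarith
    rw [hG]
    field_simp

theorem rh_left : rh p (-1) = -qq p := by
  have hq := q_pos hp
  have := rh_AA hp (x := -qq p) (left_mem_Icc.mpr (by linarith))
  rwa [AA_left hp] at this

theorem rh_right : rh p 1 = p := by
  have hq := q_pos hp
  have := rh_AA hp (x := p) (right_mem_Icc.mpr (by linarith))
  rwa [AA_right hp] at this

theorem rh_zero : rh p 0 = 0 := by
  have hq := q_pos hp
  have := rh_AA hp (x := 0) ⟨by linarith, by linarith⟩
  rwa [AA_zero] at this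

theorem rh_Ioo {A : ℝ} (hA : A ∈ Ioo (-1 : ℝ) 1) : rh p A ∈ Ioo (-qq p) p := by
  have h1 := rh_strictMono hp (left_mem_Icc.mpr (by norm_num)) ⟨hA.1.le, hA.2.le⟩ hA.1
  have h2 := rh_strictMono hp ⟨hA.1.le, hA.2.le⟩ (right_mem_Icc.mpr (by norm_num)) hA.2
  rw [rh_left hp] at h1
  rw [rh_right hp] at h2
  exact ⟨h1, h2⟩

theorem rh_contOn : ContinuousOn (rh p) (Icc (-1) 1) := by
  have := rh_cont.comp (f := fun x : ℝ => ((p, x) : ℝ × ℝ)) (s := Icc (-1 : ℝ) 1)
    (by fun_prop) (fun x hx => ⟨hp, hx⟩)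
  exact this

theorem NN_contOn : ContinuousOn (NN p) (Icc (-1) 1) := by
  have := NN_cont.comp (f := fun x : ℝ => ((p, x) : ℝ × ℝ)) (s := Icc (-1 : ℝ) 1)
    (by fun_prop) (fun x hx => ⟨hp, hx⟩)
  exact this

theorem NN_pos {A : ℝ} (hA : A ∈ Icc (-1 : ℝ) 1) : 0 < NN p A :=
  GG_pos hp (rh_mem hp hA).1 (rh_mem hp hA).2

/-- `V(ρ(A)) = 1 - A²`. -/
theorem VV_rh {A : ℝ} (hA : A ∈ Icc (-1 : ℝ) 1) : VV p (rh p A) = 1 - A ^ 2 := by
  have h1 := AA_sq hp (rh_mem hp hA).1 (rh_mem hp hA).2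
  rw [AA_rh hp hA] at h1
  linarith

theorem rh_mul_NN {A : ℝ} (hA : A ∈ Icc (-1 : ℝ) 1) : rh p A * NN p A = A := by
  unfold NN
  rw [← AA_eq, AA_rh hp hA]

theorem rh_hasDerivAt {A : ℝ} (hA : A ∈ Ioo (-1 : ℝ) 1) :
    HasDerivAt (rh p) (SS p (rh p A) * NN p A / (1 - A ^ 2)) A := by
  have hA' : A ∈ Icc (-1 : ℝ) 1 := ⟨hA.1.le, hA.2.le⟩
  have h1 := rh_Ioo hp hA
  have hS := S_pos h1.1 h1.2
  have hV := V_pos hp h1.1 h1.2
  have hN := NN_pos hp hA'
  have h2 : HasDerivAt (AA p) (VV p (rh p A) / (SS p (rh p A) * NN p A)) (rh p A) :=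
    AA_hasDerivAt hp h1.1 h1.2
  have h3 := HasDerivAt.of_local_left_inverse
    ((rh_contOn hp).continuousAt (Icc_mem_nhds hA.1 hA.2)) h2
    (div_pos hV (mul_pos hS hN)).ne' (by
      filter_upwards [Icc_mem_nhds hA.1 hA.2] with y hy
      exact AA_rh hp hy)
  refine h3.congr_deriv ?_
  rw [inv_div, VV_rh hp hA']

/-- `R(A) = ρ(A)` for `A ∈ (0,1)`. -/
theorem R_pos {A : ℝ} (hA : A ∈ Ioo (0 : ℝ) 1) : 0 < rh p A := by
  have h := rh_strictMono hp (a := 0) (b := A) ⟨by norm_num, by norm_num⟩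
    ⟨by linarith [hA.1], hA.2.le⟩ hA.1
  rwa [rh_zero hp] at h

/-- `r(A) = -ρ(-A)` for `A ∈ (0,1)`. -/
noncomputable def sr (p A : ℝ) : ℝ := -rh p (-A)

theorem sr_pos {A : ℝ} (hA : A ∈ Ioo (0 : ℝ) 1) : 0 < sr p A := by
  have h := rh_strictMono hp (a := -A) (b := 0) ⟨by linarith [hA.2], by linarith [hA.1]⟩
    ⟨by norm_num, by norm_num⟩ (by linarith [hA.1])
  rw [rh_zero hp] at h
  unfold sr
  linarith

theorem R_lt {A : ℝ} (hA : A ∈ Ioo (0 : ℝ) 1) : rh p A < p :=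
  (rh_Ioo hp ⟨by linarith [hA.1], hA.2⟩).2

theorem sr_lt {A : ℝ} (hA : A ∈ Ioo (0 : ℝ) 1) : sr p A < qq p := by
  have := (rh_Ioo hp (A := -A) ⟨by linarith [hA.2], by linarith [hA.1]⟩).1
  unfold sr
  linarith

theorem VV_R {A : ℝ} (hA : A ∈ Ioo (0 : ℝ) 1) : VV p (rh p A) = 1 - A ^ 2 :=
  VV_rh hp ⟨by linarith [hA.1], hA.2.le⟩

theorem VV_sr {A : ℝ} (hA : A ∈ Ioo (0 : ℝ) 1) : VV p (-sr p A) = 1 - A ^ 2 := by
  unfold sr
  rw [neg_neg, VV_rh hp ⟨by linarith [hA.2], by linarith [hA.1]⟩]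
  ring

theorem R_hasDerivAt {A : ℝ} (hA : A ∈ Ioo (0 : ℝ) 1) :
    HasDerivAt (rh p) (SS p (rh p A) * A / ((1 - A ^ 2) * rh p A)) A := by
  have hA' : A ∈ Ioo (-1 : ℝ) 1 := ⟨by linarith [hA.1], hA.2⟩
  refine (rh_hasDerivAt hp hA').congr_deriv ?_
  have h1 := rh_mul_NN hp (A := A) ⟨by linarith [hA.1], hA.2.le⟩
  have h2 := R_pos hp hA
  have h3 : NN p A = A / rh p A := by
    rw [eq_div_iff h2.ne']
    linarith
  rw [h3]
  have h4 : 1 - A ^ 2 ≠ 0 := by
    have := hA.1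
    have := hA.2
    nlinarith
  field_simp

theorem sr_hasDerivAt {A : ℝ} (hA : A ∈ Ioo (0 : ℝ) 1) :
    HasDerivAt (sr p) (SS p (-sr p A) * A / ((1 - A ^ 2) * sr p A)) A := by
  have hA' : -A ∈ Ioo (-1 : ℝ) 1 := ⟨by linarith [hA.2], by linarith [hA.1]⟩
  have h0 := rh_hasDerivAt hp hA'
  have h5 : HasDerivAt (fun A => -rh p (-A))
      (-(SS p (rh p (-A)) * NN p (-A) / (1 - (-A) ^ 2) * (-1))) A := by
    apply HasDerivAt.neg
    exact HasDerivAt.comp (h₂ := rh p) A h0 (hasDerivAt_neg A)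
  refine HasDerivAt.congr_deriv (f := sr p) h5 ?_
  have h1 := rh_mul_NN hp (A := -A) ⟨by linarith [hA.2], by linarith [hA.1]⟩
  have h2 := sr_pos hp hA
  have h6 : rh p (-A) = -sr p A := by
    unfold sr
    ring
  rw [h6] at h1 ⊢
  have h3 : NN p (-A) = A / sr p A := by
    rw [eq_div_iff h2.ne']
    linarith
  rw [h3]
  have h4 : 1 - A ^ 2 ≠ 0 := by
    have := hA.1
    have := hA.2
    nlinarith
  have h7 : 1 - (-A) ^ 2 ≠ 0 := by
    rwa [neg_sq]
  rw [neg_sq]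
  field_simp

end Pool.Agent.Helper87.PLap
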