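import Pool.Agent.Helper87.PLap.Lim

set_option autoImplicit false

namespace Pool.Agent.Helper87.PLap

open Real Set Filter Topology MeasureTheory

section Basic

variable {p : ℝ} (hp : 2 < p)

/-- `a(ψ)`. -/
noncomputable def aa (p ψ : ℝ) : ℝ := 1 + rh p (sin ψ) / qq p

/-- `b(ψ)`. -/
noncomputable def bb (p ψ : ℝ) : ℝ := 1 - rh p (sin ψ) / p

include hp

omit hp in
theorem sin_mem_Icc (ψ : ℝ) : sin ψ ∈ Icc (-1 : ℝ) 1 := ⟨neg_one_le_sin ψ, sin_le_one ψ⟩

omit hp in
theorem sin_mem_Ioo {ψ : ℝ} (h : ψ ∈ Ioo (-(π / 2)) (π / 2)) : sin ψ ∈ Ioo (-1 : ℝ) 1 := by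
  have hc : 0 < cos ψ := cos_pos_of_mem_Ioo h
  have hsc := sin_sq_add_cos_sq ψ
  constructor <;> nlinarith

theorem ff_hasDerivAt {ψ : ℝ} (h : ψ ∈ Ioo (-(π / 2)) (π / 2)) :
    HasDerivAt (fun ψ => (aa p ψ) ^ (1 / p)) ((bb p ψ) ^ (1 / p) * NN p (sin ψ)) ψ ∧
    HasDerivAt (fun ψ => (bb p ψ) ^ (1 / qq p)) (-((aa p ψ) ^ (1 / qq p) * NN p (sin ψ))) ψ := by
  have hc : 0 < cos ψ := cos_pos_of_mem_Ioo h
  have hsm := sin_mem_Ioo h
  have hq := q_pos hp
  have hp0 : 0 < p := by linarith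
  have hρ := rh_Ioo hp hsm
  have ha : 0 < aa p ψ := a_pos hp hρ.1
  have hb : 0 < bb p ψ := b_pos hp hρ.2
  have hV : VV p (rh p (sin ψ)) = cos ψ ^ 2 := by
    rw [VV_rh hp (sin_mem_Icc ψ)]
    have := sin_sq_add_cos_sq ψ
    linarith
  have hV2 : VV p (rh p (sin ψ)) = ((aa p ψ) ^ (1 / p) * (bb p ψ) ^ (1 / qq p)) ^ 2 := by
    have e1 : (2 : ℝ) / p = 1 / p * 2 := by ring
    have e2 : (2 : ℝ) / qq p = 1 / qq p * 2 := by ring
    have h1 : (aa p ψ) ^ (2 / p) = ((aa p ψ) ^ (1 / p)) ^ 2 := by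
      rw [e1, rpow_mul ha.le, rpow_ofNat]
    have h2 : (bb p ψ) ^ (2 / qq p) = ((bb p ψ) ^ (1 / qq p)) ^ 2 := by
      rw [e2, rpow_mul hb.le, rpow_ofNat]
    rw [mul_pow, ← h1, ← h2]
    rfl
  have hcos : cos ψ = (aa p ψ) ^ (1 / p) * (bb p ψ) ^ (1 / qq p) := by
    have h3 : cos ψ ^ 2 = ((aa p ψ) ^ (1 / p) * (bb p ψ) ^ (1 / qq p)) ^ 2 := by
      rw [← hV, hV2]
    exact (pow_left_inj₀ hc.le (by positivity) (by norm_num)).mp h3
  have hS : SS p (rh p (sin ψ)) = nn p * (aa p ψ * bb p ψ) := by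
    unfold SS nn aa bb
    field_simp
  have hconj : 1 / p + 1 / qq p = 1 := by
    have := pq_eq hp
    field_simp
    linarith
  have hbq : (bb p ψ) ^ (1 / p) * (bb p ψ) ^ (1 / qq p) = bb p ψ := by
    rw [← rpow_add hb, hconj, rpow_one]
  have haq : (aa p ψ) ^ (1 / p) * (aa p ψ) ^ (1 / qq p) = aa p ψ := by
    rw [← rpow_add ha, hconj, rpow_one]
  have e1 := HasDerivAt.comp (h₂ := rh p) ψ (rh_hasDerivAt hp hsm) (hasDerivAt_sin ψ)
  have e2 : HasDerivAt (fun ψ => rh p (sin ψ)) (SS p (rh p (sin ψ)) * NN p (sin ψ) / cos ψ) ψ := by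
    refine HasDerivAt.congr_deriv (f := fun ψ => rh p (sin ψ)) e1 ?_
    have : 1 - sin ψ ^ 2 = cos ψ ^ 2 := by
      have := sin_sq_add_cos_sq ψ
      linarith
    rw [this]
    field_simp
  have e3 : HasDerivAt (aa p) (SS p (rh p (sin ψ)) * NN p (sin ψ) / cos ψ / qq p) ψ :=
    (e2.div_const (qq p)).const_add 1
  have e4 : HasDerivAt (bb p) (-(SS p (rh p (sin ψ)) * NN p (sin ψ) / cos ψ / p)) ψ :=
    (e2.div_const p).const_sub 1
  have hfa : 0 < (aa p ψ) ^ (1 / p) := rpow_pos_of_pos ha _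
  have hfb : 0 < (bb p ψ) ^ (1 / qq p) := rpow_pos_of_pos hb _
  have hn' : nn p = p * qq p := rfl
  constructor
  · have e5 := e3.rpow_const (p := 1 / p) (Or.inl ha.ne')
    refine e5.congr_deriv ?_
    rw [rpow_sub_one ha.ne', hS, hcos, hn']
    generalize NN p (sin ψ) = N
    generalize hB1 : (bb p ψ) ^ (1 / p) = B1 at *
    generalize hB2 : (bb p ψ) ^ (1 / qq p) = B2 at *
    generalize hA1 : (aa p ψ) ^ (1 / p) = A1 at *
    rw [← hbq]
    field_simp
  · have e5 := e4.rpow_const (p := 1 / qq p) (Or.inl hb.ne')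
    refine e5.congr_deriv ?_
    rw [rpow_sub_one hb.ne', hS, hcos, hn']
    generalize NN p (sin ψ) = N
    generalize hB1 : (bb p ψ) ^ (1 / qq p) = B1 at *
    generalize hB2 : (aa p ψ) ^ (1 / qq p) = A2 at *
    generalize hA1 : (aa p ψ) ^ (1 / p) = A1 at *
    rw [← haq]
    field_simp

omit hp in
theorem sin_cont' : ContinuousOn sin (Icc (-(π / 2)) (π / 2)) := continuous_sin.continuousOn

theorem rhsin_cont : Continuous (fun ψ => rh p (sin ψ)) := by
  have := (rh_contOn hp).comp (s := univ) (f := sin) continuous_sin.continuousOn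
    (fun ψ _ => sin_mem_Icc ψ)
  exact continuousOn_univ.mp this

theorem NNsin_cont : Continuous (fun ψ => NN p (sin ψ)) := by
  have := (NN_contOn hp).comp (s := univ) (f := sin) continuous_sin.continuousOn
    (fun ψ _ => sin_mem_Icc ψ)
  exact continuousOn_univ.mp this

theorem TT_one_eq : TT p 1 = 2 * ∫ ψ in (-(π / 2))..(π / 2), NN p (sin ψ) := by
  unfold TT MM
  have h1 : IntervalIntegrable (fun ψ => NN p (sin ψ)) volume 0 (π / 2) :=
    (NNsin_cont hp).intervalIntegrable _ _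
  have h2 : IntervalIntegrable (fun ψ => NN p (-sin ψ)) volume 0 (π / 2) := by
    have := (NNsin_cont hp).comp continuous_neg
    simp only [Function.comp_def, sin_neg] at this
    exact this.intervalIntegrable _ _
  simp only [one_mul]
  rw [intervalIntegral.integral_add h1 h2]
  have h3 : ∫ ψ in (0 : ℝ)..(π / 2), NN p (-sin ψ) = ∫ ψ in (-(π / 2))..0, NN p (sin ψ) := by
    have := intervalIntegral.integral_comp_neg (a := 0) (b := π / 2) (fun ψ => NN p (sin ψ))
    simp only [sin_neg, neg_zero] at this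
    exact this
  rw [h3, add_comm, intervalIntegral.integral_add_adjacent_intervals]
  · exact (NNsin_cont hp).intervalIntegrable _ _
  · exact h1

theorem aa_bounds (ψ : ℝ) : 0 ≤ aa p ψ ∧ 0 ≤ bb p ψ ∧ bb p ψ ≤ qq p ∧ aa p ψ ≤ p ∧
    aa p ψ / p + bb p ψ / qq p = 1 := by
  have hρ := rh_mem hp (sin_mem_Icc ψ)
  have hq := q_pos hp
  have hp0 : 0 < p := by linarith
  have hpq := pq_eq hp
  have h3 : aa p ψ / p + bb p ψ / qq p = 1 := by
    unfold aa bb
    field_simp
    linarith
  have h1 : 0 ≤ aa p ψ := a_nonneg hp hρ.1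
  have h2 : 0 ≤ bb p ψ := b_nonneg hp hρ.2
  refine ⟨h1, h2, ?_, ?_, h3⟩
  · have h4 : bb p ψ / qq p ≤ 1 := by
      have : 0 ≤ aa p ψ / p := by positivity
      linarith
    rwa [div_le_one hq] at h4
  · have h4 : aa p ψ / p ≤ 1 := by
      have : 0 ≤ bb p ψ / qq p := by positivity
      linarith
    rwa [div_le_one hp0] at h4

theorem aa_right : aa p (π / 2) = p := by
  have hq := q_pos hp
  have hpq := pq_eq hp
  unfold aa
  rw [sin_pi_div_two, rh_right hp]
  field_simp
  linarith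

theorem aa_left : aa p (-(π / 2)) = 0 := by
  have hq := q_pos hp
  unfold aa
  rw [sin_neg, sin_pi_div_two, rh_left hp]
  field_simp
  ring

theorem bb_right : bb p (π / 2) = 0 := by
  unfold bb
  rw [sin_pi_div_two, rh_right hp, div_self (by linarith)]
  ring

theorem bb_left : bb p (-(π / 2)) = qq p := by
  have hpq := pq_eq hp
  unfold bb
  rw [sin_neg, sin_pi_div_two, rh_left hp]
  field_simp
  linarith

theorem aa_cont : Continuous (aa p) := by
  unfold aa
  have := rhsin_cont hp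
  fun_prop

theorem bb_cont : Continuous (bb p) := by
  unfold bb
  have := rhsin_cont hp
  fun_prop

/-- `T(1) ≥ 2 (p/q)^{1/p}`. -/
theorem TT_one_ge : 2 * (p / qq p) ^ (1 / p) ≤ TT p 1 := by
  have hq := q_pos hp
  have hp0 : 0 < p := by linarith
  rw [TT_one_eq hp]
  have h := intervalIntegral.sub_le_integral_of_hasDeriv_right_of_le (a := -(π / 2)) (b := π / 2)
    (g := fun ψ => (aa p ψ) ^ (1 / p) / (qq p) ^ (1 / p))
    (g' := fun ψ => (bb p ψ) ^ (1 / p) * NN p (sin ψ) / (qq p) ^ (1 / p))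
    (φ := fun ψ => NN p (sin ψ)) (by linarith [pi_pos])
    (by
      apply ContinuousOn.div_const
      apply Continuous.continuousOn
      apply (aa_cont hp).rpow_const
      intro x
      right
      positivity)
    (fun ψ hψ => ((ff_hasDerivAt hp hψ).1.div_const _).hasDerivWithinAt)
    ((NNsin_cont hp).continuousOn.integrableOn_Icc)
    (by
      intro ψ hψ
      have h1 := aa_bounds hp ψ
      have h2 := NN_pos hp (sin_mem_Icc ψ)
      have h3 : 0 < (qq p) ^ (1 / p) := rpow_pos_of_pos hq _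
      rw [div_le_iff₀ h3, mul_comm]
      apply mul_le_mul_of_nonneg_left _ h2.le
      exact rpow_le_rpow h1.2.1 h1.2.2.1 (by positivity))
  simp only [aa_right hp, aa_left hp] at h
  rw [zero_rpow (by positivity), zero_div, sub_zero, ← div_rpow hp0.le hq.le] at h
  linarith

/-- `T(1) ≤ 2 p^{1/p} (1 + q/p)`. -/
theorem TT_one_le : TT p 1 ≤ 2 * (p ^ (1 / p) * (1 + qq p / p)) := by
  have hq := q_pos hp
  have hp0 : 0 < p := by linarith
  have hconj : 1 / p + 1 / qq p = 1 := by
    have := pq_eq hp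
    field_simp
    linarith
  rw [TT_one_eq hp]
  have h := intervalIntegral.integral_le_sub_of_hasDeriv_right_of_le (a := -(π / 2)) (b := π / 2)
    (g := fun ψ => (aa p ψ) ^ (1 / p) - p ^ (-(1 / qq p)) * (bb p ψ) ^ (1 / qq p))
    (g' := fun ψ => (bb p ψ) ^ (1 / p) * NN p (sin ψ) -
      p ^ (-(1 / qq p)) * (-((aa p ψ) ^ (1 / qq p) * NN p (sin ψ))))
    (φ := fun ψ => NN p (sin ψ)) (by linarith [pi_pos])
    (by
      apply Continuous.continuousOn
      apply Continuous.sub
      · apply (aa_cont hp).rpow_const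
        intro x
        right
        positivity
      · apply Continuous.mul continuous_const
        apply (bb_cont hp).rpow_const
        intro x
        right
        positivity)
    (fun ψ hψ => ((ff_hasDerivAt hp hψ).1.sub
      ((ff_hasDerivAt hp hψ).2.const_mul _)).hasDerivWithinAt)
    ((NNsin_cont hp).continuousOn.integrableOn_Icc)
    (by
      intro ψ hψ
      obtain ⟨h1, h2, h3, h4, h5⟩ := aa_bounds hp ψ
      have h6 := NN_pos hp (sin_mem_Icc ψ)
      have h7 : bb p ψ / qq p ≤ (bb p ψ) ^ (1 / p) := by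
        have h8 : bb p ψ / qq p ≤ (bb p ψ / qq p) ^ (1 / p) := by
          have h9 : bb p ψ / qq p ≤ 1 := by
            have : 0 ≤ aa p ψ / p := by positivity
            linarith
          have h10 : 1 / p ≤ 1 := by
            rw [div_le_one hp0]
            linarith
          have h11 : 0 ≤ bb p ψ / qq p := by positivity
          calc bb p ψ / qq p = (bb p ψ / qq p) ^ (1 : ℝ) := (rpow_one _).symm
            _ ≤ (bb p ψ / qq p) ^ (1 / p) := by
              rcases h11.eq_or_lt with h12 | h12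
              · rw [← h12, zero_rpow (by norm_num), zero_rpow (by positivity)]
              · exact rpow_le_rpow_of_exponent_ge h12 h9 h10
        have h13 : (bb p ψ / qq p) ^ (1 / p) ≤ (bb p ψ) ^ (1 / p) := by
          apply rpow_le_rpow (by positivity) _ (by positivity)
          apply div_le_self h2 (one_lt_q hp).le
        linarith
      have h14 : aa p ψ / p ≤ p ^ (-(1 / qq p)) * (aa p ψ) ^ (1 / qq p) := by
        have h15 : p ^ (-(1 / qq p)) * (aa p ψ) ^ (1 / qq p) = (aa p ψ / p) ^ (1 / qq p) := by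
          rw [div_rpow h1 hp0.le, rpow_neg hp0.le]
          ring
        rw [h15]
        have h9 : aa p ψ / p ≤ 1 := by
          have : 0 ≤ bb p ψ / qq p := by positivity
          linarith
        have h10 : 1 / qq p ≤ 1 := by
          rw [div_le_one hq]
          exact (one_lt_q hp).le
        have h11 : 0 ≤ aa p ψ / p := by positivity
        calc aa p ψ / p = (aa p ψ / p) ^ (1 : ℝ) := (rpow_one _).symm
            _ ≤ (aa p ψ / p) ^ (1 / qq p) := by
              rcases h11.eq_or_lt with h12 | h12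
              · rw [← h12, zero_rpow (by norm_num), zero_rpow (by positivity)]
              · exact rpow_le_rpow_of_exponent_ge h12 h9 h10
      have h16 : (bb p ψ) ^ (1 / p) * NN p (sin ψ) -
          p ^ (-(1 / qq p)) * (-((aa p ψ) ^ (1 / qq p) * NN p (sin ψ))) =
          ((bb p ψ) ^ (1 / p) + p ^ (-(1 / qq p)) * (aa p ψ) ^ (1 / qq p)) * NN p (sin ψ) := by
        ring
      rw [h16]
      have h17 : 1 ≤ (bb p ψ) ^ (1 / p) + p ^ (-(1 / qq p)) * (aa p ψ) ^ (1 / qq p) := by
        linarith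
      nlinarith)
  simp only [aa_right hp, aa_left hp, bb_right hp, bb_left hp] at h
  rw [zero_rpow (by positivity), zero_rpow (by positivity), mul_zero, sub_zero, zero_sub,
    sub_neg_eq_add] at h
  have h2 : p ^ (-(1 / qq p)) * (qq p) ^ (1 / qq p) ≤ p ^ (1 / p) * (qq p / p) := by
    have e1 : -(1 / qq p) = 1 / p - 1 := by linarith
    rw [e1, rpow_sub_one hp0.ne']
    have e2 : (qq p) ^ (1 / qq p) ≤ qq p := by
      calc (qq p) ^ (1 / qq p) ≤ (qq p) ^ (1 : ℝ) := by
            apply rpow_le_rpow_of_exponent_le (one_lt_q hp).le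
            rw [div_le_one hq]
            exact (one_lt_q hp).le
        _ = qq p := rpow_one _
    have e3 : 0 < p ^ (1 / p) := rpow_pos_of_pos hp0 _
    calc p ^ (1 / p) / p * (qq p) ^ (1 / qq p) ≤ p ^ (1 / p) / p * qq p :=
          mul_le_mul_of_nonneg_left e2 (by positivity)
      _ = p ^ (1 / p) * (qq p / p) := by ring
  linarith

end Basic

end Pool.Agent.Helper87.PLap
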