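import Pool.Agent.Helper87.PLap.Lim

set_option autoImplicit false

namespace Pool.Agent.Helper87.PLap

open Real Set Filter Topology MeasureTheory

theorem int_sin {F : ℝ → ℝ} (hF : Continuous (fun u => F (sin u))) (a : ℝ) (ν : ℤ) :
    ∫ u in a..(a + ν * (2 * π)), F (sin u) =
      ν * (2 * ∫ u in (0 : ℝ)..(π / 2), (F (sin u) + F (-sin u))) := by
  have hper : Function.Periodic (fun u => F (sin u)) (2 * π) := by
    intro u
    simp only [sin_add_two_pi]
  have h1 := hper.intervalIntegral_add_zsmul_eq ν a (fun _ _ => hF.intervalIntegrable _ _)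
  rw [zsmul_eq_mul, zsmul_eq_mul] at h1
  rw [h1]
  congr 1
  rw [hper.intervalIntegral_add_eq a (-(π / 2))]
  have h2 : -(π / 2) + 2 * π = 3 * π / 2 := by ring
  rw [h2, ← intervalIntegral.integral_add_adjacent_intervals (b := π / 2)
    (hF.intervalIntegrable _ _) (hF.intervalIntegrable _ _)]
  have h3 : ∫ u in (π / 2)..(3 * π / 2), F (sin u) = ∫ u in (-(π / 2))..(π / 2), F (sin u) := by
    have := intervalIntegral.integral_comp_sub_left (a := -(π / 2)) (b := π / 2)
      (fun u => F (sin u)) π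
    simp only [sin_pi_sub] at this
    rw [this]
    congr 1 <;> ring
  rw [h3]
  have h4 : ∫ u in (0 : ℝ)..(π / 2), F (-sin u) = ∫ u in (-(π / 2))..0, F (sin u) := by
    have := intervalIntegral.integral_comp_neg (a := 0) (b := π / 2) (fun u => F (sin u))
    simp only [sin_neg, neg_zero] at this
    exact this
  have hF' : Continuous (fun u => F (-sin u)) := by
    have := hF.comp continuous_neg
    simpa [Function.comp_def, sin_neg] using this
  rw [intervalIntegral.integral_add (hF.intervalIntegrable _ _) (hF'.intervalIntegrable _ _), h4]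
  rw [← intervalIntegral.integral_add_adjacent_intervals (a := -(π / 2)) (b := 0) (c := π / 2)
    (hF.intervalIntegrable _ _) (hF.intervalIntegrable _ _)]
  ring

section Basic

variable {p : ℝ} (hp : 2 < p)

include hp

omit hp in
theorem ksin_mem_Icc {k : ℝ} (hk : k ∈ Icc (0 : ℝ) 1) (u : ℝ) : k * sin u ∈ Icc (-1 : ℝ) 1 := by
  have h1 := neg_one_le_sin u
  have h2 := sin_le_one u
  constructor
  · nlinarith [hk.1, hk.2]
  · nlinarith [hk.1, hk.2]

theorem NNk_cont {k : ℝ} (hk : k ∈ Icc (0 : ℝ) 1) : Continuous (fun u => NN p (k * sin u)) := by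
  have := (NN_contOn hp).comp (s := univ) (f := fun u => k * sin u)
    (by fun_prop) (fun ψ _ => ksin_mem_Icc hk ψ)
  exact continuousOn_univ.mp this

theorem int_TT {k : ℝ} (hk : k ∈ Icc (0 : ℝ) 1) (a : ℝ) (ν : ℤ) :
    ∫ u in a..(a + ν * (2 * π)), NN p (k * sin u) = ν * TT p k := by
  rw [int_sin (F := fun x => NN p (k * x)) (NNk_cont hp hk) a ν]
  unfold TT MM
  simp only [mul_neg]

theorem int_TH {k : ℝ} (hk : k ∈ Ico (0 : ℝ) 1) (a : ℝ) (ν : ℤ) :
    √(1 - k ^ 2) * ∫ u in a..(a + ν * (2 * π)), NN p (k * sin u) / (1 - (k * sin u) ^ 2) =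
      ν * TH p k := by
  have hd : ∀ ψ : ℝ, 0 < 1 - (k * sin ψ) ^ 2 := by
    intro ψ
    have h1 := sin_sq_le_one ψ
    rw [mul_pow]
    nlinarith [hk.1, hk.2, sq_nonneg k]
  rw [int_sin (F := fun x => NN p (k * x) / (1 - (k * x) ^ 2)) (by
    apply (NNk_cont hp ⟨hk.1, hk.2.le⟩).div (by fun_prop)
    intro ψ
    exact (hd ψ).ne') a ν]
  unfold TH MM
  have : ∀ u, NN p (k * sin u) / (1 - (k * sin u) ^ 2) + NN p (k * -sin u) /
      (1 - (k * -sin u) ^ 2) = (NN p (k * sin u) + NN p (-(k * sin u))) /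
      (1 - (k * sin u) ^ 2) := by
    intro u
    rw [mul_neg, neg_sq, add_div]
  simp only [this]
  ring

end Basic

end Pool.Agent.Helper87.PLap
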