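import Pool.Agent.Helper87.PLap.Mono

set_option autoImplicit false

namespace Pool.Agent.Helper87.PLap

open Real Set Filter Topology

/-- `ω₊ = S(R)(R² - nA²)/R³`. -/
noncomputable def wp (p A : ℝ) : ℝ :=
  SS p (rh p A) * ((rh p A) ^ 2 - nn p * A ^ 2) / (rh p A) ^ 3

/-- `ω₋ = S(-r)(nA² - r²)/r³`. -/
noncomputable def wm (p A : ℝ) : ℝ :=
  SS p (-sr p A) * (nn p * A ^ 2 - (sr p A) ^ 2) / (sr p A) ^ 3

/-- `λ₊ = S(R)/R²`. -/
noncomputable def lp (p A : ℝ) : ℝ := SS p (rh p A) / (rh p A) ^ 2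

/-- `λ₋ = S(-r)/r²`. -/
noncomputable def lm (p A : ℝ) : ℝ := SS p (-sr p A) / (sr p A) ^ 2

theorem eventually_lt_left {f : ℝ → ℝ} {f' x : ℝ} (h : HasDerivAt f f' x) (hf : 0 < f') :
    ∀ᶠ y in 𝓝[<] x, f y < f x := by
  rw [hasDerivAt_iff_tendsto_slope] at h
  have h1 : ∀ᶠ y in 𝓝[≠] x, 0 < slope f x y := h.eventually_const_lt hf
  have h2 : ∀ᶠ y in 𝓝[<] x, 0 < slope f x y :=
    h1.filter_mono (nhdsWithin_mono _ fun y hy => ne_of_lt hy)
  filter_upwards [h2, self_mem_nhdsWithin] with y hy hy'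
  rw [slope_def_field] at hy
  have h3 : y - x < 0 := by
    have : y < x := hy'
    linarith
  rcases div_pos_iff.mp hy with h4 | h4
  · linarith [h4.2]
  · linarith [h4.1]

theorem pos_of_ode {f f' : ℝ → ℝ} (hd : ∀ x ∈ Ioo (0 : ℝ) 1, HasDerivAt f (f' x) x)
    (h : ∀ x ∈ Ioo (0 : ℝ) 1, f x ≤ 0 → 0 < f' x)
    (hlim : ∀ ε > 0, ∀ᶠ x in 𝓝[>] (0 : ℝ), -ε < f x) :
    ∀ x ∈ Ioo (0 : ℝ) 1, 0 < f x := by
  intro b hb
  by_contra hneg
  push Not at hneg
  have h1 := eventually_lt_left (hd b hb) (h b hb hneg)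
  have h2 : ∀ᶠ y in 𝓝[<] b, y ∈ Ioo 0 b := by
    apply Ioo_mem_nhdsLT hb.1
  obtain ⟨c, hc1, hc2⟩ := (h1.and h2).exists
  have hc3 : f c < 0 := by linarith
  have h3 : ∀ᶠ x in 𝓝[>] (0 : ℝ), f c < f x := by
    have := hlim (-f c) (by linarith)
    simpa using this
  have h4 : ∀ᶠ x in 𝓝[>] (0 : ℝ), x ∈ Ioo 0 c := Ioo_mem_nhdsGT hc2.1
  obtain ⟨x1, hx1, hx2⟩ := (h3.and h4).exists
  have hsub : Icc x1 c ⊆ Ioo (0 : ℝ) 1 := fun y hy =>
    ⟨by linarith [hy.1, hx2.1], by linarith [hy.2, hc2.2, hb.2]⟩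
  have hcont : ContinuousOn f (Icc x1 c) := fun y hy =>
    (hd y (hsub hy)).continuousAt.continuousWithinAt
  obtain ⟨m, hm, hmin⟩ := isCompact_Icc.exists_isMinOn (nonempty_Icc.mpr hx2.2.le) hcont
  have hmc : f m ≤ f c := hmin (right_mem_Icc.mpr hx2.2.le)
  have hm1 : x1 ≠ m := by
    rintro rfl
    linarith
  have hm2 : x1 < m := lt_of_le_of_ne hm.1 hm1
  have h5 := eventually_lt_left (hd m (hsub hm)) (h m (hsub hm) (by linarith))
  have h6 : ∀ᶠ y in 𝓝[<] m, y ∈ Ioo x1 m := Ioo_mem_nhdsLT hm2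
  obtain ⟨y, hy1, hy2⟩ := (h5.and h6).exists
  have : f m ≤ f y := hmin ⟨hy2.1.le, by linarith [hy2.2, hm.2]⟩
  linarith

section Basic

variable {p : ℝ} (hp : 2 < p)

include hp

/-- `g(x) = (n - x²)/V(x)`. -/
theorem g_hasDerivAt {x : ℝ} (h1 : -qq p < x) (h2 : x < p) :
    HasDerivAt (fun x => (nn p - x ^ 2) / VV p x)
      (-(2 * dd p * x ^ 2 / (SS p x * VV p x))) x := by
  have hS := S_pos h1 h2
  have hV := V_pos hp h1 h2
  have e1 := V_hasDerivAt hp h1 h2
  have e2 : HasDerivAt (fun x => nn p - x ^ 2) (-(2 * x)) x := by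
    simpa using (hasDerivAt_pow 2 x).const_sub (nn p)
  refine (e2.div e1 hV.ne').congr_deriv ?_
  have hn : nn p = SS p x - dd p * x + x ^ 2 := by
    rw [S_eq]
    ring
  rw [hn]
  field_simp
  ring

/-- `S V` has derivative `(d - 4x) V`. -/
theorem SV_hasDerivAt {x : ℝ} (h1 : -qq p < x) (h2 : x < p) :
    HasDerivAt (fun x => SS p x * VV p x) ((dd p - 4 * x) * VV p x) x := by
  have hS := S_pos h1 h2
  have e1 := V_hasDerivAt hp h1 h2
  have e2 : HasDerivAt (fun x => nn p + dd p * x) (dd p) x := by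
    simpa using ((hasDerivAt_id x).const_mul (dd p)).const_add (nn p)
  have e3 : HasDerivAt (SS p) (dd p - 2 * x) x := by
    have : HasDerivAt (fun x => nn p + dd p * x - x ^ 2) (dd p - 2 * x) x :=
      (e2.sub (hasDerivAt_pow 2 x)).congr_deriv (by simp)
    have h4 : SS p = fun x => nn p + dd p * x - x ^ 2 := by
      funext y
      exact S_eq y
    rw [h4]
    exact this
  refine (e3.mul e1).congr_deriv ?_
  field_simp
  ring

/-- Lower bound: `V (n - g) ≥ (2d/3) x³ V / (n + d x)` for `x ≥ 0`. -/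
theorem g_lower {x : ℝ} (h1 : 0 ≤ x) (h2 : x < p) :
    (2 * dd p / 3) * x ^ 3 / (nn p + dd p * x) ≤ nn p - (nn p - x ^ 2) / VV p x := by
  have hq := q_pos hp
  have hd := d_pos hp
  have hn := n_pos hp
  have hm : 0 < nn p + dd p * x := by positivity
  have := le_of_hasDerivAt
    (f := fun y => nn p - (nn p - y ^ 2) / VV p y - (2 * dd p / 3) * y ^ 3 / (nn p + dd p * x))
    (f' := fun y => 2 * dd p * y ^ 2 / (SS p y * VV p y)
      - (2 * dd p / 3) * (3 * y ^ 2) / (nn p + dd p * x)) h1
    (by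
      intro y hy
      apply ContinuousAt.continuousWithinAt
      have h3 := (g_hasDerivAt hp (x := y) (by linarith [hy.1]) (by linarith [hy.2])).continuousAt
      exact (continuousAt_const.sub h3).sub (by fun_prop))
    (fun y hy => by
      have h3 := (g_hasDerivAt hp (x := y) (by linarith [hy.1]) (by linarith [hy.2])).const_sub
        (nn p)
      have h4 : HasDerivAt (fun y => (2 * dd p / 3) * y ^ 3 / (nn p + dd p * x))
          ((2 * dd p / 3) * (3 * y ^ 2) / (nn p + dd p * x)) y := by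
        have := ((hasDerivAt_pow 3 y).const_mul (2 * dd p / 3)).div_const (nn p + dd p * x)
        refine this.congr_deriv ?_
        norm_num
      refine (h3.sub h4).congr_deriv ?_
      ring)
    (fun y hy => by
      have h3 := V_pos hp (x := y) (by linarith [hy.1]) (by linarith [hy.2])
      have h4 := S_pos (p := p) (x := y) (by linarith [hy.1]) (by linarith [hy.2])
      have h5 := V_le_one hp (x := y) (by linarith [hy.1]) (by linarith [hy.2])
      have h6 : SS p y ≤ nn p + dd p * x := by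
        rw [S_eq]
        nlinarith [hy.1, hy.2]
      have h7 : SS p y * VV p y ≤ nn p + dd p * x := by nlinarith
      have h8 : 2 * dd p * y ^ 2 / (nn p + dd p * x) ≤ 2 * dd p * y ^ 2 / (SS p y * VV p y) := by
        apply div_le_div_of_nonneg_left (by positivity) (by positivity) h7
      have h9 : (2 * dd p / 3) * (3 * y ^ 2) / (nn p + dd p * x) =
        2 * dd p * y ^ 2 / (nn p + dd p * x) := by ring
      rw [h9]
      linarith)
  simp only [V_zero] at this
  norm_num at this
  linarith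

/-- Upper bound: `g(-x) - n ≤ (2d/3) x³ / (S(-x) V(-x))` for `0 ≤ x < q`. -/
theorem g_upper {x : ℝ} (h1 : 0 ≤ x) (h2 : x < qq p) :
    (nn p - x ^ 2) / VV p (-x) - nn p ≤ (2 * dd p / 3) * x ^ 3 / (SS p (-x) * VV p (-x)) := by
  have hq := q_pos hp
  have hd := d_pos hp
  have hn := n_pos hp
  have hG : ∀ y ∈ Icc 0 x, HasDerivAt (fun x => (nn p - x ^ 2) / VV p (-x))
      (2 * dd p * y ^ 2 / (SS p (-y) * VV p (-y))) y := by
    intro y hy
    have h3 := g_hasDerivAt hp (x := -y) (by linarith [hy.2]) (by linarith [hy.1])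
    have h4 := HasDerivAt.comp (h₂ := fun x => (nn p - x ^ 2) / VV p x) y h3 (hasDerivAt_neg y)
    have h5 : ((fun x => (nn p - x ^ 2) / VV p x) ∘ Neg.neg) =
        fun x => (nn p - x ^ 2) / VV p (-x) := by
      funext z
      simp
    rw [h5] at h4
    refine h4.congr_deriv ?_
    ring
  have hH : ∀ y ∈ Icc 0 x, HasDerivAt (fun x => (2 * dd p / 3) * x ^ 3 / (SS p (-x) * VV p (-x)))
      ((2 * dd p / 3) * (3 * y ^ 2) / (SS p (-y) * VV p (-y)) +
        (2 * dd p / 3) * y ^ 3 * (dd p + 4 * y) / (SS p (-y) ^ 2 * VV p (-y))) y := by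
    intro y hy
    have hS := S_pos (p := p) (x := -y) (by linarith [hy.2]) (by linarith [hy.1])
    have hV := V_pos hp (x := -y) (by linarith [hy.2]) (by linarith [hy.1])
    have h3 := SV_hasDerivAt hp (x := -y) (by linarith [hy.2]) (by linarith [hy.1])
    have h4 := HasDerivAt.comp (h₂ := fun x => SS p x * VV p x) y h3 (hasDerivAt_neg y)
    have h5 : ((fun x => SS p x * VV p x) ∘ Neg.neg) =
        fun x => SS p (-x) * VV p (-x) := by
      funext z
      simp
    rw [h5] at h4
    have h6 : HasDerivAt (fun y => (2 * dd p / 3) * y ^ 3) ((2 * dd p / 3) * (3 * y ^ 2)) y := by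
      refine ((hasDerivAt_pow 3 y).const_mul (2 * dd p / 3)).congr_deriv ?_
      norm_num
    refine (h6.div h4 (by positivity)).congr_deriv ?_
    field_simp
    ring
  have := le_of_hasDerivAt
    (f := fun y => (2 * dd p / 3) * y ^ 3 / (SS p (-y) * VV p (-y)) -
      (nn p - y ^ 2) / VV p (-y))
    (f' := fun y => ((2 * dd p / 3) * (3 * y ^ 2) / (SS p (-y) * VV p (-y)) +
        (2 * dd p / 3) * y ^ 3 * (dd p + 4 * y) / (SS p (-y) ^ 2 * VV p (-y)))
      - 2 * dd p * y ^ 2 / (SS p (-y) * VV p (-y))) h1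
    (fun y hy => ((hH y hy).sub (hG y hy)).continuousAt.continuousWithinAt)
    (fun y hy => (hH y ⟨hy.1.le, hy.2.le⟩).sub (hG y ⟨hy.1.le, hy.2.le⟩))
    (fun y hy => by
      have hS := S_pos (p := p) (x := -y) (by linarith [hy.2]) (by linarith [hy.1])
      have hV := V_pos hp (x := -y) (by linarith [hy.2]) (by linarith [hy.1])
      have hy0 := hy.1
      have e : ((2 * dd p / 3) * (3 * y ^ 2) / (SS p (-y) * VV p (-y)) +
        (2 * dd p / 3) * y ^ 3 * (dd p + 4 * y) / (SS p (-y) ^ 2 * VV p (-y)))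
        - 2 * dd p * y ^ 2 / (SS p (-y) * VV p (-y)) =
        (2 * dd p / 3) * y ^ 3 * (dd p + 4 * y) / (SS p (-y) ^ 2 * VV p (-y)) := by ring
      rw [e]
      positivity)
  norm_num [V_zero] at this
  linarith

/-- L1: `r > nR/(n + dR)`. -/
theorem L1_aux {x : ℝ} (h1 : 0 < x) (h2 : x < p) :
    VV p x < VV p (-(nn p * x / (nn p + dd p * x))) := by
  have hq := q_pos hp
  have hd := d_pos hp
  have hn := n_pos hp
  have hy : ∀ z, 0 ≤ z → z < p → 0 ≤ nn p * z / (nn p + dd p * z) ∧
      nn p * z / (nn p + dd p * z) < qq p := by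
    intro z hz hz'
    have hm : 0 < nn p + dd p * z := by positivity
    constructor
    · positivity
    · rw [div_lt_iff₀ hm]
      have : qq p * (nn p + dd p * z) - nn p * z = qq p ^ 2 * (p - z) := by
        unfold nn dd
        ring
      have h3 : 0 < qq p ^ 2 * (p - z) := by
        have : 0 < p - z := by linarith
        positivity
      linarith
  have hW : ∀ z, 0 ≤ z → z < p → HasDerivAt (fun z => VV p (-(nn p * z / (nn p + dd p * z))))
      (-(2 * (nn p * z / (nn p + dd p * z)) * VV p (-(nn p * z / (nn p + dd p * z))) /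
        SS p z)) z := by
    intro z hz hz'
    have hm : 0 < nn p + dd p * z := by positivity
    have hy' := hy z hz hz'
    have h3 := V_hasDerivAt hp (x := -(nn p * z / (nn p + dd p * z))) (by linarith [hy'.2])
      (by linarith [hy'.1])
    have e1 : HasDerivAt (fun x => nn p + dd p * x) (dd p) z := by
      simpa using ((hasDerivAt_id z).const_mul (dd p)).const_add (nn p)
    have e2 : HasDerivAt (fun x => nn p * x) (nn p) z := by
      simpa using (hasDerivAt_id z).const_mul (nn p)
    have e3 := (e2.div e1 hm.ne').neg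
    have e4 := HasDerivAt.comp (h₂ := VV p) z h3 e3
    refine HasDerivAt.congr_deriv (f := fun z => VV p (-(nn p * z / (nn p + dd p * z)))) e4 ?_
    have hS := S_pos (p := p) (x := z) (by linarith) hz'
    have hS2 : SS p (-(nn p * z / (nn p + dd p * z))) =
        nn p ^ 2 * SS p z / (nn p + dd p * z) ^ 2 := by
      rw [S_eq, S_eq]
      field_simp
      ring
    rw [hS2]
    field_simp
    ring
  have := lt_of_hasDerivAt
    (f := fun z => VV p (-(nn p * z / (nn p + dd p * z))) / VV p z)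
    (f' := fun z => VV p (-(nn p * z / (nn p + dd p * z))) / VV p z *
      (2 * z * (dd p * z / (nn p + dd p * z)) / SS p z)) h1
    (by
      intro z hz
      have h3 := (hW z hz.1 (by linarith [hz.2])).continuousAt
      have h4 := (V_hasDerivAt hp (x := z) (by linarith [hz.1]) (by linarith [hz.2])).continuousAt
      have hV := V_pos hp (x := z) (by linarith [hz.1]) (by linarith [hz.2])
      exact (h3.div h4 hV.ne').continuousWithinAt)
    (fun z hz => by
      have h3 := (hW z hz.1.le (by linarith [hz.2]))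
      have h4 := (V_hasDerivAt hp (x := z) (by linarith [hz.1]) (by linarith [hz.2]))
      have hV := V_pos hp (x := z) (by linarith [hz.1]) (by linarith [hz.2])
      have hS := S_pos (p := p) (x := z) (by linarith [hz.1]) (by linarith [hz.2])
      have hz0 := hz.1
      have hm : 0 < nn p + dd p * z := by positivity
      refine (h3.div h4 hV.ne').congr_deriv ?_
      generalize VV p (-(nn p * z / (nn p + dd p * z))) = W
      field_simp
      ring)
    (fun z hz => by
      have hV := V_pos hp (x := z) (by linarith [hz.1]) (by linarith [hz.2])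
      have hy' := hy z hz.1.le (by linarith [hz.2])
      have hV2 := V_pos hp (x := -(nn p * z / (nn p + dd p * z))) (by linarith [hy'.2])
        (by linarith [hy'.1])
      have hS := S_pos (p := p) (x := z) (by linarith [hz.1]) (by linarith [hz.2])
      have hz0 := hz.1
      have hm : 0 < nn p + dd p * z := by positivity
      positivity)
  have hV := V_pos hp (x := x) (by linarith) (by linarith)
  simp only [mul_zero, zero_div, neg_zero, V_zero, div_one] at this
  rwa [lt_div_iff₀ hV, one_mul] at this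

end Basic

end Pool.Agent.Helper87.PLap
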