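import Pool.Agent.Helper87.PLap.Pos

set_option autoImplicit false

namespace Pool.Agent.Helper87.PLap

open Real Set Filter Topology

section Basic

variable {p : ℝ} (hp : 2 < p)

include hp

theorem L1 {A : ℝ} (hA : A ∈ Ioo (0 : ℝ) 1) :
    nn p * rh p A / (nn p + dd p * rh p A) < sr p A := by
  have h1 := L1_aux hp (R_pos hp hA) (R_lt hp hA)
  rw [VV_R hp hA, ← VV_sr hp hA] at h1
  by_contra h
  push Not at h
  have hn := n_pos hp
  have hd := d_pos hp
  have hR := R_pos hp hA
  have hR' := R_lt hp hA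
  have hm : 0 < nn p + dd p * rh p A := by positivity
  have hy : nn p * rh p A / (nn p + dd p * rh p A) ≤ qq p := by
    rw [div_le_iff₀ hm]
    have : qq p * (nn p + dd p * rh p A) - nn p * rh p A = qq p ^ 2 * (p - rh p A) := by
      unfold nn dd
      ring
    have h3 : 0 < qq p ^ 2 * (p - rh p A) := by
      have : 0 < p - rh p A := by linarith
      have := q_pos hp
      positivity
    linarith
  have h2 : 0 ≤ sr p A := (sr_pos hp hA).le
  rcases h.lt_or_eq with h3 | h3
  · have := V_strictMono hp (x := -(nn p * rh p A / (nn p + dd p * rh p A))) (y := -sr p A)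
      (by linarith) (by linarith) (by linarith)
    linarith
  · rw [← h3] at h1
    exact lt_irrefl _ h1

theorem lp_sub_lm {A : ℝ} (hA : A ∈ Ioo (0 : ℝ) 1) : 0 < lp p A - lm p A := by
  have h1 := L1 hp hA
  have hn := n_pos hp
  have hd := d_pos hp
  have hR := R_pos hp hA
  have hr := sr_pos hp hA
  have hm : 0 < nn p + dd p * rh p A := by positivity
  rw [div_lt_iff₀ hm] at h1
  have e : lp p A - lm p A = (1 / rh p A + 1 / sr p A) *
      ((sr p A * (nn p + dd p * rh p A) - nn p * rh p A) / (rh p A * sr p A)) := by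
    unfold lp lm
    rw [S_eq, S_eq]
    field_simp
    ring
  rw [e]
  have : 0 < sr p A * (nn p + dd p * rh p A) - nn p * rh p A := by linarith
  positivity

theorem wm_nonneg {A : ℝ} (hA : A ∈ Ioo (0 : ℝ) 1) : 0 ≤ wm p A := by
  have hr := sr_pos hp hA
  have hr' := sr_lt hp hA
  have hS := S_pos (p := p) (x := -sr p A) (by linarith) (by linarith)
  have h1 := V_le_of_nonpos hp (x := -sr p A) (by linarith) (by linarith)
  rw [VV_sr hp hA] at h1
  unfold wm
  have : 0 ≤ nn p * A ^ 2 - sr p A ^ 2 := by nlinarith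
  positivity

theorem wm_le {A : ℝ} (hA : A ∈ Ioo (0 : ℝ) 1) : wm p A ≤ 2 * dd p / 3 := by
  have hr := sr_pos hp hA
  have hr' := sr_lt hp hA
  have hS := S_pos (p := p) (x := -sr p A) (by linarith) (by linarith)
  have h1 := g_upper hp (x := sr p A) hr.le hr'
  have hV := V_pos hp (x := -sr p A) (by linarith) (by linarith)
  have e : wm p A = ((nn p - sr p A ^ 2) / VV p (-sr p A) - nn p) *
      (SS p (-sr p A) * VV p (-sr p A)) / sr p A ^ 3 := by
    unfold wm
    have hA2 : A ^ 2 = 1 - VV p (-sr p A) := by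
      rw [VV_sr hp hA]
      ring
    rw [hA2]
    field_simp
    ring
  rw [e, div_le_iff₀ (by positivity)]
  rw [le_div_iff₀ (by positivity)] at h1
  linarith

theorem wp_ge {A : ℝ} (hA : A ∈ Ioo (0 : ℝ) 1) :
    (2 * dd p / 3) * (SS p (rh p A) * VV p (rh p A) / (nn p + dd p * rh p A)) ≤ wp p A := by
  have hR := R_pos hp hA
  have hR' := R_lt hp hA
  have hq := q_pos hp
  have hd := d_pos hp
  have hn := n_pos hp
  have hS := S_pos (p := p) (x := rh p A) (by linarith) (by linarith)
  have h1 := g_lower hp (x := rh p A) hR.le hR'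
  have hV := V_pos hp (x := rh p A) (by linarith) (by linarith)
  have e : wp p A = (nn p - (nn p - rh p A ^ 2) / VV p (rh p A)) *
      (SS p (rh p A) * VV p (rh p A)) / rh p A ^ 3 := by
    unfold wp
    have hA2 : A ^ 2 = 1 - VV p (rh p A) := by
      rw [VV_R hp hA]
      ring
    rw [hA2]
    field_simp
    ring
  rw [e, le_div_iff₀ (by positivity)]
  have h2 := mul_le_mul_of_nonneg_right h1 (mul_pos hS hV).le
  have hm : 0 < nn p + dd p * rh p A := by positivity
  calc (2 * dd p / 3) * (SS p (rh p A) * VV p (rh p A) / (nn p + dd p * rh p A)) * rh p A ^ 3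
      = (2 * dd p / 3) * rh p A ^ 3 / (nn p + dd p * rh p A) *
        (SS p (rh p A) * VV p (rh p A)) := by ring
    _ ≤ _ := h2

theorem wp_nonneg {A : ℝ} (hA : A ∈ Ioo (0 : ℝ) 1) : 0 ≤ wp p A := by
  have hR := R_pos hp hA
  have hR' := R_lt hp hA
  have hq := q_pos hp
  have hd := d_pos hp
  have hn := n_pos hp
  have hS := S_pos (p := p) (x := rh p A) (by linarith) (by linarith)
  have hV := V_pos hp (x := rh p A) (by linarith) (by linarith)
  refine le_trans ?_ (wp_ge hp hA)
  positivity

theorem wp_le {A : ℝ} (hA : A ∈ Ioo (0 : ℝ) 1) : wp p A ≤ dd p / nn p * SS p (rh p A) := by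
  have hR := R_pos hp hA
  have hR' := R_lt hp hA
  have hq := q_pos hp
  have hd := d_pos hp
  have hn := n_pos hp
  have hS := S_pos (p := p) (x := rh p A) (by linarith) (by linarith)
  have h1 := V_le_of_nonneg hp (x := rh p A) hR.le hR'
  rw [VV_R hp hA, S_eq] at h1
  have hm : 0 < nn p + dd p * rh p A := by positivity
  unfold wp
  rw [div_le_iff₀ (by positivity)]
  have h2 : rh p A ^ 2 - nn p * A ^ 2 ≤ dd p / nn p * rh p A ^ 3 := by
    have h3 : rh p A ^ 2 ≤ (nn p + dd p * rh p A) * A ^ 2 := by linarith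
    have h4 : rh p A ^ 2 / (nn p + dd p * rh p A) ≤ A ^ 2 := by
      rw [div_le_iff₀ hm]
      linarith
    have h5 : rh p A ^ 2 - nn p * (rh p A ^ 2 / (nn p + dd p * rh p A)) ≤
        dd p / nn p * rh p A ^ 3 := by
      have h6 : rh p A ^ 2 - nn p * (rh p A ^ 2 / (nn p + dd p * rh p A)) =
          dd p * rh p A ^ 3 / (nn p + dd p * rh p A) := by
        field_simp
        ring
      rw [h6]
      have h7 : dd p / nn p * rh p A ^ 3 = dd p * rh p A ^ 3 / nn p := by ring
      rw [h7]
      apply div_le_div_of_nonneg_left (by positivity) hn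
      nlinarith
    nlinarith
  calc SS p (rh p A) * (rh p A ^ 2 - nn p * A ^ 2) ≤
      SS p (rh p A) * (dd p / nn p * rh p A ^ 3) := mul_le_mul_of_nonneg_left h2 hS.le
    _ = _ := by ring

theorem S_hasDerivAt (x : ℝ) : HasDerivAt (SS p) (dd p - 2 * x) x := by
  have e2 : HasDerivAt (fun x => nn p + dd p * x) (dd p) x := by
    simpa using ((hasDerivAt_id x).const_mul (dd p)).const_add (nn p)
  have : HasDerivAt (fun x => nn p + dd p * x - x ^ 2) (dd p - 2 * x) x :=
    (e2.sub (hasDerivAt_pow 2 x)).congr_deriv (by simp)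
  have h4 : SS p = fun x => nn p + dd p * x - x ^ 2 := by
    funext y
    exact S_eq y
  rw [h4]
  exact this

theorem one_sub_sq_pos {A : ℝ} (hA : A ∈ Ioo (0 : ℝ) 1) : 0 < 1 - A ^ 2 := by
  nlinarith [hA.1, hA.2]

theorem wp_hasDerivAt {A : ℝ} (hA : A ∈ Ioo (0 : ℝ) 1) :
    HasDerivAt (wp p) (A / (1 - A ^ 2) *
      (2 * dd p * lp p A - wp p A * (3 * lp p A + 4 - dd p / rh p A))) A := by
  have hR := R_pos hp hA
  have h1 := R_hasDerivAt hp hA
  have h2 := one_sub_sq_pos hp hA
  have e1 : HasDerivAt (fun A => SS p (rh p A)) ((dd p - 2 * rh p A) *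
      (SS p (rh p A) * A / ((1 - A ^ 2) * rh p A))) A :=
    HasDerivAt.comp (h₂ := SS p) A (S_hasDerivAt hp (rh p A)) h1
  have e2 : HasDerivAt (fun A => (rh p A) ^ 2 - nn p * A ^ 2)
      (2 * rh p A * (SS p (rh p A) * A / ((1 - A ^ 2) * rh p A)) - nn p * (2 * A)) A := by
    have h3 := (h1.pow 2).sub ((hasDerivAt_pow 2 A).const_mul (nn p))
    refine h3.congr_deriv ?_
    simp
  have e3 : HasDerivAt (fun A => (rh p A) ^ 3)
      (3 * rh p A ^ 2 * (SS p (rh p A) * A / ((1 - A ^ 2) * rh p A))) A := by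
    have h3 := (h1.pow 3)
    refine h3.congr_deriv ?_
    simp
  have e4 := (e1.mul e2).div e3 (by positivity)
  refine HasDerivAt.congr_deriv (f := wp p) e4 ?_
  simp only [Pi.mul_apply]
  unfold wp lp
  have hS : SS p (rh p A) = nn p + dd p * rh p A - rh p A ^ 2 := S_eq _
  generalize SS p (rh p A) = S at *
  have hn : nn p = S - dd p * rh p A + rh p A ^ 2 := by
    rw [hS]
    ring
  rw [hn]
  field_simp
  ring

theorem wm_hasDerivAt {A : ℝ} (hA : A ∈ Ioo (0 : ℝ) 1) :
    HasDerivAt (wm p) (A / (1 - A ^ 2) *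
      (2 * dd p * lm p A - wm p A * (3 * lm p A + 4 + dd p / sr p A))) A := by
  have hr := sr_pos hp hA
  have h1 := sr_hasDerivAt hp hA
  have h2 := one_sub_sq_pos hp hA
  have e1 : HasDerivAt (fun A => SS p (-sr p A)) ((dd p - 2 * (-sr p A)) *
      (-(SS p (-sr p A) * A / ((1 - A ^ 2) * sr p A)))) A :=
    HasDerivAt.comp (h₂ := SS p) A (S_hasDerivAt hp (-sr p A)) h1.neg
  have e2 : HasDerivAt (fun A => nn p * A ^ 2 - (sr p A) ^ 2)
      (nn p * (2 * A) - 2 * sr p A * (SS p (-sr p A) * A / ((1 - A ^ 2) * sr p A))) A := by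
    have h3 := ((hasDerivAt_pow 2 A).const_mul (nn p)).sub (h1.pow 2)
    refine h3.congr_deriv ?_
    simp
  have e3 : HasDerivAt (fun A => (sr p A) ^ 3)
      (3 * sr p A ^ 2 * (SS p (-sr p A) * A / ((1 - A ^ 2) * sr p A))) A := by
    have h3 := (h1.pow 3)
    refine h3.congr_deriv ?_
    simp
  have e4 := (e1.mul e2).div e3 (by positivity)
  refine HasDerivAt.congr_deriv (f := wm p) e4 ?_
  simp only [Pi.mul_apply]
  unfold wm lm
  have hS : SS p (-sr p A) = nn p + dd p * (-sr p A) - (-sr p A) ^ 2 := S_eq _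
  generalize SS p (-sr p A) = S at *
  have hn : nn p = S + dd p * sr p A + sr p A ^ 2 := by
    rw [hS]
    ring
  rw [hn]
  field_simp
  ring

theorem rh_tendsto_zero : Tendsto (rh p) (𝓝[>] 0) (𝓝 0) := by
  have h1 : ContinuousAt (rh p) 0 :=
    (rh_contOn hp).continuousAt (Icc_mem_nhds (by norm_num) (by norm_num))
  have h2 : Tendsto (rh p) (𝓝 0) (𝓝 0) := by
    have := h1.tendsto
    rwa [rh_zero hp] at this
  exact h2.mono_left nhdsWithin_le_nhds

/-- The crucial positivity. -/
theorem w_pos : ∀ A ∈ Ioo (0 : ℝ) 1, 0 < wp p A - wm p A := by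
  have hd := d_pos hp
  have hn := n_pos hp
  apply pos_of_ode (f := fun A => wp p A - wm p A) (fun A hA => (wp_hasDerivAt hp hA).sub (wm_hasDerivAt hp hA))
  · intro A hA hneg
    have hR := R_pos hp hA
    have hr := sr_pos hp hA
    have h2 := one_sub_sq_pos hp hA
    have h3 := lp_sub_lm hp hA
    have h4 := wm_nonneg hp hA
    have h5 := wm_le hp hA
    have hA0 := hA.1
    have hK : 0 < 3 * lp p A + 4 - dd p / rh p A := by
      have : 3 * lp p A + 4 - dd p / rh p A =
          (3 * nn p + 2 * dd p * rh p A + rh p A ^ 2) / rh p A ^ 2 := by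
        unfold lp
        rw [S_eq]
        field_simp
        ring
      rw [this]
      positivity
    have e : A / (1 - A ^ 2) *
        (2 * dd p * lp p A - wp p A * (3 * lp p A + 4 - dd p / rh p A)) -
        A / (1 - A ^ 2) * (2 * dd p * lm p A - wm p A * (3 * lm p A + 4 + dd p / sr p A)) =
        A / (1 - A ^ 2) * ((lp p A - lm p A) * (2 * dd p - 3 * wm p A) +
          wm p A * dd p * (1 / rh p A + 1 / sr p A) -
          (wp p A - wm p A) * (3 * lp p A + 4 - dd p / rh p A)) := by
      field_simp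
      ring
    rw [e]
    have h6 : 0 ≤ (lp p A - lm p A) * (2 * dd p - 3 * wm p A) :=
      mul_nonneg h3.le (by linarith)
    have h7 : 0 ≤ wm p A * dd p * (1 / rh p A + 1 / sr p A) := by positivity
    have h8 : 0 ≤ -((wp p A - wm p A) * (3 * lp p A + 4 - dd p / rh p A)) := by
      rw [← neg_mul]
      apply mul_nonneg _ hK.le
      linarith
    have h9 : 0 < (lp p A - lm p A) * (2 * dd p - 3 * wm p A) +
          wm p A * dd p * (1 / rh p A + 1 / sr p A) := by
      rcases h4.eq_or_lt with h10 | h10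
      · rw [← h10]
        simp only [mul_zero, zero_mul, add_zero, sub_zero]
        positivity
      · have : 0 < wm p A * dd p * (1 / rh p A + 1 / sr p A) := by positivity
        linarith
    apply mul_pos (div_pos hA0 h2)
    linarith
  · have h1 : Tendsto (fun A => (2 * dd p / 3) *
        (SS p (rh p A) * VV p (rh p A) / (nn p + dd p * rh p A)) - 2 * dd p / 3)
        (𝓝[>] 0) (𝓝 0) := by
      have h2 : ContinuousAt (fun x => (2 * dd p / 3) *
        (SS p x * VV p x / (nn p + dd p * x)) - 2 * dd p / 3) 0 := by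
        apply ContinuousAt.sub _ continuousAt_const
        apply ContinuousAt.mul continuousAt_const
        apply ContinuousAt.div
        · apply ContinuousAt.mul
          · unfold SS
            fun_prop
          · exact (V_continuous hp).continuousAt
        · fun_prop
        · simp only [mul_zero, add_zero]
          exact hn.ne'
      have h3 := h2.tendsto.comp (rh_tendsto_zero hp)
      have h4 : (2 * dd p / 3) * (SS p 0 * VV p 0 / (nn p + dd p * 0)) - 2 * dd p / 3 = 0 := by
        rw [V_zero, S_eq]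
        field_simp
        ring
      rw [h4] at h3
      exact h3
    intro ε hε
    have h5 : ∀ᶠ A in 𝓝[>] (0 : ℝ), -ε < (2 * dd p / 3) *
        (SS p (rh p A) * VV p (rh p A) / (nn p + dd p * rh p A)) - 2 * dd p / 3 :=
      h1.eventually_const_lt (by linarith)
    filter_upwards [h5, Ioo_mem_nhdsGT (show (0 : ℝ) < 1 by norm_num)] with A hA1 hA2
    have := wp_ge hp hA2
    have := wm_le hp hA2
    linarith

end Basic

end Pool.Agent.Helper87.PLap
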