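import Pool.Agent.Helper87.PLap.Per

set_option autoImplicit false

namespace Pool.Agent.Helper87.PLap

open Real Set Filter Topology MeasureTheory

theorem hasDerivAt_of_eventually_ne {f g : ℝ → ℝ} {x : ℝ}
    (f_diff : ∀ᶠ y in 𝓝[≠] x, HasDerivAt f (g y) y) (hf : ContinuousAt f x)
    (hg : ContinuousAt g x) : HasDerivAt f (g x) x := by
  have A : HasDerivWithinAt f (g x) (Ici x) x := by
    have h1 : ∀ᶠ y in 𝓝[>] x, HasDerivAt f (g y) y :=
      f_diff.filter_mono (nhdsWithin_mono _ fun y hy => ne_of_gt hy)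
    have diff : DifferentiableOn ℝ f {y | HasDerivAt f (g y) y} := fun y hy =>
      (HasDerivAt.differentiableAt hy).differentiableWithinAt
    apply hasDerivWithinAt_Ici_of_tendsto_deriv diff hf.continuousWithinAt h1
    have : Tendsto g (𝓝[>] x) (𝓝 (g x)) := tendsto_inf_left hg
    apply this.congr' _
    filter_upwards [h1] with y hy
    exact hy.deriv.symm
  have B : HasDerivWithinAt f (g x) (Iic x) x := by
    have h1 : ∀ᶠ y in 𝓝[<] x, HasDerivAt f (g y) y :=
      f_diff.filter_mono (nhdsWithin_mono _ fun y hy => ne_of_lt hy)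
    have diff : DifferentiableOn ℝ f {y | HasDerivAt f (g y) y} := fun y hy =>
      (HasDerivAt.differentiableAt hy).differentiableWithinAt
    apply hasDerivWithinAt_Iic_of_tendsto_deriv diff hf.continuousWithinAt h1
    have : Tendsto g (𝓝[<] x) (𝓝 (g x)) := tendsto_inf_left hg
    apply this.congr' _
    filter_upwards [h1] with y hy
    exact hy.deriv.symm
  simpa using B.union A

/-- Solutions of the normalized Hamiltonian system, with energy one. -/
structure Sol (p : ℝ) (X Y : ℝ → ℂ) : Prop where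
  hX : ∀ t, HasDerivAt X ((‖Y t‖ ^ (qq p - 2)) • Y t) t
  hY : ∀ t, HasDerivAt Y (-((‖X t‖ ^ (p - 2)) • X t)) t
  en : ∀ t, ‖X t‖ ^ p / p + ‖Y t‖ ^ (qq p) / qq p = 1

/-- `Z = conj X * Y`. -/
noncomputable def ZZ (X Y : ℝ → ℂ) (t : ℝ) : ℂ := star (X t) * Y t

/-- The function `ρ(t)`. -/
noncomputable def ro (p : ℝ) (X : ℝ → ℂ) (t : ℝ) : ℝ := qq p * (‖X t‖ ^ p - 1)

theorem norm_pow_aux {q : ℝ} (hq : 0 < q) (z : ℂ) : ‖z‖ ^ (q - 2) * ‖z‖ ^ 2 = ‖z‖ ^ q := by
  rcases (norm_nonneg z).eq_or_lt with h | h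
  · rw [← h, zero_rpow hq.ne']
    norm_num
  · rw [← rpow_natCast, ← rpow_add h]
    norm_num

section Basic

variable {p : ℝ} (hp : 2 < p) {X Y : ℝ → ℂ} (h : Sol p X Y)

include hp h

omit h in
theorem nX_ro (X : ℝ → ℂ) (t : ℝ) : ‖X t‖ ^ p = 1 + ro p X t / qq p := by
  have hq := q_pos hp
  unfold ro
  field_simp
  ring

theorem Sol.nY (t : ℝ) : ‖Y t‖ ^ (qq p) = 1 - ro p X t / p := by
  have hq := q_pos hp
  have hp0 : 0 < p := by linarith
  have h1 := h.en t
  have h2 := nX_ro hp X t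
  rw [h2] at h1
  have hpq := pq_eq hp
  field_simp at h1 ⊢
  linear_combination h1 + hpq

theorem Sol.ro_mem (t : ℝ) : ro p X t ∈ Icc (-qq p) p := by
  have hq := q_pos hp
  have hp0 : 0 < p := by linarith
  have h1 := nX_ro hp X t
  have h2 := h.nY hp t
  have h3 : 0 ≤ ‖X t‖ ^ p := by positivity
  have h4 : 0 ≤ ‖Y t‖ ^ (qq p) := by positivity
  rw [h1] at h3
  rw [h2] at h4
  constructor
  · have : -1 ≤ ro p X t / qq p := by linarith
    rw [le_div_iff₀ hq] at this
    linarith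
  · have : ro p X t / p ≤ 1 := by linarith
    rwa [div_le_one hp0] at this

theorem Sol.VV_ro (t : ℝ) : VV p (ro p X t) = (‖X t‖ * ‖Y t‖) ^ 2 := by
  have hq := q_pos hp
  have hp0 : 0 < p := by linarith
  unfold VV
  rw [← nX_ro hp X t, ← h.nY hp t, ← rpow_mul (norm_nonneg _), ← rpow_mul (norm_nonneg _)]
  have e1 : p * (2 / p) = 2 := by field_simp
  have e2 : qq p * (2 / qq p) = 2 := by field_simp
  rw [e1, e2, rpow_ofNat, rpow_ofNat, mul_pow]

omit hp h in
theorem norm_ZZ (t : ℝ) : ‖ZZ X Y t‖ = ‖X t‖ * ‖Y t‖ := by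
  unfold ZZ
  rw [norm_mul, norm_star]

theorem Sol.ZZ_hasDerivAt (t : ℝ) : HasDerivAt (ZZ X Y) ((-ro p X t : ℝ) : ℂ) t := by
  have hq := q_pos hp
  have hp0 : 0 < p := by linarith
  have h1 := ((h.hX t).star.mul (h.hY t))
  refine HasDerivAt.congr_deriv (f := ZZ X Y) h1 ?_
  have h2 := nX_ro hp X t
  have h3 := h.nY hp t
  have h4 : -ro p X t = ‖Y t‖ ^ (qq p) - ‖X t‖ ^ p := by
    rw [h2, h3]
    have hpq := pq_eq hp
    field_simp
    linear_combination (-ro p X t) * hpq
  rw [h4, ← norm_pow_aux hq, ← norm_pow_aux hp0]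
  have e1 : star (X t) * X t = ((‖X t‖ ^ 2 : ℝ) : ℂ) := by
    have := Complex.conj_mul' (X t)
    push_cast
    exact this
  have e2 : star (Y t) * Y t = ((‖Y t‖ ^ 2 : ℝ) : ℂ) := by
    have := Complex.conj_mul' (Y t)
    push_cast
    exact this
  rw [star_smul, smul_mul_assoc, e2]
  simp only [star_trivial, mul_neg, mul_smul_comm, e1]
  rw [Complex.real_smul, Complex.real_smul]
  push_cast
  ring

theorem Sol.w_hasDerivAt (t : ℝ) : HasDerivAt (fun t => (ZZ X Y t).re) (-ro p X t) t := by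
  have h1 := h.ZZ_hasDerivAt hp t
  have h2 := (Complex.reCLM.hasFDerivAt (x := ZZ X Y t)).comp_hasDerivAt t h1
  refine HasDerivAt.congr_deriv (f := fun t => (ZZ X Y t).re) h2 ?_
  simp

theorem Sol.im_const (t : ℝ) : (ZZ X Y t).im = (ZZ X Y 0).im := by
  have h3 : ∀ t, HasDerivAt (fun t => (ZZ X Y t).im) 0 t := by
    intro t
    have h1 := h.ZZ_hasDerivAt hp t
    have h2 := (Complex.imCLM.hasFDerivAt (x := ZZ X Y t)).comp_hasDerivAt t h1
    refine HasDerivAt.congr_deriv (f := fun t => (ZZ X Y t).im) h2 ?_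
    simp
  exact is_const_of_deriv_eq_zero (fun t => (h3 t).differentiableAt) (fun t => (h3 t).deriv) t 0

theorem Sol.ro_hasDerivAt (t : ℝ) : HasDerivAt (ro p X)
    (nn p * (‖X t‖ ^ (p - 2) * ‖Y t‖ ^ (qq p - 2) * (ZZ X Y t).re)) t := by
  have h1 := (hasFDerivAt_norm_rpow (X t) (show 1 < p by linarith)).comp_hasDerivAt t (h.hX t)
  have h2 := (h1.sub_const 1).const_mul (qq p)
  refine HasDerivAt.congr_deriv (f := ro p X) h2 ?_
  have h3 : (innerSL ℝ (X t)) (Y t) = (ZZ X Y t).re := by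
    simp [ZZ, Complex.inner]
    ring
  simp only [smul_apply, map_smul, smul_eq_mul]
  rw [h3]
  unfold nn
  ring

theorem Sol.ro_cont : Continuous (ro p X) :=
  continuous_iff_continuousAt.mpr fun t => (h.ro_hasDerivAt hp t).continuousAt

theorem Sol.w_cont : Continuous (fun t => (ZZ X Y t).re) :=
  continuous_iff_continuousAt.mpr fun t => (h.w_hasDerivAt hp t).continuousAt

theorem Sol.AA_sq' (t : ℝ) :
    AA p (ro p X t) ^ 2 + (ZZ X Y t).re ^ 2 = 1 - (ZZ X Y 0).im ^ 2 := by
  have h1 := h.ro_mem hp t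
  have h2 := h.VV_ro hp t
  have h3 : ‖ZZ X Y t‖ ^ 2 = (ZZ X Y t).re ^ 2 + (ZZ X Y t).im ^ 2 := by
    rw [Complex.sq_norm, Complex.normSq_apply]
    ring
  rw [norm_ZZ, ← h2, h.im_const hp t] at h3
  rw [AA_sq hp h1.1 h1.2]
  linarith

theorem Sol.GG_comp_cont : Continuous (fun t => GG p (ro p X t)) := by
  have h1 : ContinuousOn (GG p) (Icc (-qq p) p) := by
    have := GG_cont.comp (f := fun x : ℝ => ((p, x) : ℝ × ℝ)) (s := Icc (-qq p) p)
      (by fun_prop) (fun x hx => ⟨hp, hx.1, hx.2⟩)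
    exact this
  exact h1.comp_continuous (h.ro_cont hp) (h.ro_mem hp)

theorem Sol.GG_comp_pos (t : ℝ) : 0 < GG p (ro p X t) :=
  GG_pos hp (h.ro_mem hp t).1 (h.ro_mem hp t).2

theorem Sol.AA_hasDerivAt_of_pos {t : ℝ} (ht : 0 < ‖X t‖ * ‖Y t‖) :
    HasDerivAt (fun t => AA p (ro p X t)) ((ZZ X Y t).re / GG p (ro p X t)) t := by
  have hq := q_pos hp
  have hp0 : 0 < p := by linarith
  have hX0 : 0 < ‖X t‖ := by
    rcases (norm_nonneg (X t)).eq_or_lt with h0 | h0
    · rw [← h0, zero_mul] at ht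
      exact absurd ht (lt_irrefl _)
    · exact h0
  have hY0 : 0 < ‖Y t‖ := by
    rcases (norm_nonneg (Y t)).eq_or_lt with h0 | h0
    · rw [← h0, mul_zero] at ht
      exact absurd ht (lt_irrefl _)
    · exact h0
  have hmem := h.ro_mem hp t
  have h1 := nX_ro hp X t
  have h2 := h.nY hp t
  have h3 : 0 < ‖X t‖ ^ p := by positivity
  have h4 : 0 < ‖Y t‖ ^ (qq p) := by positivity
  have hlt1 : -qq p < ro p X t := by
    rw [h1] at h3
    have : -1 < ro p X t / qq p := by linarith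
    rw [lt_div_iff₀ hq] at this
    linarith
  have hlt2 : ro p X t < p := by
    rw [h2] at h4
    have : ro p X t / p < 1 := by linarith
    rwa [div_lt_one hp0] at this
  have h5 := AA_hasDerivAt hp hlt1 hlt2
  have h6 := HasDerivAt.comp (h₂ := AA p) t h5 (h.ro_hasDerivAt hp t)
  refine HasDerivAt.congr_deriv (f := fun t => AA p (ro p X t)) h6 ?_
  have hG := h.GG_comp_pos hp t
  have hS : SS p (ro p X t) = nn p * (‖X t‖ ^ p * ‖Y t‖ ^ (qq p)) := by
    rw [h1, h2]
    unfold SS nn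
    field_simp
  rw [hS, h.VV_ro hp t, ← norm_pow_aux hq, ← norm_pow_aux hp0]
  have hn := n_pos hp
  have h7 : 0 < ‖X t‖ ^ (p - 2) := by positivity
  have h8 : 0 < ‖Y t‖ ^ (qq p - 2) := by positivity
  field_simp

theorem Sol.AA_hasDerivAt' (t : ℝ) :
    HasDerivAt (fun t => AA p (ro p X t)) ((ZZ X Y t).re / GG p (ro p X t)) t := by
  rcases (mul_nonneg (norm_nonneg (X t)) (norm_nonneg (Y t))).eq_or_lt with h0 | h0
  · have hq := q_pos hp
    have hp0 : 0 < p := by linarith
    have hne : -ro p X t ≠ 0 := by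
      intro h1
      have h2 : ro p X t = 0 := by linarith
      have h3 := h.VV_ro hp t
      rw [h2, V_zero, ← h0] at h3
      norm_num at h3
    have hZ : ZZ X Y t = 0 := by
      rw [← norm_eq_zero, norm_ZZ]
      exact h0.symm
    have h1 := (h.w_hasDerivAt hp t).eventually_ne (c := 0) hne
    have h2 : ∀ᶠ z in 𝓝[≠] t, HasDerivAt (fun t => AA p (ro p X t))
        ((ZZ X Y z).re / GG p (ro p X z)) z := by
      filter_upwards [h1] with z hz
      apply h.AA_hasDerivAt_of_pos hp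
      rcases (mul_nonneg (norm_nonneg (X z)) (norm_nonneg (Y z))).eq_or_lt with h3 | h3
      · exfalso
        apply hz
        have : ZZ X Y z = 0 := by
          rw [← norm_eq_zero, norm_ZZ]
          exact h3.symm
        rw [this]
        simp
      · exact h3
    apply hasDerivAt_of_eventually_ne (g := fun t => (ZZ X Y t).re / GG p (ro p X t)) h2
    · exact ((AA_continuous hp).comp (h.ro_cont hp)).continuousAt
    · apply ContinuousAt.div
      · exact (h.w_cont hp).continuousAt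
      · exact (h.GG_comp_cont hp).continuousAt
      · exact (h.GG_comp_pos hp t).ne'
  · exact h.AA_hasDerivAt_of_pos hp h0

/-- The phase function. -/
theorem Sol.phase : ∃ φ : ℝ → ℝ, φ 0 = 0 ∧ (∀ t, HasDerivAt φ (1 / GG p (ro p X t)) t) ∧
    ∀ t, (((ZZ X Y t).re : ℂ) + (AA p (ro p X t) : ℂ) * Complex.I) =
      (((ZZ X Y 0).re : ℂ) + (AA p (ro p X 0) : ℂ) * Complex.I) *
        Complex.exp ((φ t : ℂ) * Complex.I) := by
  have hc : Continuous (fun t => 1 / GG p (ro p X t)) :=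
    continuous_const.div (h.GG_comp_cont hp) (fun t => (h.GG_comp_pos hp t).ne')
  refine ⟨fun t => ∫ s in (0 : ℝ)..t, 1 / GG p (ro p X s), by simp, ?_, ?_⟩
  · intro t
    exact intervalIntegral.integral_hasDerivAt_right (hc.intervalIntegrable _ _)
      (hc.stronglyMeasurableAtFilter _ _) hc.continuousAt
  · have hφ : ∀ t, HasDerivAt (fun t => ∫ s in (0 : ℝ)..t, 1 / GG p (ro p X s))
        (1 / GG p (ro p X t)) t := fun t =>
      intervalIntegral.integral_hasDerivAt_right (hc.intervalIntegrable _ _)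
      (hc.stronglyMeasurableAtFilter _ _) hc.continuousAt
    set φ : ℝ → ℝ := fun t => ∫ s in (0 : ℝ)..t, 1 / GG p (ro p X s) with hφdef
    have hφ0 : φ 0 = 0 := by simp [hφdef]
    have h1 : ∀ t, HasDerivAt (fun t => (((ZZ X Y t).re : ℂ) + (AA p (ro p X t) : ℂ) * Complex.I) *
        Complex.exp (-((φ t : ℂ) * Complex.I))) 0 t := by
      intro t
      have e1 := (h.w_hasDerivAt hp t).ofReal_comp
      have e2 := ((h.AA_hasDerivAt' hp t).ofReal_comp).mul_const Complex.I
      have e3 := (((hφ t).ofReal_comp).mul_const Complex.I).neg.cexp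
      have e4 := (e1.add e2).mul e3
      refine HasDerivAt.congr_deriv (f := fun t => (((ZZ X Y t).re : ℂ) +
        (AA p (ro p X t) : ℂ) * Complex.I) * Complex.exp (-((φ t : ℂ) * Complex.I))) e4 ?_
      have hG := h.GG_comp_pos hp t
      have hG' : (GG p (ro p X t) : ℂ) ≠ 0 := by exact_mod_cast hG.ne'
      have hA : (ro p X t : ℂ) * (GG p (ro p X t) : ℂ) = (AA p (ro p X t) : ℂ) := by
        rw [AA_eq (ro p X t)]
        push_cast
        ring
      simp only [Pi.add_apply, Pi.neg_apply]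
      push_cast
      have hA' : (ro p X t : ℂ) = (AA p (ro p X t) : ℂ) / (GG p (ro p X t) : ℂ) := by
        rw [← hA]
        field_simp
      rw [hA']
      generalize Complex.exp (-((φ t : ℂ) * Complex.I)) = E
      field_simp
      linear_combination (-(AA p (ro p X t) : ℂ) * E) * Complex.I_sq
    intro t
    have h2 := is_const_of_deriv_eq_zero (fun t => (h1 t).differentiableAt)
      (fun t => (h1 t).deriv) t 0
    simp only [hφ0, Complex.ofReal_zero, zero_mul, neg_zero, Complex.exp_zero, mul_one] at h2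
    rw [← h2, mul_assoc, ← Complex.exp_add]
    simp

end Basic

end Pool.Agent.Helper87.PLap
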