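import Pool.Agent.Helper87.PLap.Dfun

set_option autoImplicit false

namespace Pool.Agent.Helper87.PLap

open Real Set Filter Topology MeasureTheory

/-- The period `T(k)`. -/
noncomputable def TT (p k : ℝ) : ℝ := 2 * ∫ ψ in (0 : ℝ)..(π / 2), MM p (k * sin ψ)

/-- The angle `Θ(k)`. -/
noncomputable def TH (p k : ℝ) : ℝ :=
  2 * (√(1 - k ^ 2) * ∫ ψ in (0 : ℝ)..(π / 2), MM p (k * sin ψ) / (1 - (k * sin ψ) ^ 2))

/-- The action `j(k) = T - sΘ`. -/
noncomputable def JJ (p k : ℝ) : ℝ :=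
  2 * ∫ ψ in (0 : ℝ)..(π / 2), MM p (k * sin ψ) * ((k * cos ψ) ^ 2 / (1 - (k * sin ψ) ^ 2))

/-- The integral occurring in both derivatives. -/
noncomputable def II (p k : ℝ) : ℝ := ∫ ψ in (0 : ℝ)..(π / 2), DD2 p (k * sin ψ) * sin ψ

theorem hpi2 : (0 : ℝ) ≤ π / 2 := by positivity

theorem sin_bd {ψ : ℝ} (h : ψ ∈ Icc 0 (π / 2)) : 0 ≤ sin ψ ∧ sin ψ ≤ 1 :=
  ⟨sin_nonneg_of_nonneg_of_le_pi h.1 (by linarith [h.2, pi_pos]), sin_le_one ψ⟩

theorem ksin_mem {k ψ : ℝ} (hk : k ∈ Icc (0 : ℝ) 1) (h : ψ ∈ Icc 0 (π / 2)) :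
    k * sin ψ ∈ Icc (0 : ℝ) 1 := by
  have := sin_bd h
  exact ⟨mul_nonneg hk.1 this.1, by nlinarith [hk.1, hk.2]⟩

theorem ksin_mem' {k ψ : ℝ} (hk : k ∈ Ico (0 : ℝ) 1) (h : ψ ∈ Icc 0 (π / 2)) :
    k * sin ψ ∈ Ico (0 : ℝ) 1 := by
  have := sin_bd h
  exact ⟨mul_nonneg hk.1 this.1, by nlinarith [hk.1, hk.2]⟩

theorem ksin_mem'' {k ψ : ℝ} (hk : k ∈ Ioo (0 : ℝ) 1) (h : ψ ∈ Ioc 0 (π / 2)) :
    k * sin ψ ∈ Ioo (0 : ℝ) 1 := by
  have := sin_bd ⟨h.1.le, h.2⟩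
  have h2 : 0 < sin ψ := sin_pos_of_pos_of_lt_pi h.1 (by linarith [h.2, pi_pos])
  exact ⟨mul_pos hk.1 h2, by nlinarith [hk.1, hk.2]⟩

theorem alg1 (k s c X0 X1 X2 A : ℝ) (hA : k * s = A) (h0 : 1 - k ^ 2 ≠ 0) (h7 : 1 - A ^ 2 ≠ 0)
    (hc : c ^ 2 = 1 - s ^ 2) :
    -((-s * ((1 - k ^ 2) * (1 - A ^ 2)) - c * ((1 - k ^ 2) * -(2 * A * (k * c)))) /
            ((1 - k ^ 2) * (1 - A ^ 2)) ^ 2) * X0 +
      (-(c / ((1 - k ^ 2) * (1 - A ^ 2)))) * (X1 * (k * c)) =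
    (X2 + (A * X1 / (1 - A ^ 2) + X0 * (1 + A ^ 2) / (1 - A ^ 2) ^ 2)) * s - X2 * s -
      k / (1 - k ^ 2) * (((1 - A ^ 2) * X1 + A * X0) / (1 - A ^ 2)) := by
  field_simp
  rw [hc, ← hA]
  ring

section Basic

variable {p : ℝ} (hp : 2 < p)

include hp

theorem DD_contOn : ContinuousOn (DD p) (Ioo (-1) 1) := fun _ hA =>
  (DD_hasDerivAt hp hA).continuousAt.continuousWithinAt

/-- Derivative of `M`. -/
theorem MM_hasDerivAt {A : ℝ} (hA : A ∈ Ioo (0 : ℝ) 1) :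
    HasDerivAt (MM p) ((1 - A ^ 2) * DD2 p A - A * DD1 p A + DD p A) A := by
  have hA' : A ∈ Ioo (-1 : ℝ) 1 := ⟨by linarith [hA.1], hA.2⟩
  have e1 : HasDerivAt (fun A : ℝ => 1 - A ^ 2) (-(2 * A)) A := by
    simpa using (hasDerivAt_pow 2 A).const_sub 1
  have h := (e1.mul (DD1_hasDerivAt hp hA)).add ((hasDerivAt_id A).mul (DD_hasDerivAt hp hA'))
  have e5 := h.congr_of_eventuallyEq (f₁ := MM p) (by
    filter_upwards [Ioo_mem_nhds hA'.1 hA'.2] with y hy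
    rw [MM_eq hp hy]
    simp)
  refine e5.congr_deriv ?_
  simp only [id]
  ring

/-- Derivative of `M/(1 - A²)`. -/
theorem MMd_hasDerivAt {A : ℝ} (hA : A ∈ Ioo (0 : ℝ) 1) :
    HasDerivAt (fun A => MM p A / (1 - A ^ 2))
      (DD2 p A + (A * DD1 p A / (1 - A ^ 2) + DD p A * (1 + A ^ 2) / (1 - A ^ 2) ^ 2)) A := by
  have hA' : A ∈ Ioo (-1 : ℝ) 1 := ⟨by linarith [hA.1], hA.2⟩
  have h0 := one_sub_sq_pos hp hA
  have e1 : HasDerivAt (fun A : ℝ => 1 - A ^ 2) (-(2 * A)) A := by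
    simpa using (hasDerivAt_pow 2 A).const_sub 1
  refine ((MM_hasDerivAt hp hA).div e1 h0.ne').congr_deriv ?_
  rw [MM_eq hp hA']
  field_simp
  ring

theorem bound_D1 {b : ℝ} (hb : b ∈ Ioo (0 : ℝ) 1) : ∃ C, ∀ x ∈ Ioc 0 b, |DD1 p x| ≤ C := by
  have h1 : ContinuousOn (DD1 p) (Icc 0 b) := (DD1_contOn hp).mono fun x hx =>
    ⟨by linarith [hx.1], by linarith [hx.2, hb.2]⟩
  obtain ⟨C, hC⟩ := isCompact_Icc.exists_bound_of_continuousOn h1
  exact ⟨C, fun x hx => hC x ⟨hx.1.le, hx.2⟩⟩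

theorem bound_D {b : ℝ} (hb : b ∈ Ioo (0 : ℝ) 1) : ∃ C, ∀ x ∈ Ioc 0 b, |DD p x| ≤ C := by
  have h1 : ContinuousOn (DD p) (Icc 0 b) := (DD_contOn hp).mono fun x hx =>
    ⟨by linarith [hx.1], by linarith [hx.2, hb.2]⟩
  obtain ⟨C, hC⟩ := isCompact_Icc.exists_bound_of_continuousOn h1
  exact ⟨C, fun x hx => hC x ⟨hx.1.le, hx.2⟩⟩

theorem D2_int {k : ℝ} (hk : k ∈ Ioo (0 : ℝ) 1) :
    IntervalIntegrable (fun ψ => DD2 p (k * sin ψ) * sin ψ) volume 0 (π / 2) :=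
  (hasDerivAt_int (G := DD1 p) (G' := DD2 p) (fun x hx => DD1_hasDerivAt hp hx)
    ((DD1_contOn hp).mono fun x hx => ⟨by linarith [hx.1], hx.2⟩) (DD2_contOn hp)
    (fun b hb => DD2_bound hp hb) hk).1

theorem II_pos {k : ℝ} (hk : k ∈ Ioo (0 : ℝ) 1) : 0 < II p k := by
  unfold II
  apply intervalIntegral.intervalIntegral_pos_of_pos_on (D2_int hp hk) _ (by positivity)
  intro ψ hψ
  have h2 : 0 < sin ψ := sin_pos_of_pos_of_lt_pi hψ.1 (by linarith [hψ.2, pi_pos])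
  exact mul_pos (DD2_pos hp (ksin_mem'' hk ⟨hψ.1, hψ.2.le⟩)) h2

theorem TT_hasDerivAt {k : ℝ} (hk : k ∈ Ioo (0 : ℝ) 1) :
    HasDerivAt (TT p) (2 * ((1 - k ^ 2) * II p k)) k := by
  have hMc : ContinuousOn (MM p) (Ico 0 1) := (MM_contOn hp).mono fun x hx =>
    ⟨by linarith [hx.1], hx.2.le⟩
  have hG'c : ContinuousOn (fun A => (1 - A ^ 2) * DD2 p A - A * DD1 p A + DD p A) (Ioo 0 1) := by
    have h1 : ContinuousOn (DD1 p) (Ioo 0 1) := (DD1_contOn hp).mono fun x hx =>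
      ⟨by linarith [hx.1], hx.2⟩
    have h2 : ContinuousOn (DD p) (Ioo 0 1) := (DD_contOn hp).mono fun x hx =>
      ⟨by linarith [hx.1], hx.2⟩
    have h3 := DD2_contOn hp
    fun_prop
  have h := hasDerivAt_int (fun x hx => MM_hasDerivAt hp hx) hMc hG'c (by
    intro b hb
    obtain ⟨C1, h1⟩ := DD2_bound hp hb
    obtain ⟨C2, h2⟩ := bound_D1 hp hb
    obtain ⟨C3, h3⟩ := bound_D hp hb
    refine ⟨C1 + C2 + C3, fun x hx => ?_⟩
    have hx' : x ∈ Ioo (0 : ℝ) 1 := ⟨hx.1, by linarith [hx.2, hb.2]⟩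
    have h0 := one_sub_sq_pos hp hx'
    have g1 := h1 x hx
    have g2 := h2 x hx
    have g3 := h3 x hx
    have g4 : |(1 - x ^ 2) * DD2 p x| ≤ C1 := by
      rw [abs_mul, abs_of_pos h0]
      have : 1 - x ^ 2 ≤ 1 := by nlinarith [hx.1]
      nlinarith [abs_nonneg (DD2 p x)]
    have g5 : |x * DD1 p x| ≤ C2 := by
      rw [abs_mul, abs_of_pos hx.1]
      nlinarith [abs_nonneg (DD1 p x), hx'.2, hx.1]
    rw [abs_le] at *
    constructor <;> linarith [g3.1, g3.2, g4.1, g4.2, g5.1, g5.2]) hk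
  have hA : ∀ ψ, HasDerivAt (fun ψ => k * sin ψ) (k * cos ψ) ψ := fun ψ =>
    (hasDerivAt_sin ψ).const_mul k
  have hX := intervalIntegral.integral_eq_sub_of_hasDerivAt_of_le
    (f := fun ψ => k * sin ψ * cos ψ * DD1 p (k * sin ψ) - cos ψ * DD p (k * sin ψ))
    (f' := fun ψ => ((1 - (k * sin ψ) ^ 2) * DD2 p (k * sin ψ) - k * sin ψ * DD1 p (k * sin ψ) +
      DD p (k * sin ψ)) * sin ψ - (1 - k ^ 2) * (DD2 p (k * sin ψ) * sin ψ)) hpi2
    (by
      have h1 : ContinuousOn (fun ψ => DD1 p (k * sin ψ)) (Icc 0 (π / 2)) :=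
        (DD1_contOn hp).comp (by fun_prop) fun ψ hψ => by
          have := ksin_mem' (k := k) ⟨hk.1.le, hk.2⟩ hψ
          exact ⟨by linarith [this.1], this.2⟩
      have h2 : ContinuousOn (fun ψ => DD p (k * sin ψ)) (Icc 0 (π / 2)) :=
        (DD_contOn hp).comp (by fun_prop) fun ψ hψ => by
          have := ksin_mem' (k := k) ⟨hk.1.le, hk.2⟩ hψ
          exact ⟨by linarith [this.1], this.2⟩
      fun_prop)
    (by
      intro ψ hψ
      have hm := ksin_mem'' hk ⟨hψ.1, hψ.2.le⟩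
      have hm' : k * sin ψ ∈ Ioo (-1 : ℝ) 1 := ⟨by linarith [hm.1], hm.2⟩
      have e1 := HasDerivAt.comp (h₂ := DD1 p) ψ (DD1_hasDerivAt hp hm) (hA ψ)
      have e2 := HasDerivAt.comp (h₂ := DD p) ψ (DD_hasDerivAt hp hm') (hA ψ)
      have e3 := (((hA ψ).mul (hasDerivAt_cos ψ)).mul e1).sub ((hasDerivAt_cos ψ).mul e2)
      refine HasDerivAt.congr_deriv (f := fun ψ => k * sin ψ * cos ψ * DD1 p (k * sin ψ) -
        cos ψ * DD p (k * sin ψ)) e3 ?_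
      simp only [Function.comp]
      have hc : cos ψ ^ 2 = 1 - sin ψ ^ 2 := by
        have := sin_sq_add_cos_sq ψ
        linarith
      simp only [Pi.mul_apply]
      linear_combination (k ^ 2 * sin ψ * DD2 p (k * sin ψ)) * hc)
    (h.1.sub ((D2_int hp hk).const_mul _))
  rw [intervalIntegral.integral_sub h.1 ((D2_int hp hk).const_mul _),
    intervalIntegral.integral_const_mul] at hX
  simp only [cos_pi_div_two, mul_zero, zero_mul, sub_zero, sin_zero, DD_zero] at hX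
  have h5 := h.2.const_mul 2
  refine HasDerivAt.congr_deriv (f := TT p) h5 ?_
  unfold II
  linarith

theorem sqrt_hasDerivAt {k : ℝ} (hk : k ∈ Ioo (0 : ℝ) 1) :
    HasDerivAt (fun k => √(1 - k ^ 2)) (-(k / √(1 - k ^ 2))) k := by
  have h0 := one_sub_sq_pos hp hk
  have e1 : HasDerivAt (fun A : ℝ => 1 - A ^ 2) (-(2 * k)) k := by
    simpa using (hasDerivAt_pow 2 k).const_sub 1
  refine (e1.sqrt h0.ne').congr_deriv ?_
  have : 0 < √(1 - k ^ 2) := Real.sqrt_pos.mpr h0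
  field_simp

theorem TH_hasDerivAt {k : ℝ} (hk : k ∈ Ioo (0 : ℝ) 1) :
    HasDerivAt (TH p) (2 * (√(1 - k ^ 2) * II p k)) k := by
  have h0 := one_sub_sq_pos hp hk
  have hMc : ContinuousOn (fun A => MM p A / (1 - A ^ 2)) (Ico 0 1) := by
    apply ContinuousOn.div
    · exact (MM_contOn hp).mono fun x hx => ⟨by linarith [hx.1], hx.2.le⟩
    · fun_prop
    · intro x hx
      nlinarith [hx.1, hx.2]
  have h1 : ContinuousOn (DD1 p) (Ioo 0 1) := (DD1_contOn hp).mono fun x hx =>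
    ⟨by linarith [hx.1], hx.2⟩
  have h2 : ContinuousOn (DD p) (Ioo 0 1) := (DD_contOn hp).mono fun x hx =>
    ⟨by linarith [hx.1], hx.2⟩
  have h3 := DD2_contOn hp
  have hG'c : ContinuousOn (fun A => DD2 p A + (A * DD1 p A / (1 - A ^ 2) +
      DD p A * (1 + A ^ 2) / (1 - A ^ 2) ^ 2)) (Ioo 0 1) := by
    apply h3.add
    apply ContinuousOn.add
    · apply ContinuousOn.div
      · fun_prop
      · fun_prop
      · intro x hx
        exact (one_sub_sq_pos hp hx).ne'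
    · apply ContinuousOn.div
      · fun_prop
      · fun_prop
      · intro x hx
        have := (one_sub_sq_pos hp hx)
        positivity
  have h := hasDerivAt_int (fun x hx => MMd_hasDerivAt hp hx) hMc hG'c (by
    intro b hb
    obtain ⟨C1, g1⟩ := DD2_bound hp hb
    have h4 : ContinuousOn (fun A => A * DD1 p A / (1 - A ^ 2) +
        DD p A * (1 + A ^ 2) / (1 - A ^ 2) ^ 2) (Icc 0 b) := by
      have h1 : ContinuousOn (DD1 p) (Icc 0 b) := (DD1_contOn hp).mono fun x hx =>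
        ⟨by linarith [hx.1], by linarith [hx.2, hb.2]⟩
      have h2 : ContinuousOn (DD p) (Icc 0 b) := (DD_contOn hp).mono fun x hx =>
        ⟨by linarith [hx.1], by linarith [hx.2, hb.2]⟩
      have h5 : ∀ x ∈ Icc 0 b, 0 < 1 - x ^ 2 := fun x hx => by
        nlinarith [hx.1, hx.2, hb.1, hb.2]
      apply ContinuousOn.add
      · apply ContinuousOn.div
        · fun_prop
        · fun_prop
        · intro x hx
          exact (h5 x hx).ne'
      · apply ContinuousOn.div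
        · fun_prop
        · fun_prop
        · intro x hx
          have := h5 x hx
          positivity
    obtain ⟨C2, g2⟩ := isCompact_Icc.exists_bound_of_continuousOn h4
    refine ⟨C1 + C2, fun x hx => ?_⟩
    have g1' := g1 x hx
    have g2' := g2 x ⟨hx.1.le, hx.2⟩
    rw [Real.norm_eq_abs] at g2'
    exact (abs_add_le _ _).trans (add_le_add g1' g2')) hk
  have hA : ∀ ψ, HasDerivAt (fun ψ => k * sin ψ) (k * cos ψ) ψ := fun ψ =>
    (hasDerivAt_sin ψ).const_mul k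
  have hmaps : MapsTo (fun ψ => k * sin ψ) (Icc 0 (π / 2)) (Ico 0 1) := fun ψ hψ =>
    ksin_mem' (k := k) ⟨hk.1.le, hk.2⟩ hψ
  have hGint : IntervalIntegrable (fun ψ => MM p (k * sin ψ) / (1 - (k * sin ψ) ^ 2))
      volume 0 (π / 2) := by
    apply ContinuousOn.intervalIntegrable
    rw [uIcc_of_le hpi2]
    exact hMc.comp (by fun_prop) hmaps
  have hX := intervalIntegral.integral_eq_sub_of_hasDerivAt_of_le
    (f := fun ψ => -(cos ψ / ((1 - k ^ 2) * (1 - (k * sin ψ) ^ 2))) * DD p (k * sin ψ))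
    (f' := fun ψ => (DD2 p (k * sin ψ) + (k * sin ψ * DD1 p (k * sin ψ) / (1 - (k * sin ψ) ^ 2) +
      DD p (k * sin ψ) * (1 + (k * sin ψ) ^ 2) / (1 - (k * sin ψ) ^ 2) ^ 2)) * sin ψ -
      DD2 p (k * sin ψ) * sin ψ -
      k / (1 - k ^ 2) * (MM p (k * sin ψ) / (1 - (k * sin ψ) ^ 2))) hpi2
    (by
      have h2 : ContinuousOn (fun ψ => DD p (k * sin ψ)) (Icc 0 (π / 2)) :=
        (DD_contOn hp).comp (by fun_prop) fun ψ hψ => by
          have := ksin_mem' (k := k) ⟨hk.1.le, hk.2⟩ hψ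
          exact ⟨by linarith [this.1], this.2⟩
      apply ContinuousOn.mul _ h2
      apply ContinuousOn.neg
      apply ContinuousOn.div (by fun_prop) (by fun_prop)
      intro ψ hψ
      have := ksin_mem' (k := k) ⟨hk.1.le, hk.2⟩ hψ
      have h6 : 0 < 1 - (k * sin ψ) ^ 2 := by nlinarith [this.1, this.2]
      positivity)
    (by
      intro ψ hψ
      have hm := ksin_mem'' hk ⟨hψ.1, hψ.2.le⟩
      have hm' : k * sin ψ ∈ Ioo (-1 : ℝ) 1 := ⟨by linarith [hm.1], hm.2⟩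
      have h6 := one_sub_sq_pos hp hm
      have e2 := HasDerivAt.comp (h₂ := DD p) ψ (DD_hasDerivAt hp hm') (hA ψ)
      have e3 : HasDerivAt (fun ψ => (1 - k ^ 2) * (1 - (k * sin ψ) ^ 2))
          ((1 - k ^ 2) * (-(2 * (k * sin ψ) * (k * cos ψ)))) ψ := by
        have := (((hA ψ).pow 2).const_sub 1).const_mul (1 - k ^ 2)
        refine this.congr_deriv ?_
        simp
      have e4 := (((hasDerivAt_cos ψ).div e3 (by positivity)).neg).mul e2
      refine HasDerivAt.congr_deriv (f := fun ψ => -(cos ψ / ((1 - k ^ 2) *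
        (1 - (k * sin ψ) ^ 2))) * DD p (k * sin ψ)) e4 ?_
      rw [MM_eq hp hm']
      simp only [Function.comp, Pi.neg_apply, Pi.div_apply]
      have hc : cos ψ ^ 2 = 1 - sin ψ ^ 2 := by
        have := sin_sq_add_cos_sq ψ
        linarith
      exact alg1 k (sin ψ) (cos ψ) _ _ _ _ rfl h0.ne' h6.ne' hc)
    ((h.1.sub (D2_int hp hk)).sub (hGint.const_mul _))
  rw [intervalIntegral.integral_sub (h.1.sub (D2_int hp hk)) (hGint.const_mul _),
    intervalIntegral.integral_sub h.1 (D2_int hp hk),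
    intervalIntegral.integral_const_mul] at hX
  simp only [cos_pi_div_two, zero_div, neg_zero, zero_mul, mul_zero, sin_zero, DD_zero,
    sub_zero] at hX
  have h5 := ((sqrt_hasDerivAt hp hk).mul h.2).const_mul 2
  refine HasDerivAt.congr_deriv (f := TH p) h5 ?_
  unfold II
  have hs : 0 < √(1 - k ^ 2) := Real.sqrt_pos.mpr h0
  have hs2 : √(1 - k ^ 2) ^ 2 = 1 - k ^ 2 := Real.sq_sqrt h0.le
  generalize (∫ ψ in (0 : ℝ)..(π / 2), (DD2 p (k * sin ψ) + (k * sin ψ * DD1 p (k * sin ψ) /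
    (1 - (k * sin ψ) ^ 2) + DD p (k * sin ψ) * (1 + (k * sin ψ) ^ 2) /
    (1 - (k * sin ψ) ^ 2) ^ 2)) * sin ψ) = I1 at *
  generalize (∫ ψ in (0 : ℝ)..(π / 2), DD2 p (k * sin ψ) * sin ψ) = I2 at *
  generalize (∫ ψ in (0 : ℝ)..(π / 2), MM p (k * sin ψ) / (1 - (k * sin ψ) ^ 2)) = I3 at *
  rw [← hs2] at hX
  have hX' : I1 - I2 = k / √(1 - k ^ 2) ^ 2 * I3 := by linarith
  have : I1 = I2 + k / √(1 - k ^ 2) ^ 2 * I3 := by linarith
  rw [this]
  field_simp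
  ring

end Basic

end Pool.Agent.Helper87.PLap
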